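import Pool.Agent.R224.MD.Tri4

/-!
# Mean distance and inradius: Delaunay triangles of a finite planar set
-/

set_option autoImplicit false

open Set MeasureTheory Filter Topology

noncomputable section

namespace Pool.Agent.R224.MD

/-! ## Circles -/

lemma circ_D {a b c o : ℂ} {r : ℝ} (ha : ‖a - o‖ = r) (hb : ‖b - o‖ = r) (hc : ‖c - o‖ = r)
    (hab : a ≠ b) (hbc : b ≠ c) (hca : c ≠ a) : dd (b - a) (c - a) ≠ 0 := by
  intro h
  have e1 : b - o - (a - o) = b - a := by ring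
  have e2 : c - o - (a - o) = c - a := by ring
  have h1 := circ2 (a := a - o) (b := b - o) (c := c - o) (R := r ^ 2) (by rw [ip_self, ha])
    (by rw [ip_self, hb]) (by rw [ip_self, hc])
  have e3 : a - o - (b - o) = a - b := by ring
  have e4 : b - o - (c - o) = b - c := by ring
  rw [e1, e2, e3, e4, h, ip_self, ip_self, ip_self] at h1
  have n1 : 0 < ‖a - b‖ := norm_pos_iff.2 (sub_ne_zero.2 hab)
  have n2 : 0 < ‖b - c‖ := norm_pos_iff.2 (sub_ne_zero.2 hbc)
  have n3 : 0 < ‖c - a‖ := norm_pos_iff.2 (sub_ne_zero.2 hca)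
  have : 0 < ‖a - b‖ ^ 2 * ‖b - c‖ ^ 2 * ‖c - a‖ ^ 2 := by positivity
  rw [← h1] at this
  simp at this

lemma perp_zero {u v w : ℂ} (h : dd u v ≠ 0) (h1 : ip u w = 0) (h2 : ip v w = 0) : w = 0 := by
  unfold ip at h1 h2
  have e1 : w.re * dd u v = 0 := by unfold dd; linear_combination v.im * h1 - u.im * h2
  have e2 : w.im * dd u v = 0 := by unfold dd; linear_combination u.re * h2 - v.re * h1
  exact Complex.ext ((mul_eq_zero.1 e1).resolve_right h) ((mul_eq_zero.1 e2).resolve_right h)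

/-- difference of the powers with respect to two circles -/
lemma pow_diff (z o o' : ℂ) : ‖z - o‖ ^ 2 - ‖z - o'‖ ^ 2 =
    ip z (2 * (o' - o)) + (‖o‖ ^ 2 - ‖o'‖ ^ 2) := by
  simp only [← ip_self]
  unfold ip
  simp
  ring

lemma circ_unique {a b c o o' : ℂ} {r r' : ℝ} (ha : ‖a - o‖ = r) (hb : ‖b - o‖ = r)
    (hc : ‖c - o‖ = r) (ha' : ‖a - o'‖ = r') (hb' : ‖b - o'‖ = r') (hc' : ‖c - o'‖ = r')
    (hab : a ≠ b) (hbc : b ≠ c) (hca : c ≠ a) : o = o' ∧ r = r' := by
  have hD := circ_D ha hb hc hab hbc hca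
  have p1 := pow_diff a o o'
  have p2 := pow_diff b o o'
  have p3 := pow_diff c o o'
  rw [ha, ha'] at p1
  rw [hb, hb'] at p2
  rw [hc, hc'] at p3
  have h1 : ip (b - a) (2 * (o' - o)) = 0 := by
    have : ip (b - a) (2 * (o' - o)) = ip b (2 * (o' - o)) - ip a (2 * (o' - o)) := by
      unfold ip; simp only [Complex.sub_re, Complex.sub_im]; ring
    linarith
  have h2 : ip (c - a) (2 * (o' - o)) = 0 := by
    have : ip (c - a) (2 * (o' - o)) = ip c (2 * (o' - o)) - ip a (2 * (o' - o)) := by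
      unfold ip; simp only [Complex.sub_re, Complex.sub_im]; ring
    linarith
  have h3 := perp_zero hD h1 h2
  have h4 : o = o' := by
    have : o' - o = 0 := by
      rcases mul_eq_zero.1 h3 with h | h
      · norm_num at h
      · exact h
    exact (sub_eq_zero.1 this).symm
  refine ⟨h4, ?_⟩
  rw [← ha, ← ha', h4]

/-! ## Lines have measure zero -/

lemma line_null {v : ℂ} (hv : v ≠ 0) (k : ℝ) : volume {z : ℂ | ip z v = k} = 0 := by
  have hL : 0 < ip v v := by
    rw [ip_self]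
    have := norm_pos_iff.2 hv
    positivity
  refine measure_mono_null ?_ (vol_deg (V := ((k / ip v v : ℝ) : ℂ) * v) (u := Complex.I * v) (w := 0)
    (by unfold dd; simp) univ)
  intro z hz
  refine ⟨⟨dd v z / ip v v, 0⟩, mem_univ _, ?_⟩
  have hz' : ip z v = k := hz
  have hL' : (ip v v : ℂ) ≠ 0 := by exact_mod_cast hL.ne'
  have key : (ip v v : ℂ) * z = (ip z v : ℂ) * v + (dd v z : ℂ) * (Complex.I * v) := by
    unfold ip dd
    apply Complex.ext <;> simp <;> ring
  unfold Aff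
  rw [← hz']
  push_cast
  field_simp
  linear_combination -key

lemma line_null' {p q : ℂ} (h : p ≠ q) : volume {z : ℂ | dd (q - p) (z - p) = 0} = 0 := by
  have h1 : Complex.I * (q - p) ≠ 0 := mul_ne_zero Complex.I_ne_zero (sub_ne_zero.2 h.symm)
  have h2 : {z : ℂ | dd (q - p) (z - p) = 0} = {z : ℂ | ip z (Complex.I * (q - p)) =
      ip p (Complex.I * (q - p))} := by
    ext z
    simp only [mem_ofPred_eq]
    rw [← sub_eq_zero (a := ip z (Complex.I * (q - p)))]
    have : dd (q - p) (z - p) = ip z (Complex.I * (q - p)) - ip p (Complex.I * (q - p)) := by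
      unfold dd ip
      simp
      ring
    rw [this]
  rw [h2]
  exact line_null h1 _

/-! ## General position -/

/-- no four points on a circle -/
def GP (F : Finset ℂ) : Prop :=
  ∀ (o : ℂ) (r : ℝ) (s : Finset ℂ), s ⊆ F → (∀ p ∈ s, ‖p - o‖ = r) → s.card ≤ 3

lemma bad_null (s : Finset ℂ) (hs : s.card = 3) :
    volume {q : ℂ | ∃ (o : ℂ) (r : ℝ), (∀ p ∈ s, ‖p - o‖ = r) ∧ ‖q - o‖ = r} = 0 := by
  classical
  obtain ⟨a, b, c, hab, hac, hbc, rfl⟩ := Finset.card_eq_three.1 hs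
  by_cases h : ∃ (o : ℂ) (r : ℝ), ∀ p ∈ ({a, b, c} : Finset ℂ), ‖p - o‖ = r
  · obtain ⟨o, r, hor⟩ := h
    refine measure_mono_null ?_ (Measure.addHaar_sphere volume o r)
    rintro q ⟨o', r', h1, h2⟩
    obtain ⟨e1, e2⟩ := circ_unique (hor a (by simp)) (hor b (by simp)) (hor c (by simp))
      (h1 a (by simp)) (h1 b (by simp)) (h1 c (by simp)) hab hbc hac.symm
    rw [mem_sphere_iff_norm, e1, e2]
    exact h2
  · have : {q : ℂ | ∃ (o : ℂ) (r : ℝ), (∀ p ∈ ({a, b, c} : Finset ℂ), ‖p - o‖ = r) ∧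
        ‖q - o‖ = r} = ∅ := by
      ext q
      simp only [mem_ofPred_eq, mem_empty_iff_false, iff_false]
      rintro ⟨o, r, h1, -⟩
      exact h ⟨o, r, h1⟩
    rw [this]; simp

/-- perturbation to general position -/
lemma exists_GP (F0 : Finset ℂ) {ε : ℝ} (hε : 0 < ε) : ∃ F : Finset ℂ, GP F ∧
    (∀ p ∈ F0, ∃ q ∈ F, ‖q - p‖ < ε) ∧ (∀ q ∈ F, ∃ p ∈ F0, ‖q - p‖ < ε) := by
  classical
  induction F0 using Finset.induction_on with
  | empty =>
    refine ⟨∅, ?_, by simp, by simp⟩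
    intro o r s hs _
    rw [Finset.subset_empty.1 hs]; simp
  | insert p F0 _ ih =>
    obtain ⟨F, hGP, h1, h2⟩ := ih
    set B : Set ℂ := ⋃ s ∈ F.powersetCard 3,
      {q : ℂ | ∃ (o : ℂ) (r : ℝ), (∀ p ∈ s, ‖p - o‖ = r) ∧ ‖q - o‖ = r} with hB
    have hB0 : volume B = 0 := by
      rw [hB]
      refine (measure_biUnion_null_iff (F.powersetCard 3).countable_toSet).2 fun s hs => ?_
      exact bad_null s (Finset.mem_powersetCard.1 hs).2
    obtain ⟨q, hq, hqB⟩ : ∃ q ∈ Metric.ball p ε, q ∉ B := by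
      by_contra hcon
      push Not at hcon
      have h3 : volume (Metric.ball p ε) ≤ volume B := measure_mono hcon
      rw [hB0] at h3
      exact absurd (Metric.measure_ball_pos volume p hε) (not_lt.2 h3)
    refine ⟨insert q F, ?_, ?_, ?_⟩
    · intro o r s hs hor
      by_cases hqs : q ∈ s
      · have h3 : s.erase q ⊆ F := by
          intro z hz
          rw [Finset.mem_erase] at hz
          exact (Finset.mem_insert.1 (hs hz.2)).resolve_left hz.1
        have h4 := hGP o r (s.erase q) h3 fun p hp => hor p (Finset.mem_of_mem_erase hp)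
        have h5 : (s.erase q).card ≠ 3 := by
          intro h5
          apply hqB
          rw [hB]
          simp only [mem_iUnion]
          exact ⟨s.erase q, Finset.mem_powersetCard.2 ⟨h3, h5⟩, o, r,
            fun p hp => hor p (Finset.mem_of_mem_erase hp), hor q hqs⟩
        have h6 := Finset.card_erase_add_one hqs
        omega
      · refine hGP o r s (fun z hz => ?_) hor
        exact (Finset.mem_insert.1 (hs hz)).resolve_left fun h => hqs (h ▸ hz)
    · intro p' hp'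
      rcases Finset.mem_insert.1 hp' with rfl | h
      · exact ⟨q, Finset.mem_insert_self _ _, by rwa [mem_ball_iff_norm] at hq⟩
      · obtain ⟨q', hq', h3⟩ := h1 p' h
        exact ⟨q', Finset.mem_insert_of_mem hq', h3⟩
    · intro q' hq'
      rcases Finset.mem_insert.1 hq' with rfl | h
      · exact ⟨p, Finset.mem_insert_self _ _, by rwa [mem_ball_iff_norm] at hq⟩
      · obtain ⟨p', hp', h3⟩ := h2 q' h
        exact ⟨p', Finset.mem_insert_of_mem hp', h3⟩

/-! ## The exchange argument -/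

/-- the feasible weights -/
def Fe (F : Finset ℂ) (x : ℂ) : Set (F → ℝ) :=
  {w | w ∈ stdSimplex ℝ F ∧ ∑ p, w p • (p : ℂ) = x}

lemma Fe_cpt (F : Finset ℂ) (x : ℂ) : IsCompact (Fe F x) := by
  have h1 : Fe F x = stdSimplex ℝ F ∩ {w | ∑ p, w p • (p : ℂ) = x} := rfl
  rw [h1]
  refine (isCompact_stdSimplex ℝ F).inter_right ?_
  exact isClosed_eq (by fun_prop) continuous_const

lemma exch_min {F : Finset ℂ} {x : ℂ} {w : F → ℝ} (hw : w ∈ Fe F x)
    (hm : ∀ w' ∈ Fe F x, ∑ p, w p * ‖(p : ℂ)‖ ^ 2 ≤ ∑ p, w' p * ‖(p : ℂ)‖ ^ 2) {v : F → ℝ}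
    (h0 : ∑ p, v p = 0) (h1 : ∑ p, v p • (p : ℂ) = 0) (hv : ∀ p, v p < 0 → 0 < w p) :
    0 ≤ ∑ p, v p * ‖(p : ℂ)‖ ^ 2 := by
  have hev : ∀ᶠ t in 𝓝[>] (0 : ℝ), ∀ p, 0 ≤ w p + t * v p := by
    rw [eventually_all]
    intro p
    rcases lt_or_ge (v p) 0 with h | h
    · have hc : Tendsto (fun t : ℝ => w p + t * v p) (𝓝[>] 0) (𝓝 (w p + 0 * v p)) :=
        (Continuous.tendsto (by fun_prop) 0).mono_left nhdsWithin_le_nhds
      have : 0 < w p + 0 * v p := by simpa using hv p h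
      exact (hc.eventually (lt_mem_nhds this)).mono fun t ht => ht.le
    · filter_upwards [self_mem_nhdsWithin] with t ht
      have ht' : (0 : ℝ) < t := ht
      have := hw.1.1 p
      positivity
  obtain ⟨t, ht, ht0⟩ := (hev.and self_mem_nhdsWithin).exists
  have ht0' : (0 : ℝ) < t := ht0
  have h2 := hm (fun p => w p + t * v p) ⟨⟨ht, by
      rw [Finset.sum_add_distrib, ← Finset.mul_sum, h0, hw.1.2]; simp⟩, by
      have : ∑ p, (w p + t * v p) • (p : ℂ) = ∑ p, w p • (p : ℂ) + t • ∑ p, v p • (p : ℂ) := by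
        rw [Finset.smul_sum, ← Finset.sum_add_distrib]
        refine Finset.sum_congr rfl fun p _ => ?_
        rw [add_smul, mul_smul]
      rw [this, h1, hw.2]; simp⟩
  have h3 : ∑ p, (w p + t * v p) * ‖(p : ℂ)‖ ^ 2 =
      ∑ p, w p * ‖(p : ℂ)‖ ^ 2 + t * ∑ p, v p * ‖(p : ℂ)‖ ^ 2 := by
    rw [Finset.mul_sum, ← Finset.sum_add_distrib]
    refine Finset.sum_congr rfl fun p _ => ?_
    ring
  rw [h3] at h2
  have h4 : 0 ≤ t * ∑ p, v p * ‖(p : ℂ)‖ ^ 2 := by linarith
  exact nonneg_of_mul_nonneg_right h4 ht0'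

/-- circumcentre -/
lemma exists_circ {a b c : ℂ} (hD : dd (b - a) (c - a) ≠ 0) :
    ∃ (o : ℂ) (r : ℝ), ‖a - o‖ = r ∧ ‖b - o‖ = r ∧ ‖c - o‖ = r := by
  set u := b - a with hu
  set v := c - a with hv
  set D := dd u v with hDd
  have hE : D * (u.re * v.im - u.im * v.re) = D ^ 2 := by rw [hDd]; unfold dd; ring
  set w : ℂ := ⟨(ip u u / 2 * v.im - ip v v / 2 * u.im) / D,
    (-(ip u u / 2) * v.re + ip v v / 2 * u.re) / D⟩ with hw
  have h1 : ip w u = ip u u / 2 := by
    have : ip w u * D = ip u u / 2 * D := by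
      rw [hw]
      unfold ip
      simp only
      field_simp
      rw [hDd]; unfold dd; ring
    exact mul_right_cancel₀ hD this
  have h2 : ip w v = ip v v / 2 := by
    have : ip w v * D = ip v v / 2 * D := by
      rw [hw]
      unfold ip
      simp only
      field_simp
      rw [hDd]; unfold dd; ring
    exact mul_right_cancel₀ hD this
  refine ⟨a + w, ‖w‖, ?_, ?_, ?_⟩
  · rw [show a - (a + w) = -w by ring, norm_neg]
  · refine (sq_eq_sq₀ (norm_nonneg _) (norm_nonneg _)).1 ?_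
    rw [show b - (a + w) = u - w by rw [hu]; ring, ← ip_self, ← ip_self]
    have : ip (u - w) (u - w) = ip u u - 2 * ip w u + ip w w := by
      unfold ip; simp only [Complex.sub_re, Complex.sub_im]; ring
    rw [this, h1]; ring
  · refine (sq_eq_sq₀ (norm_nonneg _) (norm_nonneg _)).1 ?_
    rw [show c - (a + w) = v - w by rw [hv]; ring, ← ip_self, ← ip_self]
    have : ip (v - w) (v - w) = ip v v - 2 * ip w v + ip w w := by
      unfold ip; simp only [Complex.sub_re, Complex.sub_im]; ring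
    rw [this, h2]; ring

/-- power is an affine combination -/
lemma pow_comb {a b c o p : ℂ} {r α β γ : ℝ} (ha : ‖a - o‖ = r) (hb : ‖b - o‖ = r)
    (hc : ‖c - o‖ = r) (hs : α + β + γ = 1) (hp : p = α * a + β * b + γ * c) :
    ‖p‖ ^ 2 - α * ‖a‖ ^ 2 - β * ‖b‖ ^ 2 - γ * ‖c‖ ^ 2 = ‖p - o‖ ^ 2 - r ^ 2 := by
  have e : ∀ z : ℂ, ‖z‖ ^ 2 = ‖z - o‖ ^ 2 + 2 * ip z o - ip o o := by
    intro z
    rw [← ip_self, ← ip_self]
    unfold ip; simp only [Complex.sub_re, Complex.sub_im]; ring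
  have h1 : ip p o = α * ip a o + β * ip b o + γ * ip c o := by
    rw [hp]; unfold ip; simp; ring
  rw [e p, e a, e b, e c, ha, hb, hc, h1]
  linear_combination (ip o o - r ^ 2) * hs

lemma bary {a b c p : ℂ} (hD : dd (b - a) (c - a) ≠ 0) :
    ∃ α β γ : ℝ, α + β + γ = 1 ∧ p = α * a + β * b + γ * c := by
  set D := dd (b - a) (c - a) with hDd
  refine ⟨1 - dd (p - a) (c - a) / D - dd (b - a) (p - a) / D, dd (p - a) (c - a) / D,
    dd (b - a) (p - a) / D, by ring, ?_⟩
  have hD' : (D : ℂ) ≠ 0 := by exact_mod_cast hD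
  have key : (D : ℂ) * (p - a) = (dd (p - a) (c - a) : ℂ) * (b - a) +
      (dd (b - a) (p - a) : ℂ) * (c - a) := by
    rw [hDd]
    unfold dd
    apply Complex.ext <;> simp <;> ring
  push_cast
  field_simp
  linear_combination key

end Pool.Agent.R224.MD
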