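import Pool.Agent.R224.MD.Del

/-!
# Mean distance and inradius: Delaunay triangles cover the hull and do not overlap
-/

set_option autoImplicit false

open Set MeasureTheory Filter Topology

noncomputable section

namespace Pool.Agent.R224.MD

/-- `dd u` as a linear map -/
def ddL (u : ℂ) : ℂ →ₗ[ℝ] ℝ := u.re • Complex.imLm - u.im • Complex.reLm

lemma ddL_apply (u z : ℂ) : ddL u z = dd u z := by
  simp [ddL, dd]

lemma dd_sum {F : Finset ℂ} {w : F → ℝ} {x : ℂ} (hw : w ∈ Fe F x) (u a : ℂ) :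
    dd u (x - a) = ∑ p, w p * dd u ((p : ℂ) - a) := by
  have h1 : x - a = ∑ p, w p • ((p : ℂ) - a) := by
    simp_rw [smul_sub]
    rw [Finset.sum_sub_distrib, ← Finset.sum_smul, hw.1.2, hw.2, one_smul]
  rw [← ddL_apply, h1, map_sum]
  refine Finset.sum_congr rfl fun p _ => ?_
  rw [map_smul, ddL_apply, smul_eq_mul]

lemma del_exists {F : Finset ℂ} (hGP : GP F) {x : ℂ} (hx : x ∈ convexHull ℝ (F : Set ℂ))
    (hxF : x ∉ F) (hline : ∀ p ∈ F, ∀ q ∈ F, p ≠ q → dd (q - p) (x - p) ≠ 0) :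
    ∃ a ∈ F, ∃ b ∈ F, ∃ c ∈ F, ∃ (o : ℂ) (r : ℝ), a ≠ b ∧ b ≠ c ∧ c ≠ a ∧ ‖a - o‖ = r ∧
      ‖b - o‖ = r ∧ ‖c - o‖ = r ∧ (∀ p ∈ F, r ≤ ‖p - o‖) ∧
      x ∈ convexHull ℝ ({a, b, c} : Set ℂ) := by
  classical
  have hne : (Fe F x).Nonempty := by
    obtain ⟨w, h0, h1, h2⟩ := Finset.mem_convexHull'.1 hx
    refine ⟨fun p => w p, ⟨fun p => h0 p p.2, ?_⟩, ?_⟩
    · rw [← h1]; exact Finset.sum_coe_sort F (fun y => w y)
    · rw [← h2]; exact Finset.sum_coe_sort F (fun y => w y • y)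
  obtain ⟨w, hw, hmin⟩ := (Fe_cpt F x).exists_isMinOn hne
    (f := fun w : F → ℝ => ∑ p, w p * ‖(p : ℂ)‖ ^ 2) (by fun_prop)
  have hm : ∀ w' ∈ Fe F x, ∑ p, w p * ‖(p : ℂ)‖ ^ 2 ≤ ∑ p, w' p * ‖(p : ℂ)‖ ^ 2 :=
    fun w' hw' => hmin hw'
  have hw0 : ∀ p, 0 ≤ w p := hw.1.1
  -- three noncollinear points of the support
  obtain ⟨a, hwa⟩ : ∃ a, 0 < w a := by
    by_contra hcon
    push Not at hcon
    have : ∑ p, w p = 0 := Finset.sum_eq_zero fun p _ => le_antisymm (hcon p) (hw0 p)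
    rw [hw.1.2] at this
    exact one_ne_zero this
  obtain ⟨b, hwb, hba⟩ : ∃ b, 0 < w b ∧ b ≠ a := by
    by_contra hcon
    push Not at hcon
    have h0 : ∀ p, p ≠ a → w p = 0 := fun p hp =>
      le_antisymm (not_lt.1 fun h => hp (hcon p h)) (hw0 p)
    have h1 : ∑ p, w p = w a := Finset.sum_eq_single a (fun p _ hp => h0 p hp) (by simp)
    have h2 : ∑ p, w p • (p : ℂ) = w a • (a : ℂ) := Finset.sum_eq_single a
      (fun p _ hp => by rw [h0 p hp, zero_smul]) (by simp)
    rw [hw.1.2] at h1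
    rw [hw.2, ← h1, one_smul] at h2
    exact hxF (h2 ▸ a.2)
  obtain ⟨c, hwc, hD⟩ : ∃ c, 0 < w c ∧ dd ((b : ℂ) - a) ((c : ℂ) - a) ≠ 0 := by
    by_contra hcon
    push Not at hcon
    have h1 := dd_sum hw ((b : ℂ) - a) a
    have h2 : ∑ p, w p * dd ((b : ℂ) - a) ((p : ℂ) - a) = 0 := by
      refine Finset.sum_eq_zero fun p _ => ?_
      rcases eq_or_lt_of_le (hw0 p) with h | h
      · rw [← h, zero_mul]
      · rw [hcon p h, mul_zero]
    rw [h2] at h1
    refine hline a a.2 b b.2 ?_ h1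
    intro h
    exact hba (Subtype.ext h.symm)
  obtain ⟨o, r, ha, hb, hc⟩ := exists_circ hD
  have hab : (a : ℂ) ≠ b := fun h => hba (Subtype.ext h.symm)
  have hbc : (b : ℂ) ≠ c := by
    intro h; apply hD; rw [h]; unfold dd; ring
  have hca : (c : ℂ) ≠ a := by
    intro h; apply hD; rw [h]; unfold dd; simp
  have hr0 : 0 ≤ r := by rw [← ha]; exact norm_nonneg _
  -- the exchange directions
  have hex : ∀ (σ : ℝ) (p : F) (α β γ : ℝ), α + β + γ = 1 →
      (p : ℂ) = α * (a : ℂ) + β * (b : ℂ) + γ * (c : ℂ) → (0 < σ ∨ 0 < w p) →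
      0 ≤ σ * (‖(p : ℂ) - o‖ ^ 2 - r ^ 2) := by
    intro σ p α β γ hs hp hσ
    have hsum : ∀ {E : Type} [AddCommGroup E] [Module ℝ E] (f : F → E),
        ∑ q, (σ * ((if q = p then 1 else 0) - α * (if q = a then 1 else 0) -
          β * (if q = b then 1 else 0) - γ * (if q = c then 1 else 0))) • f q =
        σ • (f p - α • f a - β • f b - γ • f c) := by
      intro E _ _ f
      simp_rw [mul_smul, ← Finset.smul_sum, sub_smul, mul_smul]
      rw [Finset.sum_sub_distrib, Finset.sum_sub_distrib, Finset.sum_sub_distrib,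
        ← Finset.smul_sum, ← Finset.smul_sum, ← Finset.smul_sum]
      simp [ite_smul]
    set v : F → ℝ := fun q => σ * ((if q = p then 1 else 0) - α * (if q = a then 1 else 0) -
          β * (if q = b then 1 else 0) - γ * (if q = c then 1 else 0)) with hv
    have h0 : ∑ q, v q = 0 := by
      have := hsum (fun _ => (1 : ℝ))
      simp only [smul_eq_mul, mul_one] at this
      rw [hv, this, ← hs]; ring
    have h1 : ∑ q, v q • (q : ℂ) = 0 := by
      have := hsum (fun q => (q : ℂ))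
      rw [hv, this]
      simp only [Complex.real_smul]
      rw [hp]; ring
    have h2 := exch_min hw hm h0 h1 (by
      intro q hq
      by_contra hcon
      have e1 : q ≠ a := fun h => hcon (h ▸ hwa)
      have e2 : q ≠ b := fun h => hcon (h ▸ hwb)
      have e3 : q ≠ c := fun h => hcon (h ▸ hwc)
      have e4 : v q = σ * (if q = p then 1 else 0) := by
        rw [hv]; simp [e1, e2, e3]
      rw [e4] at hq
      split_ifs at hq with h
      · rw [mul_one] at hq
        rcases hσ with h5 | h5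
        · linarith
        · exact hcon (h ▸ h5)
      · simp at hq)
    have h3 := hsum (fun q => ‖(q : ℂ)‖ ^ 2)
    simp only [smul_eq_mul] at h3
    have h4 : ∑ q, v q * ‖(q : ℂ)‖ ^ 2 = σ * (‖(p : ℂ) - o‖ ^ 2 - r ^ 2) := by
      rw [← pow_comb ha hb hc hs hp]
      exact h3
    rwa [h4] at h2
  have hout : ∀ p ∈ F, r ≤ ‖p - o‖ := by
    intro p hp
    obtain ⟨α, β, γ, hs, hpe⟩ := bary (p := p) hD
    have := hex 1 ⟨p, hp⟩ α β γ hs hpe (Or.inl one_pos)
    rw [one_mul] at this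
    exact (sq_le_sq₀ hr0 (norm_nonneg _)).1 (by linarith)
  have hon : ∀ p : F, 0 < w p → ‖(p : ℂ) - o‖ = r := by
    intro p hp
    obtain ⟨α, β, γ, hs, hpe⟩ := bary (p := (p : ℂ)) hD
    have := hex (-1) p α β γ hs hpe (Or.inr hp)
    refine le_antisymm ((sq_le_sq₀ (norm_nonneg _) hr0).1 (by linarith)) (hout p p.2)
  -- the support
  have hsupp : ∀ p : F, 0 < w p → p = a ∨ p = b ∨ p = c := by
    intro p hp
    by_contra hcon
    push Not at hcon
    obtain ⟨n1, n2, n3⟩ := hcon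
    have m1 : (p : ℂ) ≠ a := fun h => n1 (Subtype.ext h)
    have m2 : (p : ℂ) ≠ b := fun h => n2 (Subtype.ext h)
    have m3 : (p : ℂ) ≠ c := fun h => n3 (Subtype.ext h)
    have := hGP o r {(p : ℂ), (a : ℂ), (b : ℂ), (c : ℂ)} (by
      intro z hz
      simp only [Finset.mem_insert, Finset.mem_singleton] at hz
      rcases hz with rfl | rfl | rfl | rfl
      · exact p.2
      · exact a.2
      · exact b.2
      · exact c.2) (by
      intro z hz
      simp only [Finset.mem_insert, Finset.mem_singleton] at hz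
      rcases hz with rfl | rfl | rfl | rfl
      · exact hon p hp
      · exact ha
      · exact hb
      · exact hc)
    rw [Finset.card_insert_of_notMem (by simp [m1, m2, m3]),
      Finset.card_insert_of_notMem (by simp [hab, hca.symm]),
      Finset.card_insert_of_notMem (by simp [hbc]), Finset.card_singleton] at this
    omega
  have hres : ∀ {E : Type} [AddCommGroup E] [Module ℝ E] (f : F → E),
      ∑ q, w q • f q = w a • f a + w b • f b + w c • f c := by
    intro E _ _ f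
    have h1 : ∑ q, w q • f q = ∑ q ∈ ({a, b, c} : Finset F), w q • f q := by
      symm
      refine Finset.sum_subset (Finset.subset_univ _) fun q _ hq => ?_
      have : w q = 0 := by
        refine le_antisymm (not_lt.1 fun h => hq ?_) (hw0 q)
        rcases hsupp q h with rfl | rfl | rfl <;> simp
      rw [this, zero_smul]
    have n1 : a ∉ ({b, c} : Finset F) := by
      simp only [Finset.mem_insert, Finset.mem_singleton, not_or]
      exact ⟨hba.symm, fun h => hca (by rw [h])⟩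
    have n2 : b ∉ ({c} : Finset F) := by
      simp only [Finset.mem_singleton]
      exact fun h => hbc (by rw [h])
    rw [h1, Finset.sum_insert n1, Finset.sum_insert n2, Finset.sum_singleton, add_assoc]
  refine ⟨a, a.2, b, b.2, c, c.2, o, r, hab, hbc, hca, ha, hb, hc, hout, ?_⟩
  refine mem_tri.2 ⟨w a, w b, w c, hwa.le, hwb.le, hwc.le, ?_, ?_⟩
  · have h1 := hres (fun _ => (1 : ℝ))
    simp only [smul_eq_mul, mul_one] at h1
    rw [hw.1.2] at h1
    exact h1.symm
  · have h1 := hres (fun q => (q : ℂ))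
    rw [hw.2] at h1
    simpa using h1

lemma half_convex (v : ℂ) (k : ℝ) : Convex ℝ {z : ℂ | ip z v ≤ k} := by
  intro x hx y hy s t hs ht hst
  have hx' : ip x v ≤ k := hx
  have hy' : ip y v ≤ k := hy
  change ip (s • x + t • y) v ≤ k
  have e : ip (s • x + t • y) v = s * ip x v + t * ip y v := by
    unfold ip; simp; ring
  rw [e]
  have : k = s * k + t * k := by rw [← add_mul, hst, one_mul]
  rw [this]
  exact add_le_add (mul_le_mul_of_nonneg_left hx' hs) (mul_le_mul_of_nonneg_left hy' ht)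

lemma half_convex' (v : ℂ) (k : ℝ) : Convex ℝ {z : ℂ | k ≤ ip z v} := by
  intro x hx y hy s t hs ht hst
  have hx' : k ≤ ip x v := hx
  have hy' : k ≤ ip y v := hy
  change k ≤ ip (s • x + t • y) v
  have e : ip (s • x + t • y) v = s * ip x v + t * ip y v := by
    unfold ip; simp; ring
  rw [e]
  have : k = s * k + t * k := by rw [← add_mul, hst, one_mul]
  rw [this]
  exact add_le_add (mul_le_mul_of_nonneg_left hx' hs) (mul_le_mul_of_nonneg_left hy' ht)

lemma del_disj {F : Finset ℂ} (hGP : GP F) {s s' : Finset ℂ} {o o' : ℂ} {r r' : ℝ} (hs : s ⊆ F)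
    (hs' : s' ⊆ F) (h3 : s.card = 3) (h3' : s'.card = 3) (hne : s ≠ s')
    (h1 : ∀ p ∈ s, ‖p - o‖ = r) (h1' : ∀ p ∈ s', ‖p - o'‖ = r')
    (h2 : ∀ p ∈ F, r ≤ ‖p - o‖) (h2' : ∀ p ∈ F, r' ≤ ‖p - o'‖) :
    volume (convexHull ℝ (s : Set ℂ) ∩ convexHull ℝ (s' : Set ℂ)) = 0 := by
  classical
  have n3 : s.Nonempty := Finset.card_pos.1 (by omega)
  have n3' : s'.Nonempty := Finset.card_pos.1 (by omega)
  have hr : 0 ≤ r := by
    obtain ⟨p, hp⟩ := n3
    rw [← h1 p hp]; exact norm_nonneg _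
  have hr' : 0 ≤ r' := by
    obtain ⟨p, hp⟩ := n3'
    rw [← h1' p hp]; exact norm_nonneg _
  set v : ℂ := 2 * (o' - o) with hv
  set k : ℝ := r ^ 2 - r' ^ 2 - (‖o‖ ^ 2 - ‖o'‖ ^ 2) with hk
  have c1 : convexHull ℝ (s : Set ℂ) ⊆ {z : ℂ | ip z v ≤ k} := by
    refine convexHull_min (fun p hp => ?_) (half_convex v k)
    have q1 := pow_diff p o o'
    rw [h1 p hp] at q1
    have q2 := h2' p (hs hp)
    have q3 : r' ^ 2 ≤ ‖p - o'‖ ^ 2 := by gcongr
    change ip p v ≤ k
    rw [hk]; linarith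
  have c2 : convexHull ℝ (s' : Set ℂ) ⊆ {z : ℂ | k ≤ ip z v} := by
    refine convexHull_min (fun p hp => ?_) (half_convex' v k)
    have q1 := pow_diff p o o'
    rw [h1' p hp] at q1
    have q2 := h2 p (hs' hp)
    have q3 : r ^ 2 ≤ ‖p - o‖ ^ 2 := by gcongr
    change k ≤ ip p v
    rw [hk]; linarith
  by_cases hv0 : v = 0
  · -- concentric circles
    have ho : o' = o := by
      rw [hv] at hv0
      rcases mul_eq_zero.1 hv0 with h | h
      · norm_num at h
      · exact sub_eq_zero.1 h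
    have hrr : r ≠ r' := by
      rintro rfl
      have h4 := hGP o r (s ∪ s') (Finset.union_subset hs hs') (by
        intro p hp
        rcases Finset.mem_union.1 hp with h | h
        · exact h1 p h
        · rw [← ho]; exact h1' p h)
      have e1 : s = s ∪ s' := Finset.eq_of_subset_of_card_le Finset.subset_union_left (by omega)
      have e2 : s' = s ∪ s' := Finset.eq_of_subset_of_card_le Finset.subset_union_right (by omega)
      exact hne (e1.trans e2.symm)
    exfalso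
    obtain ⟨p, hp⟩ := n3
    obtain ⟨p', hp'⟩ := n3'
    have q1 := h2 p' (hs' hp')
    have q2 := h2' p (hs hp)
    rw [ho, h1 p hp] at q2
    have q3 := h1' p' hp'
    rw [ho] at q3
    rw [q3] at q1
    exact hrr (le_antisymm q1 q2)
  · refine measure_mono_null ?_ (line_null hv0 k)
    rintro z ⟨hz1, hz2⟩
    exact le_antisymm (c1 hz1) (c2 hz2)

/-- Delaunay triangles -/
theorem delaunay {F : Finset ℂ} (hGP : GP F) : ∃ T : Finset (Finset ℂ),
    (∀ s ∈ T, s ⊆ F ∧ ∃ (a b c o : ℂ) (r : ℝ), (s : Set ℂ) = {a, b, c} ∧ ‖a - o‖ = r ∧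
      ‖b - o‖ = r ∧ ‖c - o‖ = r ∧ dd (b - a) (c - a) ≠ 0 ∧ ∀ p ∈ F, r ≤ ‖p - o‖) ∧
    (∀ s ∈ T, ∀ s' ∈ T, s ≠ s' →
      volume (convexHull ℝ (s : Set ℂ) ∩ convexHull ℝ (s' : Set ℂ)) = 0) ∧
    (∀ᵐ x : ℂ, x ∈ convexHull ℝ (F : Set ℂ) → ∃ s ∈ T, x ∈ convexHull ℝ (s : Set ℂ)) := by
  classical
  refine ⟨(F.powersetCard 3).filter fun s => ∃ (o : ℂ) (r : ℝ), (∀ p ∈ s, ‖p - o‖ = r) ∧
    ∀ p ∈ F, r ≤ ‖p - o‖, ?_, ?_, ?_⟩
  · intro s hs
    rw [Finset.mem_filter, Finset.mem_powersetCard] at hs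
    obtain ⟨⟨hsF, h3⟩, o, r, h1, h2⟩ := hs
    obtain ⟨a, b, c, hab, hac, hbc, rfl⟩ := Finset.card_eq_three.1 h3
    refine ⟨hsF, a, b, c, o, r, by push_cast; rfl, h1 a (by simp), h1 b (by simp),
      h1 c (by simp), ?_, h2⟩
    exact circ_D (h1 a (by simp)) (h1 b (by simp)) (h1 c (by simp)) hab hbc hac.symm
  · intro s hs s' hs' hne
    rw [Finset.mem_filter, Finset.mem_powersetCard] at hs hs'
    obtain ⟨⟨hsF, h3⟩, o, r, h1, h2⟩ := hs
    obtain ⟨⟨hsF', h3'⟩, o', r', h1', h2'⟩ := hs'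
    exact del_disj hGP hsF hsF' h3 h3' hne h1 h1' h2 h2'
  · have n1 : volume (F : Set ℂ) = 0 := F.finite_toSet.measure_zero _
    have n2 : ∀ p ∈ F, ∀ q ∈ F, p ≠ q → ∀ᵐ x : ℂ, dd (q - p) (x - p) ≠ 0 := by
      intro p _ q _ hpq
      rw [ae_iff]
      simpa using line_null' hpq
    have n3 : ∀ᵐ x : ℂ, ∀ p ∈ F, ∀ q ∈ F, p ≠ q → dd (q - p) (x - p) ≠ 0 := by
      rw [eventually_all_finset]
      intro p hp
      rw [eventually_all_finset]
      intro q hq
      by_cases h : p = q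
      · exact Eventually.of_forall fun x hcon => absurd h hcon
      · filter_upwards [n2 p hp q hq h] with x hx _ using hx
    have n4 : ∀ᵐ x : ℂ, x ∉ F := by
      rw [ae_iff]
      simpa using n1
    filter_upwards [n3, n4] with x h3 h4 hx
    obtain ⟨a, haF, b, hbF, c, hcF, o, r, hab, hbc, hca, ha, hb, hc, hout, hxh⟩ :=
      del_exists hGP hx h4 h3
    refine ⟨{a, b, c}, ?_, by push_cast; exact hxh⟩
    rw [Finset.mem_filter, Finset.mem_powersetCard]
    refine ⟨⟨?_, ?_⟩, o, r, ?_, hout⟩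
    · intro z hz
      simp only [Finset.mem_insert, Finset.mem_singleton] at hz
      rcases hz with rfl | rfl | rfl <;> assumption
    · rw [Finset.card_insert_of_notMem (by simp [hab, hca.symm]),
        Finset.card_insert_of_notMem (by simp [hbc]), Finset.card_singleton]
    · intro z hz
      simp only [Finset.mem_insert, Finset.mem_singleton] at hz
      rcases hz with rfl | rfl | rfl <;> assumption

end Pool.Agent.R224.MD
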