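import Pool.Agent.R224.MD.Up2

/-!
# Mean distance and inradius: transfer to `EuclideanSpace ℝ (Fin 2)`
-/

set_option autoImplicit false

open Set MeasureTheory Filter Topology Metric

noncomputable section

namespace Pool.Agent.R224.MD

/-- the plane -/
abbrev E2 : Type := EuclideanSpace ℝ (Fin 2)

/-- the functional, with the complement, in `ℂ` -/
def FC (Ω : Set ℂ) : ℝ :=
  ((volume.real Ω)⁻¹ * ∫ x in Ω, infDist x Ωᶜ) / sSup ((fun x => infDist x Ωᶜ) '' Ω)

/-- the functional in the plane -/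
def FE (Ω : Set E2) : ℝ :=
  (⨍ x in Ω, infDist x (frontier Ω)) / sSup ((fun x => infDist x (frontier Ω)) '' Ω)

lemma infDist_frontier {V : Type*} [NormedAddCommGroup V] [NormedSpace ℝ V]
    [FiniteDimensional ℝ V] {Ω : Set V} (hΩ : IsOpen Ω) (hu : Ω ≠ univ) {x : V} (hx : x ∈ Ω) :
    infDist x (frontier Ω) = infDist x Ωᶜ := by
  obtain ⟨y, hy, hxy⟩ := exists_mem_frontier_infDist_compl_eq_dist hx hu
  refine le_antisymm ?_ ?_
  · rw [hxy]; exact infDist_le_dist_of_mem hy
  · refine infDist_le_infDist_of_subset ?_ ⟨y, hy⟩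
    rw [hΩ.frontier_eq]
    exact fun z hz => hz.2

lemma ne_univ {V : Type*} [NormedAddCommGroup V] [NormedSpace ℝ V] [Nontrivial V] {Ω : Set V}
    (hb : Bornology.IsBounded Ω) : Ω ≠ univ := by
  rintro rfl
  exact NormedSpace.unbounded_univ ℝ V hb

/-- the isometry -/
def eI : ℂ ≃ₗᵢ[ℝ] E2 := Complex.orthonormalBasisOneI.repr

lemma FE_eq {Ω : Set ℂ} (hΩ : IsOpen Ω) (hb : Bornology.IsBounded Ω) : FE (eI '' Ω) = FC Ω := by
  have hopen : IsOpen (eI '' Ω) := eI.toHomeomorph.isOpenMap _ hΩ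
  have hbd : Bornology.IsBounded (eI '' Ω) := by
    exact eI.lipschitz.isBounded_image hb
  have hu := ne_univ hbd
  have h1 : ∀ x ∈ eI '' Ω, infDist x (frontier (eI '' Ω)) = infDist x (eI '' Ω)ᶜ :=
    fun x hx => infDist_frontier hopen hu hx
  have h2 : ∀ x : ℂ, infDist (eI x) (eI '' Ω)ᶜ = infDist x Ωᶜ := by
    intro x
    rw [← image_compl_eq eI.bijective]
    exact infDist_image eI.isometry
  have hemb : MeasurableEmbedding eI := eI.toHomeomorph.measurableEmbedding
  have hmp : MeasurePreserving eI := eI.measurePreserving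
  have h3 : ∫ x in eI '' Ω, infDist x (frontier (eI '' Ω)) = ∫ x in Ω, infDist x Ωᶜ := by
    rw [setIntegral_congr_fun hopen.measurableSet h1, hmp.setIntegral_image_emb hemb]
    refine setIntegral_congr_fun hΩ.measurableSet fun x _ => h2 x
  have h4 : volume.real (eI '' Ω) = volume.real Ω := by
    have := hmp.setIntegral_image_emb hemb (fun _ => (1 : ℝ)) Ω
    simpa using this
  have h5 : (fun x => infDist x (frontier (eI '' Ω))) '' (eI '' Ω) =
      (fun x => infDist x Ωᶜ) '' Ω := by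
    rw [image_image]
    refine image_congr fun x hx => ?_
    rw [h1 _ (mem_image_of_mem _ hx), h2]
  unfold FE FC
  rw [h5, setAverage_eq, h3, h4, smul_eq_mul]

lemma FC_le {Ω : Set ℂ} (hΩ : IsOpen Ω) (hb : Bornology.IsBounded Ω) (hne : Ω.Nonempty) :
    FC Ω ≤ c0 := by
  have hu : Ω ≠ univ := ne_univ hb
  have hbdd : BddAbove ((fun x => infDist x Ωᶜ) '' Ω) := by
    have h1 : IsCompact ((fun x => infDist x Ωᶜ) '' closure Ω) :=
      hb.isCompact_closure.image (continuous_infDist_pt _)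
    exact h1.bddAbove.mono (image_mono subset_closure)
  set ρ := sSup ((fun x => infDist x Ωᶜ) '' Ω) with hρ
  obtain ⟨x0, hx0⟩ := hne
  have hpos0 : 0 < infDist x0 Ωᶜ := by
    rw [← hΩ.isClosed_compl.notMem_iff_infDist_pos (nonempty_compl.2 hu)]
    exact fun h => h hx0
  have hρpos : 0 < ρ := lt_of_lt_of_le hpos0 (le_csSup hbdd ⟨x0, hx0, rfl⟩)
  have hle : ∀ x, infDist x Ωᶜ ≤ ρ := by
    intro x
    by_cases hx : x ∈ Ω
    · exact le_csSup hbdd ⟨x, hx, rfl⟩
    · rw [infDist_zero_of_mem (show x ∈ Ωᶜ from hx)]; exact hρpos.le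
  have h := up_gen hΩ hb hρpos.le hle
  have hV : 0 < volume.real Ω := by
    rw [measureReal_def]
    exact ENNReal.toReal_pos (hΩ.measure_pos volume ⟨x0, hx0⟩).ne' hb.measure_lt_top.ne
  unfold FC
  rw [div_le_iff₀ hρpos, inv_mul_le_iff₀ hV]
  linarith

lemma FE_le {Ω : Set E2} (hΩ : IsOpen Ω) (hb : Bornology.IsBounded Ω) (hne : Ω.Nonempty) :
    FE Ω ≤ c0 := by
  have h1 : eI '' (eI ⁻¹' Ω) = Ω := image_preimage_eq _ eI.surjective
  have h2 : IsOpen (eI ⁻¹' Ω) := hΩ.preimage eI.continuous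
  have h3 : Bornology.IsBounded (eI ⁻¹' Ω) := by
    have : eI ⁻¹' Ω = eI.symm '' Ω := by
      ext x
      constructor
      · intro hx
        exact ⟨eI x, hx, by simp⟩
      · rintro ⟨y, hy, rfl⟩
        simpa using hy
    rw [this]
    exact eI.symm.lipschitz.isBounded_image hb
  have h4 : (eI ⁻¹' Ω).Nonempty := hne.preimage eI.surjective
  rw [← h1, FE_eq h2 h3]
  exact FC_le h2 h3 h4

end Pool.Agent.R224.MD
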