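import Pool.Agent.R224.MD.Eu

/-!
# Mean distance and inradius: the lower bound (triangular lattice)
-/

set_option autoImplicit false

open Set MeasureTheory Filter Topology Metric

noncomputable section

namespace Pool.Agent.R224.MD

/-! ## Tilings -/

/-- if compact pieces cover a compact set and their areas add up to its area then integrals add -/
lemma int_tile {ι : Type*} (S : Finset ι) (t : ι → Set ℂ) {A : Set ℂ} {f : ℂ → ℝ}
    (hA : IsCompact A) (ht : ∀ i ∈ S, IsCompact (t i))
    (hcov : ∀ x ∈ A, ∃ i ∈ S, x ∈ t i) (hvol : ∑ i ∈ S, volume.real (t i) = volume.real A)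
    (hf : Continuous f) : ∫ x in A, f x = ∑ i ∈ S, ∫ x in t i, f x := by
  have hm : ∀ i ∈ S, MeasurableSet (t i) := fun i hi => (ht i hi).isClosed.measurableSet
  have hmA := hA.isClosed.measurableSet
  set h : ℂ → ℝ := fun x => ∑ i ∈ S, (t i).indicator (fun _ => (1 : ℝ)) x -
    A.indicator (fun _ => (1 : ℝ)) x with hh
  have i1 : ∀ i ∈ S, Integrable ((t i).indicator (fun _ => (1 : ℝ))) := fun i hi =>
    (integrable_indicator_iff (hm i hi)).2
      (continuous_const.continuousOn.integrableOn_compact (ht i hi))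
  have iA : Integrable (A.indicator (fun _ => (1 : ℝ))) :=
    (integrable_indicator_iff hmA).2 (continuous_const.continuousOn.integrableOn_compact hA)
  have hpos : ∀ x, 0 ≤ h x := by
    intro x
    rw [hh]
    simp only [sub_nonneg]
    by_cases hx : x ∈ A
    · obtain ⟨i, hi, hxi⟩ := hcov x hx
      rw [indicator_of_mem hx]
      have h1 : (1 : ℝ) = (t i).indicator (fun _ => (1 : ℝ)) x :=
        (indicator_of_mem hxi (fun _ => (1 : ℝ))).symm
      refine h1.le.trans ?_
      exact Finset.single_le_sum (f := fun j => (t j).indicator (fun _ => (1 : ℝ)) x)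
        (fun j _ => indicator_nonneg (fun _ _ => zero_le_one) x) hi
    · rw [indicator_of_notMem hx]
      exact Finset.sum_nonneg fun j _ => indicator_nonneg (fun _ _ => zero_le_one) x
  have hint : Integrable h := (integrable_finsetSum _ i1).sub iA
  have h0 : ∫ x, h x = 0 := by
    rw [hh, integral_sub (integrable_finsetSum _ i1) iA, integral_finsetSum _ i1,
      integral_indicator hmA]
    have : ∀ i ∈ S, ∫ x, (t i).indicator (fun _ => (1 : ℝ)) x = volume.real (t i) := by
      intro i hi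
      rw [integral_indicator (hm i hi)]; simp
    rw [Finset.sum_congr rfl this, hvol]
    simp
  have hae : h =ᵐ[volume] 0 := (integral_eq_zero_iff_of_nonneg hpos hint).1 h0
  have h1 : ∀ i ∈ S, ∫ x in t i, f x = ∫ x, (t i).indicator f x :=
    fun i hi => (integral_indicator (hm i hi)).symm
  have h2 : ∀ i ∈ S, Integrable ((t i).indicator f) := fun i hi =>
    (integrable_indicator_iff (hm i hi)).2 (hf.continuousOn.integrableOn_compact (ht i hi))
  rw [Finset.sum_congr rfl h1, ← integral_finsetSum _ h2, ← integral_indicator hmA]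
  refine integral_congr_ae ?_
  filter_upwards [hae] with x hx
  have h3 : ∑ i ∈ S, (t i).indicator (fun _ => (1 : ℝ)) x = A.indicator (fun _ => (1 : ℝ)) x := by
    have : h x = 0 := hx
    rw [hh] at this
    simp only at this
    linarith
  have h4 : ∀ B : Set ℂ, B.indicator f x = f x * B.indicator (fun _ => (1 : ℝ)) x := by
    intro B
    by_cases hB : x ∈ B
    · rw [indicator_of_mem hB, indicator_of_mem hB, mul_one]
    · rw [indicator_of_notMem hB, indicator_of_notMem hB, mul_zero]
  rw [h4 A, ← h3, Finset.mul_sum]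
  exact Finset.sum_congr rfl fun i _ => (h4 _).symm

/-- the integral for a right triangle, with equality -/
lemma tri_right_eq {V M O : ℂ} (h : ip (M - V) (O - M) = 0) (hp : 0 < ‖M - V‖)
    (hq : 0 < ‖O - M‖) :
    ∫ x in convexHull ℝ ({V, M, O} : Set ℂ), ‖x - V‖ =
      (‖M - V‖ * ‖O - M‖ * √(‖M - V‖ ^ 2 + ‖O - M‖ ^ 2) +
        ‖M - V‖ ^ 3 * Real.arsinh (‖O - M‖ / ‖M - V‖)) / 6 := by
  have hd : dd (M - V) (O - M) ^ 2 = (‖M - V‖ * ‖O - M‖) ^ 2 := by
    rw [← lag, h, ip_self, ip_self]; ring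
  have hd' : |dd (M - V) (O - M)| = ‖M - V‖ * ‖O - M‖ := by
    have := abs_eq_abs.2 (sq_eq_sq_iff_eq_or_eq_neg.1 hd)
    rwa [abs_of_nonneg (by positivity : (0 : ℝ) ≤ ‖M - V‖ * ‖O - M‖)] at this
  have h0 : dd (M - V) (O - M) ≠ 0 := by
    rw [← abs_pos, hd']; positivity
  rw [tri_eq', cov h0 Sd_closed.measurableSet, hd', ← int_perp h hp]
  congr 1
  refine setIntegral_congr_fun Sd_closed.measurableSet fun z _ => ?_
  simp only [Aff, add_sub_cancel_left]

/-- closed squares -/
def Bx (a b : ℝ) : Set ℂ := {z | a ≤ z.re ∧ z.re ≤ b ∧ a ≤ z.im ∧ z.im ≤ b}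

lemma Bx_closed (a b : ℝ) : IsClosed (Bx a b) := by
  refine (isClosed_le continuous_const Complex.continuous_re).inter
    ((isClosed_le Complex.continuous_re continuous_const).inter
      ((isClosed_le continuous_const Complex.continuous_im).inter
      (isClosed_le Complex.continuous_im continuous_const)))

lemma Bx_cpt (a b : ℝ) : IsCompact (Bx a b) := by
  refine (isCompact_closedBall (0 : ℂ) (2 * (|a| + |b|))).of_isClosed_subset (Bx_closed a b)
    fun z hz => ?_
  obtain ⟨h1, h2, h3, h4⟩ := hz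
  rw [mem_closedBall_zero_iff]
  have := Complex.norm_le_abs_re_add_abs_im z
  have e1 : |z.re| ≤ |a| + |b| := by
    rw [abs_le]
    constructor
    · linarith [neg_abs_le a, abs_nonneg b]
    · linarith [le_abs_self b, abs_nonneg a]
  have e2 : |z.im| ≤ |a| + |b| := by
    rw [abs_le]
    constructor
    · linarith [neg_abs_le a, abs_nonneg b]
    · linarith [le_abs_self b, abs_nonneg a]
  linarith

lemma int_Bx {g : ℂ → ℝ} (hg : Continuous g) {a b : ℝ} (hab : a ≤ b) :
    ∫ z in Bx a b, g z = ∫ s in a..b, ∫ t in a..b, g ⟨s, t⟩ := by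
  have hi : IntegrableOn g (Bx a b) := hg.continuousOn.integrableOn_compact (Bx_cpt a b)
  rw [← integral_indicator (Bx_closed a b).measurableSet,
    int_C ((integrable_indicator_iff (Bx_closed a b).measurableSet).2 hi),
    intervalIntegral.integral_of_le hab, ← integral_Icc_eq_integral_Ioc,
    ← integral_indicator measurableSet_Icc]
  refine integral_congr_ae (Eventually.of_forall fun s => ?_)
  by_cases h : s ∈ Icc a b
  · simp only [indicator_of_mem h]
    rw [intervalIntegral.integral_of_le hab, ← integral_Icc_eq_integral_Ioc,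
      ← integral_indicator measurableSet_Icc]
    refine integral_congr_ae (Eventually.of_forall fun t => ?_)
    by_cases ht : t ∈ Icc a b
    · simp only [indicator_of_mem ht]
      rw [indicator_of_mem (show (⟨s, t⟩ : ℂ) ∈ Bx a b from ⟨h.1, h.2, ht.1, ht.2⟩)]
    · simp only [indicator_of_notMem ht]
      rw [indicator_of_notMem (show (⟨s, t⟩ : ℂ) ∉ Bx a b from fun h' => ht ⟨h'.2.2.1, h'.2.2.2⟩)]
  · simp only [indicator_of_notMem h]
    have : ∀ t : ℝ, (Bx a b).indicator g ⟨s, t⟩ = 0 := by
      intro t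
      apply indicator_of_notMem
      rintro ⟨h1, h2, h3, h4⟩
      exact h ⟨h1, h2⟩
    simp_rw [this]
    simp

lemma vol_Bx {a b : ℝ} (hab : a ≤ b) : volume.real (Bx a b) = (b - a) ^ 2 := by
  have h4 := int_Bx (g := fun _ => 1) continuous_const hab
  simp only [intervalIntegral.integral_const, smul_eq_mul, mul_one,
    setIntegral_const] at h4
  rw [h4]; ring

/-- periodic functions on squares -/
lemma int_periodic {g : ℂ → ℝ} (hg : Continuous g) (h1 : ∀ s t : ℝ, g ⟨s + 1, t⟩ = g ⟨s, t⟩)
    (h2 : ∀ s t : ℝ, g ⟨s, t + 1⟩ = g ⟨s, t⟩) (n : ℕ) :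
    ∫ z in Bx 1 (1 + n), g z = n ^ 2 * ∫ z in Bx 0 1, g z := by
  have hn : (0 : ℝ) ≤ n := Nat.cast_nonneg n
  rw [int_Bx hg (by linarith), int_Bx hg zero_le_one]
  have hcont : ∀ s : ℝ, Continuous fun t : ℝ => g ⟨s, t⟩ := by
    intro s
    have : Continuous fun t : ℝ => (⟨s, t⟩ : ℂ) := by
      have e : (fun t : ℝ => (⟨s, t⟩ : ℂ)) = fun t : ℝ => (s : ℂ) + (t : ℂ) * Complex.I := by
        funext t
        apply Complex.ext <;> simp
      rw [e]; fun_prop
    exact hg.comp this
  have hin : ∀ s : ℝ, ∫ t in (1 : ℝ)..1 + n, g ⟨s, t⟩ = n * ∫ t in (0 : ℝ)..1, g ⟨s, t⟩ := by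
    intro s
    have hp : Function.Periodic (fun t : ℝ => g ⟨s, t⟩) 1 := fun t => h2 s t
    have h3 := hp.intervalIntegral_add_zsmul_eq (n : ℤ) 1
      (fun _ _ => (hcont s).intervalIntegrable _ _)
    have h4 := hp.intervalIntegral_add_eq 1 0
    rw [zero_add] at h4
    rw [h4] at h3
    simpa using h3
  simp_rw [hin]
  rw [intervalIntegral.integral_const_mul]
  have hG : Function.Periodic (fun s : ℝ => ∫ t in (0 : ℝ)..1, g ⟨s, t⟩) 1 := by
    intro s
    simp only [h1]
  have hGc : Continuous fun s : ℝ => ∫ t in (0 : ℝ)..1, g ⟨s, t⟩ := by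
    refine intervalIntegral.continuous_parametric_intervalIntegral_of_continuous' ?_ 0 1
    have e : (Function.uncurry fun (s t : ℝ) => g ⟨s, t⟩) =
        fun p : ℝ × ℝ => g ((p.1 : ℂ) + (p.2 : ℂ) * Complex.I) := by
      funext p
      simp only [Function.uncurry]
      congr 1
      apply Complex.ext <;> simp
    rw [e]; fun_prop
  have h3 := hG.intervalIntegral_add_zsmul_eq (n : ℤ) 1
      (fun _ _ => hGc.intervalIntegrable _ _)
  have h4 := hG.intervalIntegral_add_eq 1 0
  rw [zero_add] at h4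
  rw [h4] at h3
  have h5 : ∫ s in (1 : ℝ)..1 + n, ∫ t in (0 : ℝ)..1, g ⟨s, t⟩ =
      n * ∫ s in (0 : ℝ)..1, ∫ t in (0 : ℝ)..1, g ⟨s, t⟩ := by simpa using h3
  rw [h5]; ring

end Pool.Agent.R224.MD
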