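import Pool.Agent.R224.MD.Low

/-!
# Mean distance and inradius: the triangular lattice
-/

set_option autoImplicit false

open Set MeasureTheory Filter Topology Metric

noncomputable section

namespace Pool.Agent.R224.MD

/-- first lattice vector -/
def uu : ℂ := ⟨√3, 0⟩
/-- second lattice vector -/
def ww : ℂ := ⟨√3 / 2, 3 / 2⟩
/-- coordinates -/
def PP (s t : ℝ) : ℂ := (s : ℂ) * uu + (t : ℂ) * ww

/-- area of the cell -/
def DD : ℝ := √3 * (3 / 2)

lemma sq3 : √3 * √3 = (3 : ℝ) := Real.mul_self_sqrt (by norm_num)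

lemma DD_pos : 0 < DD := by unfold DD; positivity

lemma dd_uw : dd uu ww = DD := by
  unfold dd uu ww DD; simp

lemma Aff_PP (s t : ℝ) : Aff 0 uu ww ⟨s, t⟩ = PP s t := by
  unfold Aff PP; simp

lemma PP_sub (s t s' t' : ℝ) : PP s t - PP s' t' = PP (s - s') (t - t') := by
  unfold PP; push_cast; ring

lemma PP_dd (s t s' t' : ℝ) : dd (PP s t) (PP s' t') = (s * t' - t * s') * DD := by
  unfold dd PP uu ww DD
  simp
  ring

lemma PP_ip (s t s' t' : ℝ) :
    ip (PP s t) (PP s' t') = 3 * (s * s' + (s * t' + t * s') / 2 + t * t') := by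
  unfold ip PP uu ww
  simp
  linear_combination (s * s' + s * t' / 2 + t * s' / 2 + t * t' / 4) * sq3

lemma PP_norm (s t : ℝ) : ‖PP s t‖ ^ 2 = 3 * (s ^ 2 + s * t + t ^ 2) := by
  rw [← ip_self, PP_ip]; ring

lemma PP_le {s t s' t' : ℝ} (h : s ^ 2 + s * t + t ^ 2 ≤ s' ^ 2 + s' * t' + t' ^ 2) :
    ‖PP s t‖ ≤ ‖PP s' t'‖ := by
  apply nle
  rw [ip_self, ip_self, PP_norm, PP_norm]
  linarith

/-- the lattice -/
def Lam : Set ℂ := range fun p : ℤ × ℤ => PP p.1 p.2

lemma Lam_ne : Lam.Nonempty := ⟨_, (0, 0), rfl⟩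

/-- distance to the lattice -/
def GG (x : ℂ) : ℝ := infDist x Lam

lemma GG_cont : Continuous GG := continuous_infDist_pt _

lemma GG_nonneg (x : ℂ) : 0 ≤ GG x := infDist_nonneg

lemma GG_le (x : ℂ) (m n : ℤ) : GG x ≤ ‖x - PP m n‖ := by
  rw [← dist_eq_norm]
  exact infDist_le_dist_of_mem ⟨(m, n), rfl⟩

lemma le_GG {x : ℂ} {d : ℝ} (h : ∀ m n : ℤ, d ≤ ‖x - PP m n‖) : d ≤ GG x := by
  unfold GG
  rw [le_infDist Lam_ne]
  rintro _ ⟨⟨m, n⟩, rfl⟩
  rw [dist_eq_norm]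
  exact h m n

lemma GG_add (s t : ℝ) (m n : ℤ) : GG (PP (s + m) (t + n)) = GG (PP s t) := by
  apply le_antisymm
  · refine le_GG fun i j => ?_
    have := GG_le (PP (s + m) (t + n)) (i + m) (j + n)
    rw [PP_sub] at this ⊢
    push_cast at this
    convert this using 3 <;> ring
  · refine le_GG fun i j => ?_
    have := GG_le (PP s t) (i - m) (j - n)
    rw [PP_sub] at this ⊢
    push_cast at this
    convert this using 3 <;> ring

lemma GG_neg (s t : ℝ) : GG (PP (-s) (-t)) = GG (PP s t) := by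
  apply le_antisymm
  · refine le_GG fun i j => ?_
    have := GG_le (PP (-s) (-t)) (-i) (-j)
    rw [PP_sub] at this ⊢
    push_cast at this
    have e : ‖PP (-s - -i) (-t - -j)‖ = ‖PP (s - i) (t - j)‖ := by
      apply le_antisymm <;> exact PP_le (by ring_nf; rfl)
    rwa [e] at this
  · refine le_GG fun i j => ?_
    have := GG_le (PP s t) (-i) (-j)
    rw [PP_sub] at this ⊢
    push_cast at this
    have e : ‖PP (s - -i) (t - -j)‖ = ‖PP (-s - i) (-t - j)‖ := by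
      apply le_antisymm <;> exact PP_le (by ring_nf; rfl)
    rwa [e] at this

/-- the covering radius is at most `1` -/
lemma GG_le_one (s t : ℝ) : GG (PP s t) ≤ 1 := by
  -- fractional parts
  have key : ∀ s t : ℝ, 0 ≤ s → 0 ≤ t → s + t ≤ 1 → GG (PP s t) ≤ 1 := by
    intro s t hs ht hst
    by_contra hcon
    push Not at hcon
    have a1 := GG_le (PP s t) 0 0
    have a2 := GG_le (PP s t) 1 0
    have a3 := GG_le (PP s t) 0 1
    rw [PP_sub] at a1 a2 a3
    have b : ∀ {x y : ℝ}, 1 < ‖PP x y‖ → 1 < 3 * (x ^ 2 + x * y + y ^ 2) := by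
      intro x y h
      rw [← PP_norm]
      nlinarith
    have b1 := b (hcon.trans_le a1)
    have b2 := b (hcon.trans_le a2)
    have b3 := b (hcon.trans_le a3)
    push_cast at b1 b2 b3
    have c1 : 0 ≤ 1 - s - t := by linarith
    have d1 := mul_le_mul_of_nonneg_left b1.le c1
    have d2 := mul_le_mul_of_nonneg_left b2.le hs
    have d3 := mul_le_mul_of_nonneg_left b3.le ht
    have q : 0 ≤ (s - 1 / 3) ^ 2 + (s - 1 / 3) * (t - 1 / 3) + (t - 1 / 3) ^ 2 := by nlinarith [sq_nonneg (s - 1 / 3 + (t - 1 / 3)), sq_nonneg (s - 1 / 3), sq_nonneg (t - 1 / 3)]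
    by_cases h1 : 0 < 1 - s - t
    · have := mul_lt_mul_of_pos_left b1 h1
      nlinarith
    · by_cases h2 : 0 < s
      · have := mul_lt_mul_of_pos_left b2 h2
        nlinarith
      · have h3 : 0 < t := by linarith
        have := mul_lt_mul_of_pos_left b3 h3
        nlinarith
  have hs := Int.floor_add_fract s
  have ht := Int.floor_add_fract t
  have e : GG (PP s t) = GG (PP (Int.fract s) (Int.fract t)) := by
    rw [← GG_add (Int.fract s) (Int.fract t) ⌊s⌋ ⌊t⌋]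
    congr 2 <;> linarith
  rw [e]
  rcases le_total (Int.fract s + Int.fract t) 1 with h | h
  · exact key _ _ (Int.fract_nonneg s) (Int.fract_nonneg t) h
  · have h1 := key (1 - Int.fract s) (1 - Int.fract t) (by linarith [Int.fract_lt_one s])
      (by linarith [Int.fract_lt_one t]) (by linarith)
    have h2 := GG_add (-Int.fract s) (-Int.fract t) 1 1
    have h3 := GG_neg (Int.fract s) (Int.fract t)
    rw [← h3, ← h2]
    push_cast
    have e1 : -Int.fract s + 1 = 1 - Int.fract s := by ring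
    have e2 : -Int.fract t + 1 = 1 - Int.fract t := by ring
    rw [e1, e2]
    exact h1

/-- half planes -/
lemma vor {V M O p x : ℂ} (h1 : ‖M - V‖ ≤ ‖M - p‖) (h2 : ‖O - V‖ ≤ ‖O - p‖)
    (hx : x ∈ convexHull ℝ ({V, M, O} : Set ℂ)) : ‖x - V‖ ≤ ‖x - p‖ := by
  have key : ∀ z : ℂ, ‖z - V‖ ≤ ‖z - p‖ ↔ ip z (2 * (p - V)) ≤ -(‖V‖ ^ 2 - ‖p‖ ^ 2) := by
    intro z
    rw [← sq_le_sq₀ (norm_nonneg _) (norm_nonneg _)]
    have := pow_diff z V p
    constructor <;> intro h <;> linarith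
  rw [key]
  have hsub : ({V, M, O} : Set ℂ) ⊆ {z : ℂ | ip z (2 * (p - V)) ≤ -(‖V‖ ^ 2 - ‖p‖ ^ 2)} := by
    rintro z (rfl | rfl | rfl)
    · exact (key z).1 (by simp)
    · exact (key z).1 h1
    · exact (key z).1 h2
  exact convexHull_min hsub (half_convex _ _) hx

/-- the integral over one of the six pieces -/
def K6 : ℝ := (√3 / 4 + 3 * √3 / 8 * (Real.log 3 / 2)) / 6

lemma piece6 {v1 v2 : ℤ} {m1 m2 : ℝ}
    (h1 : (m1 - v1) ^ 2 + (m1 - v1) * (m2 - v2) + (m2 - v2) ^ 2 = 1 / 4)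
    (h2 : (1 / 3 - m1) ^ 2 + (1 / 3 - m1) * (1 / 3 - m2) + (1 / 3 - m2) ^ 2 = 1 / 12)
    (h3 : (1 / 3 - v1 : ℝ) ^ 2 + (1 / 3 - v1) * (1 / 3 - v2) + (1 / 3 - v2) ^ 2 = 1 / 3)
    (h4 : ∀ i j : ℤ, 1 / 4 ≤ (m1 - i) ^ 2 + (m1 - i) * (m2 - j) + (m2 - j) ^ 2)
    (h5 : (m1 - v1) * (1 / 3 - m1) + ((m1 - v1) * (1 / 3 - m2) + (m2 - v2) * (1 / 3 - m1)) / 2 +
      (m2 - v2) * (1 / 3 - m2) = 0) :
    K6 ≤ ∫ x in convexHull ℝ ({PP v1 v2, PP m1 m2, PP (1 / 3) (1 / 3)} : Set ℂ), GG x := by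
  have hn1 : ‖PP m1 m2 - PP v1 v2‖ = √3 / 2 := by
    refine (sq_eq_sq₀ (norm_nonneg _) (by positivity)).1 ?_
    rw [PP_sub, PP_norm, h1]
    have := sq3
    nlinarith
  have hn2 : ‖PP (1 / 3) (1 / 3) - PP m1 m2‖ = 1 / 2 := by
    refine (sq_eq_sq₀ (norm_nonneg _) (by positivity)).1 ?_
    rw [PP_sub, PP_norm, h2]
    norm_num
  have hperp : ip (PP m1 m2 - PP v1 v2) (PP (1 / 3) (1 / 3) - PP m1 m2) = 0 := by
    rw [PP_sub, PP_sub, PP_ip, h5, mul_zero]
  have h := tri_right_eq hperp (by rw [hn1]; positivity) (by rw [hn2]; positivity)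
  rw [hn1, hn2] at h
  have e1 : √((√3 / 2) ^ 2 + (1 / 2) ^ 2) = 1 := by
    have : (√3 / 2) ^ 2 + (1 / 2) ^ 2 = (1 : ℝ) := by
      have := sq3
      nlinarith
    rw [this, Real.sqrt_one]
  have e2 : Real.arsinh (1 / 2 / (√3 / 2)) = Real.log 3 / 2 := by
    have h6 : Real.log 3 / 2 = Real.log √3 := by
      rw [Real.log_sqrt (by norm_num)]
    rw [h6, ← Real.arsinh_sinh (Real.log √3), Real.sinh_log (by positivity)]
    congr 1
    have := sq3
    field_simp
    nlinarith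
  rw [e1, e2] at h
  have e3 : K6 = (√3 / 2 * (1 / 2) * 1 + (√3 / 2) ^ 3 * (Real.log 3 / 2)) / 6 := by
    unfold K6
    have : (√3 / 2) ^ 3 = 3 * √3 / 8 := by
      have h7 := sq3
      have : (√3 / 2) ^ 3 = √3 * √3 * √3 / 8 := by ring
      rw [this, h7]
    rw [this]; ring
  rw [e3, ← h]
  refine setIntegral_mono_on ((by fun_prop : Continuous fun x : ℂ =>
    ‖x - PP v1 v2‖).continuousOn.integrableOn_compact (tri_cpt _ _ _))
    (GG_cont.continuousOn.integrableOn_compact (tri_cpt _ _ _))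
    (tri_cpt _ _ _).isClosed.measurableSet fun x hx => ?_
  refine le_GG fun i j => vor ?_ ?_ hx
  · rw [PP_sub, PP_sub]
    apply PP_le
    rw [h1]
    exact h4 i j
  · rw [PP_sub, PP_sub]
    apply PP_le
    rw [h3]
    have hi : (0 : ℝ) ≤ (i : ℝ) ^ 2 + i * j + j ^ 2 - i - j := by
      have hZ : (0 : ℤ) ≤ i ^ 2 + i * j + j ^ 2 - i - j := by
        have t1 : ∀ k : ℤ, 0 ≤ k * k - k := by
          intro k
          rcases lt_trichotomy k 0 with hk | hk | hk
          · nlinarith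
          · rw [hk]; norm_num
          · nlinarith
        rcases le_total 0 (i * j) with hij | hij
        · nlinarith [t1 i, t1 j]
        · nlinarith [t1 (i + j)]
      exact_mod_cast hZ
    linarith

end Pool.Agent.R224.MD
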