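import Pool.Agent.R224.MD.Low2

/-!
# Mean distance and inradius: the extremal sequence and the supremum
-/

set_option autoImplicit false

open Set MeasureTheory Filter Topology Metric

noncomputable section

namespace Pool.Agent.R224.MD

lemma split2 {a b o M x : ℂ} (hM : M = (a + b) / 2) (hx : x ∈ convexHull ℝ ({a, b, o} : Set ℂ)) :
    x ∈ convexHull ℝ ({a, M, o} : Set ℂ) ∨ x ∈ convexHull ℝ ({b, M, o} : Set ℂ) := by
  obtain ⟨u, v, w, hu, hv, hw, h, rfl⟩ := mem_tri.1 hx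
  rcases le_total v u with huv | huv
  · left
    refine mem_tri.2 ⟨u - v, 2 * v, w, by linarith, by linarith, hw,
      by linarith, ?_⟩
    rw [hM]; push_cast; ring
  · right
    refine mem_tri.2 ⟨v - u, 2 * u, w, by linarith, by linarith, hw,
      by linarith, ?_⟩
    rw [hM]; push_cast; ring

lemma quad_int {X Y : ℤ} (h : X ≠ 0 ∨ Y ≠ 0) : (1 : ℝ) ≤ (X : ℝ) ^ 2 + X * Y + Y ^ 2 := by
  have hZ : (1 : ℤ) ≤ X ^ 2 + X * Y + Y ^ 2 := by
    have h0 : 0 < X ^ 2 + X * Y + Y ^ 2 := by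
      by_contra hcon
      push Not at hcon
      have h1 : X ^ 2 ≤ 0 := by nlinarith [sq_nonneg (X + Y), sq_nonneg X, sq_nonneg Y]
      have h2 : Y ^ 2 ≤ 0 := by nlinarith [sq_nonneg (X + Y), sq_nonneg X, sq_nonneg Y]
      have h3 : X = 0 := by
        have := le_antisymm h1 (sq_nonneg X)
        exact pow_eq_zero_iff (two_ne_zero) |>.1 this
      have h4 : Y = 0 := by
        have := le_antisymm h2 (sq_nonneg Y)
        exact pow_eq_zero_iff (two_ne_zero) |>.1 this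
      rcases h with h | h
      · exact h h3
      · exact h h4
    omega
  exact_mod_cast hZ

lemma six_K6 : 6 * K6 = DD / 2 * c0 := by
  unfold K6 DD c0 kk
  ring

/-- integral over the fundamental triangle -/
lemma int_T0 : DD / 2 * c0 ≤
    ∫ x in convexHull ℝ ({PP 0 0, PP 1 0, PP 0 1} : Set ℂ), GG x := by
  have f1 : ∀ i j : ℤ, (1 : ℝ) / 4 ≤ (1 / 2 - i) ^ 2 + (1 / 2 - i) * (0 - j) + (0 - j) ^ 2 := by
    intro i j
    have := quad_int (X := 1 - 2 * i) (Y := -2 * j) (Or.inl (by omega))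
    push_cast at this
    nlinarith
  have f2 : ∀ i j : ℤ, (1 : ℝ) / 4 ≤ (1 / 2 - i) ^ 2 + (1 / 2 - i) * (1 / 2 - j) +
      (1 / 2 - j) ^ 2 := by
    intro i j
    have := quad_int (X := 1 - 2 * i) (Y := 1 - 2 * j) (Or.inl (by omega))
    push_cast at this
    nlinarith
  have f3 : ∀ i j : ℤ, (1 : ℝ) / 4 ≤ (0 - i) ^ 2 + (0 - i) * (1 / 2 - j) + (1 / 2 - j) ^ 2 := by
    intro i j
    have := quad_int (X := -2 * i) (Y := 1 - 2 * j) (Or.inr (by omega))
    push_cast at this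
    nlinarith
  have p1 := piece6 (v1 := 0) (v2 := 0) (m1 := 1 / 2) (m2 := 0) (by norm_num) (by norm_num)
    (by norm_num) f1 (by norm_num)
  have p2 := piece6 (v1 := 1) (v2 := 0) (m1 := 1 / 2) (m2 := 0) (by norm_num) (by norm_num)
    (by norm_num) f1 (by norm_num)
  have p3 := piece6 (v1 := 1) (v2 := 0) (m1 := 1 / 2) (m2 := 1 / 2) (by norm_num) (by norm_num)
    (by norm_num) f2 (by norm_num)
  have p4 := piece6 (v1 := 0) (v2 := 1) (m1 := 1 / 2) (m2 := 1 / 2) (by norm_num) (by norm_num)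
    (by norm_num) f2 (by norm_num)
  have p5 := piece6 (v1 := 0) (v2 := 1) (m1 := 0) (m2 := 1 / 2) (by norm_num) (by norm_num)
    (by norm_num) f3 (by norm_num)
  have p6 := piece6 (v1 := 0) (v2 := 0) (m1 := 0) (m2 := 1 / 2) (by norm_num) (by norm_num)
    (by norm_num) f3 (by norm_num)
  simp only [Int.cast_zero, Int.cast_one] at p1 p2 p3 p4 p5 p6
  have hv : ∀ v1 v2 m1 m2 : ℝ, (m1 - v1) * (1 / 3 - v2) - (m2 - v2) * (1 / 3 - v1) = 1 / 6 ∨
      (m1 - v1) * (1 / 3 - v2) - (m2 - v2) * (1 / 3 - v1) = -(1 / 6) →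
      volume.real (convexHull ℝ ({PP v1 v2, PP m1 m2, PP (1 / 3) (1 / 3)} : Set ℂ)) = DD / 12 := by
    intro v1 v2 m1 m2 h
    have e : |dd (PP m1 m2 - PP v1 v2) (PP (1 / 3) (1 / 3) - PP v1 v2)| = DD / 6 := by
      rw [PP_sub, PP_sub, PP_dd]
      rcases h with h | h
      · rw [h, abs_of_nonneg (by have := DD_pos; positivity)]; ring
      · rw [h, neg_mul, abs_neg, abs_of_nonneg (by have := DD_pos; positivity)]; ring
    have e' : dd (PP m1 m2 - PP v1 v2) (PP (1 / 3) (1 / 3) - PP v1 v2) ≠ 0 := by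
      rw [← abs_pos, e]; have := DD_pos; positivity
    rw [vol_tri e', e]; ring
  have hA : volume.real (convexHull ℝ ({PP 0 0, PP 1 0, PP 0 1} : Set ℂ)) = DD / 2 := by
    have e : dd (PP 1 0 - PP 0 0) (PP 0 1 - PP 0 0) = DD := by
      rw [PP_sub, PP_sub, PP_dd]; ring
    rw [vol_tri (by rw [e]; exact DD_pos.ne'), e, abs_of_pos DD_pos]
  have ho : PP (1 / 3) (1 / 3) ∈ convexHull ℝ ({PP 0 0, PP 1 0, PP 0 1} : Set ℂ) := by
    refine mem_tri.2 ⟨1 / 3, 1 / 3, 1 / 3, by norm_num, by norm_num, by norm_num, by norm_num, ?_⟩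
    unfold PP; push_cast; ring
  have htile := int_tile (Finset.univ : Finset (Fin 6))
    ![convexHull ℝ ({PP 0 0, PP (1 / 2) 0, PP (1 / 3) (1 / 3)} : Set ℂ),
      convexHull ℝ ({PP 1 0, PP (1 / 2) 0, PP (1 / 3) (1 / 3)} : Set ℂ),
      convexHull ℝ ({PP 1 0, PP (1 / 2) (1 / 2), PP (1 / 3) (1 / 3)} : Set ℂ),
      convexHull ℝ ({PP 0 1, PP (1 / 2) (1 / 2), PP (1 / 3) (1 / 3)} : Set ℂ),
      convexHull ℝ ({PP 0 1, PP 0 (1 / 2), PP (1 / 3) (1 / 3)} : Set ℂ),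
      convexHull ℝ ({PP 0 0, PP 0 (1 / 2), PP (1 / 3) (1 / 3)} : Set ℂ)]
    (A := convexHull ℝ ({PP 0 0, PP 1 0, PP 0 1} : Set ℂ)) (f := GG) (tri_cpt _ _ _)
    (by intro i _; fin_cases i
        · exact tri_cpt _ _ _
        · exact tri_cpt _ _ _
        · exact tri_cpt _ _ _
        · exact tri_cpt _ _ _
        · exact tri_cpt _ _ _
        · exact tri_cpt _ _ _)
    (by
      intro x hx
      have e1 : PP (1 / 2) 0 = (PP 0 0 + PP 1 0) / 2 := by unfold PP; push_cast; ring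
      have e2 : PP (1 / 2) (1 / 2) = (PP 1 0 + PP 0 1) / 2 := by unfold PP; push_cast; ring
      have e3 : PP 0 (1 / 2) = (PP 0 1 + PP 0 0) / 2 := by unfold PP; push_cast; ring
      rcases cover3 ho hx with h | h | h
      · rcases split2 e2 h with h | h
        · exact ⟨2, Finset.mem_univ _, h⟩
        · exact ⟨3, Finset.mem_univ _, h⟩
      · rcases split2 e3 h with h | h
        · exact ⟨4, Finset.mem_univ _, h⟩
        · exact ⟨5, Finset.mem_univ _, h⟩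
      · rcases split2 e1 h with h | h
        · exact ⟨0, Finset.mem_univ _, h⟩
        · exact ⟨1, Finset.mem_univ _, h⟩)
    (by
      rw [Fin.sum_univ_six, hA]
      change volume.real (convexHull ℝ ({PP 0 0, PP (1 / 2) 0, PP (1 / 3) (1 / 3)} : Set ℂ)) +
        volume.real (convexHull ℝ ({PP 1 0, PP (1 / 2) 0, PP (1 / 3) (1 / 3)} : Set ℂ)) +
        volume.real (convexHull ℝ ({PP 1 0, PP (1 / 2) (1 / 2), PP (1 / 3) (1 / 3)} : Set ℂ)) +
        volume.real (convexHull ℝ ({PP 0 1, PP (1 / 2) (1 / 2), PP (1 / 3) (1 / 3)} : Set ℂ)) +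
        volume.real (convexHull ℝ ({PP 0 1, PP 0 (1 / 2), PP (1 / 3) (1 / 3)} : Set ℂ)) +
        volume.real (convexHull ℝ ({PP 0 0, PP 0 (1 / 2), PP (1 / 3) (1 / 3)} : Set ℂ)) = DD / 2
      rw [hv 0 0 _ _ (by norm_num), hv 1 0 _ _ (by norm_num), hv 1 0 _ _ (by norm_num),
        hv 0 1 _ _ (by norm_num), hv 0 1 _ _ (by norm_num), hv 0 0 _ _ (by norm_num)]
      ring)
    GG_cont
  rw [Fin.sum_univ_six] at htile
  change _ = (∫ x in convexHull ℝ ({PP 0 0, PP (1 / 2) 0, PP (1 / 3) (1 / 3)} : Set ℂ), GG x) +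
    (∫ x in convexHull ℝ ({PP 1 0, PP (1 / 2) 0, PP (1 / 3) (1 / 3)} : Set ℂ), GG x) +
    (∫ x in convexHull ℝ ({PP 1 0, PP (1 / 2) (1 / 2), PP (1 / 3) (1 / 3)} : Set ℂ), GG x) +
    (∫ x in convexHull ℝ ({PP 0 1, PP (1 / 2) (1 / 2), PP (1 / 3) (1 / 3)} : Set ℂ), GG x) +
    (∫ x in convexHull ℝ ({PP 0 1, PP 0 (1 / 2), PP (1 / 3) (1 / 3)} : Set ℂ), GG x) +
    (∫ x in convexHull ℝ ({PP 0 0, PP 0 (1 / 2), PP (1 / 3) (1 / 3)} : Set ℂ), GG x) at htile
  rw [htile, ← six_K6]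
  linarith

/-- the distance function in lattice coordinates -/
def gg (z : ℂ) : ℝ := GG (Aff 0 uu ww z)

lemma gg_cont : Continuous gg := GG_cont.comp (Aff_cont _ _ _)

lemma gg_mk (s t : ℝ) : gg ⟨s, t⟩ = GG (PP s t) := by unfold gg; rw [Aff_PP]

lemma int_box : c0 ≤ ∫ z in Bx 0 1, gg z := by
  have h1 : c0 / 2 ≤ ∫ z in Si, gg z := by
    have h2 := int_T0
    have e0 : PP 0 0 = 0 := by unfold PP; simp
    have e1 : PP 1 0 = uu := by unfold PP; simp
    have e2 : PP 0 1 = ww := by unfold PP; simp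
    rw [e0, e1, e2, tri_eq, sub_zero, sub_zero, cov (by rw [dd_uw]; exact DD_pos.ne')
      Si_closed.measurableSet, dd_uw, abs_of_pos DD_pos] at h2
    have h3 : DD * (c0 / 2) ≤ DD * ∫ z in Si, gg z := by
      unfold gg; linarith
    exact le_of_mul_le_mul_left h3 DD_pos
  have hdd : |dd (-1) (-Complex.I)| = 1 := by unfold dd; simp
  have hdd0 : dd (-1) (-Complex.I) ≠ 0 := by rw [← abs_pos, hdd]; exact one_pos
  have htile := int_tile (Finset.univ : Finset (Fin 2))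
    ![Si, Aff (1 + Complex.I) (-1) (-Complex.I) '' Si] (A := Bx 0 1) (f := gg) (Bx_cpt 0 1)
    (by intro i _; fin_cases i
        · exact Si_cpt
        · exact Si_cpt.image (Aff_cont _ _ _))
    (by
      rintro z ⟨z1, z2, z3, z4⟩
      rcases le_total (z.re + z.im) 1 with h | h
      · exact ⟨0, Finset.mem_univ _, z1, z3, h⟩
      · refine ⟨1, Finset.mem_univ _, ⟨1 - z.re, 1 - z.im⟩, ⟨by simp; linarith, by simp; linarith,
          by simp; linarith⟩, ?_⟩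
        unfold Aff
        apply Complex.ext <;> simp)
    (by
      rw [Fin.sum_univ_two]
      change volume.real Si + volume.real (Aff (1 + Complex.I) (-1) (-Complex.I) '' Si) = _
      rw [vol_img hdd0 Si_closed.measurableSet, hdd, vol_Si, vol_Bx zero_le_one]
      norm_num)
    gg_cont
  rw [Fin.sum_univ_two] at htile
  change _ = (∫ x in Si, gg x) + ∫ x in Aff (1 + Complex.I) (-1) (-Complex.I) '' Si, gg x at htile
  rw [cov hdd0 Si_closed.measurableSet, hdd, one_mul] at htile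
  have e : ∀ z : ℂ, gg (Aff (1 + Complex.I) (-1) (-Complex.I) z) = gg z := by
    intro z
    have e1 : Aff (1 + Complex.I) (-1) (-Complex.I) z = ⟨-z.re + (1 : ℤ), -z.im + (1 : ℤ)⟩ := by
      unfold Aff
      apply Complex.ext <;> simp <;> ring
    rw [e1, gg_mk, GG_add, GG_neg]
    unfold gg
    rw [← Aff_PP]
  simp_rw [e] at htile
  rw [htile]
  linarith

lemma int_box_n (n : ℕ) : n ^ 2 * c0 ≤ ∫ z in Bx 1 (1 + n), gg z := by
  rw [int_periodic gg_cont (fun s t => ?_) (fun s t => ?_) n]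
  · exact mul_le_mul_of_nonneg_left int_box (by positivity)
  · rw [gg_mk, gg_mk]
    have := GG_add s t 1 0
    simpa using this
  · rw [gg_mk, gg_mk]
    have := GG_add s t 0 1
    simpa using this

/-- inverse of the coordinate map -/
def Ai (x : ℂ) : ℂ := ⟨dd x ww / DD, dd uu x / DD⟩

lemma Ai_cont : Continuous Ai := by
  have e : Ai = fun x : ℂ => ((dd x ww / DD : ℝ) : ℂ) + ((dd uu x / DD : ℝ) : ℂ) * Complex.I := by
    funext x
    unfold Ai
    apply Complex.ext <;> simp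
  rw [e]
  unfold dd
  fun_prop

lemma Aff_Ai (x : ℂ) : Aff 0 uu ww (Ai x) = x := by
  have h1 : (DD : ℂ) ≠ 0 := by exact_mod_cast DD_pos.ne'
  have key : (DD : ℂ) * x = (dd x ww : ℂ) * uu + (dd uu x : ℂ) * ww := by
    rw [← dd_uw]
    unfold dd
    apply Complex.ext <;> simp <;> ring
  unfold Aff Ai
  push_cast
  field_simp
  linear_combination -key

lemma Ai_Aff (z : ℂ) : Ai (Aff 0 uu ww z) = z := by
  apply Aff_inj (V := 0) (u := uu) (w := ww) (by rw [dd_uw]; exact DD_pos.ne')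
  exact Aff_Ai _

/-- lattice points in coordinates -/
def Zl : Set ℂ := {z | z.re ∈ range ((↑) : ℤ → ℝ) ∧ z.im ∈ range ((↑) : ℤ → ℝ)}

lemma Zl_closed : IsClosed Zl := by
  have h1 : IsClosed (range ((↑) : ℤ → ℝ)) := Int.isClosedEmbedding_coe_real.isClosed_range
  exact (h1.preimage Complex.continuous_re).inter (h1.preimage Complex.continuous_im)

/-- the punctured parallelograms -/
def Om (n : ℕ) : Set ℂ := Ai ⁻¹' ({z | 0 < z.re ∧ z.re < n + 2 ∧ 0 < z.im ∧ z.im < n + 2} ∩ Zlᶜ)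

lemma mem_Om {n : ℕ} {x : ℂ} : x ∈ Om n ↔ Ai x ∈ ({z : ℂ | 0 < z.re ∧ z.re < n + 2 ∧ 0 < z.im ∧
    z.im < n + 2} ∩ Zlᶜ : Set ℂ) := Iff.rfl

lemma Om_open (n : ℕ) : IsOpen (Om n) := by
  refine IsOpen.preimage Ai_cont (IsOpen.inter ?_ Zl_closed.isOpen_compl)
  exact (isOpen_lt continuous_const Complex.continuous_re).inter
    ((isOpen_lt Complex.continuous_re continuous_const).inter
    ((isOpen_lt continuous_const Complex.continuous_im).inter
    (isOpen_lt Complex.continuous_im continuous_const)))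

lemma Om_sub (n : ℕ) : Om n ⊆ Aff 0 uu ww '' Bx 0 (n + 2) := by
  rintro x ⟨⟨h1, h2, h3, h4⟩, -⟩
  exact ⟨Ai x, ⟨h1.le, h2.le, h3.le, h4.le⟩, Aff_Ai x⟩

lemma Om_bdd (n : ℕ) : Bornology.IsBounded (Om n) :=
  ((Bx_cpt 0 (n + 2)).image (Aff_cont _ _ _)).isBounded.subset (Om_sub n)

lemma Om_ne (n : ℕ) : (Om n).Nonempty := by
  refine ⟨Aff 0 uu ww ⟨1 / 2, 1 / 2⟩, ?_⟩
  rw [mem_Om, Ai_Aff]
  refine ⟨⟨by norm_num, ?_, by norm_num, ?_⟩, ?_⟩
  · change (1 / 2 : ℝ) < n + 2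
    have : (0 : ℝ) ≤ n := Nat.cast_nonneg n
    linarith
  · change (1 / 2 : ℝ) < n + 2
    have : (0 : ℝ) ≤ n := Nat.cast_nonneg n
    linarith
  · rintro ⟨⟨k, hk⟩, -⟩
    have h1 : (k : ℝ) = 1 / 2 := hk
    have h2 : (2 * k : ℝ) = 1 := by linarith
    have h3 : 2 * k = 1 := by exact_mod_cast h2
    omega

lemma Lam_Om (n : ℕ) : Lam ⊆ (Om n)ᶜ := by
  rintro _ ⟨⟨i, j⟩, rfl⟩ hmem
  obtain ⟨-, h⟩ := hmem
  apply h
  change Ai (PP i j) ∈ Zl
  rw [← Aff_PP, Ai_Aff]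
  exact ⟨⟨i, rfl⟩, ⟨j, rfl⟩⟩

lemma PP_far {s t : ℝ} (h : 1 ≤ |s| ∨ 1 ≤ |t|) : 1 ≤ ‖PP s t‖ := by
  have h1 : 1 ≤ ‖PP s t‖ ^ 2 := by
    rw [PP_norm]
    rcases h with h | h
    · have h2 : 1 ≤ s ^ 2 := by rw [← sq_abs]; nlinarith
      nlinarith [sq_nonneg (s + 2 * t)]
    · have h2 : 1 ≤ t ^ 2 := by rw [← sq_abs]; nlinarith
      nlinarith [sq_nonneg (2 * s + t)]
  nlinarith [norm_nonneg (PP s t)]

lemma Om_dist (n : ℕ) {z : ℂ} (hz : z ∈ Bx 1 (1 + n)) :
    GG (Aff 0 uu ww z) ≤ infDist (Aff 0 uu ww z) (Om n)ᶜ := by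
  obtain ⟨z1, z2, z3, z4⟩ := hz
  rw [le_infDist (Lam_ne.mono (Lam_Om n))]
  intro y hy
  have hz' : Aff 0 uu ww z = PP z.re z.im := by rw [← Aff_PP]
  by_cases hyZ : Ai y ∈ Zl
  · obtain ⟨⟨i, hi⟩, ⟨j, hj⟩⟩ := hyZ
    have : y = PP i j := by
      rw [← Aff_PP, hi, hj]
      exact (Aff_Ai y).symm
    rw [this, dist_eq_norm]
    exact GG_le _ i j
  · have h1 : GG (Aff 0 uu ww z) ≤ 1 := by rw [hz']; exact GG_le_one _ _
    refine h1.trans ?_
    have h2 : ¬ (0 < (Ai y).re ∧ (Ai y).re < n + 2 ∧ 0 < (Ai y).im ∧ (Ai y).im < n + 2) :=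
      fun h => hy ⟨h, hyZ⟩
    have h3 : y = PP (Ai y).re (Ai y).im := by
      rw [← Aff_PP]
      exact (Aff_Ai y).symm
    rw [dist_eq_norm, hz', h3, PP_sub]
    apply PP_far
    by_contra hcon
    push Not at hcon
    rw [abs_lt, abs_lt] at hcon
    apply h2
    refine ⟨?_, ?_, ?_, ?_⟩ <;> linarith [hcon.1.1, hcon.1.2, hcon.2.1, hcon.2.2]

lemma FC_Om (n : ℕ) : c0 * (n / (n + 2)) ^ 2 ≤ FC (Om n) := by
  have hn : (0 : ℝ) ≤ n := Nat.cast_nonneg n
  have hdd : |dd uu ww| = DD := by rw [dd_uw, abs_of_pos DD_pos]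
  have hdd0 : dd uu ww ≠ 0 := by rw [dd_uw]; exact DD_pos.ne'
  have hu := ne_univ (Om_bdd n)
  -- volume
  have hV : volume.real (Om n) ≤ DD * (n + 2) ^ 2 := by
    have h1 := measureReal_mono (Om_sub n)
      (((Bx_cpt 0 ((n : ℝ) + 2)).image (Aff_cont 0 uu ww)).measure_lt_top (μ := volume)).ne
    rw [vol_img hdd0 (Bx_closed _ _).measurableSet, hdd, vol_Bx (by linarith)] at h1
    simpa using h1
  have hVpos : 0 < volume.real (Om n) := by
    rw [measureReal_def]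
    exact ENNReal.toReal_pos ((Om_open n).measure_pos volume (Om_ne n)).ne'
      (Om_bdd n).measure_lt_top.ne
  -- integral
  have hI : DD * (n ^ 2 * c0) ≤ ∫ x in Om n, infDist x (Om n)ᶜ := by
    have h1 : DD * (n ^ 2 * c0) ≤ ∫ x in Aff 0 uu ww '' Bx 1 (1 + n), GG x := by
      rw [cov hdd0 (Bx_closed _ _).measurableSet, hdd]
      exact mul_le_mul_of_nonneg_left (int_box_n n) DD_pos.le
    refine h1.trans ?_
    have hc : IsCompact (Aff 0 uu ww '' Bx 1 (1 + n)) := (Bx_cpt _ _).image (Aff_cont _ _ _)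
    rw [← integral_indicator hc.isClosed.measurableSet,
      ← integral_indicator (Om_open n).measurableSet]
    refine integral_mono_of_nonneg (Eventually.of_forall fun x =>
      indicator_nonneg (fun x _ => GG_nonneg x) x) ?_ (Eventually.of_forall fun x => ?_)
    · rw [integrable_indicator_iff (Om_open n).measurableSet]
      have h2 : IntegrableOn (fun x => infDist x (Om n)ᶜ) (closure (Om n)) :=
        (continuous_infDist_pt _).continuousOn.integrableOn_compact (Om_bdd n).isCompact_closure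
      exact h2.mono_set subset_closure
    · change (Aff 0 uu ww '' Bx 1 (1 + n)).indicator GG x ≤
        (Om n).indicator (fun x => infDist x (Om n)ᶜ) x
      have h0 : 0 ≤ (Om n).indicator (fun x => infDist x (Om n)ᶜ) x :=
        indicator_nonneg (fun x _ => infDist_nonneg) x
      by_cases hx : x ∈ Aff 0 uu ww '' Bx 1 (1 + n)
      · rw [indicator_of_mem hx]
        obtain ⟨z, hz, rfl⟩ := hx
        by_cases hzZ : z ∈ Zl
        · obtain ⟨⟨i, hi⟩, ⟨j, hj⟩⟩ := hzZ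
          have h2 : GG (Aff 0 uu ww z) ≤ 0 := by
            have h3 := GG_le (Aff 0 uu ww z) i j
            have h4 : Aff 0 uu ww z = PP i j := by
              rw [hi, hj, ← Aff_PP]
            rw [h4, sub_self, norm_zero] at h3
            rw [h4]; exact h3
          exact h2.trans h0
        · have h2 : Aff 0 uu ww z ∈ Om n := by
            rw [mem_Om, Ai_Aff]
            obtain ⟨z1, z2, z3, z4⟩ := hz
            refine ⟨⟨?_, ?_, ?_, ?_⟩, hzZ⟩ <;> linarith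
          rw [indicator_of_mem h2]
          exact Om_dist n hz
      · rw [indicator_of_notMem hx]
        exact h0
  -- inradius
  have hle1 : ∀ y ∈ (fun x => infDist x (Om n)ᶜ) '' Om n, y ≤ 1 := by
    rintro _ ⟨x, _, rfl⟩
    change infDist x (Om n)ᶜ ≤ 1
    refine (infDist_le_infDist_of_subset (Lam_Om n) Lam_ne).trans ?_
    have h1 : x = PP (Ai x).re (Ai x).im := by
      rw [← Aff_PP]; exact (Aff_Ai x).symm
    rw [h1]
    exact GG_le_one _ _
  obtain ⟨x0, hx0⟩ := Om_ne n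
  have hpos0 : 0 < infDist x0 (Om n)ᶜ := by
    rw [← (Om_open n).isClosed_compl.notMem_iff_infDist_pos (nonempty_compl.2 hu)]
    exact fun h => h hx0
  have hbdd : BddAbove ((fun x => infDist x (Om n)ᶜ) '' Om n) := ⟨1, hle1⟩
  have hρpos : 0 < sSup ((fun x => infDist x (Om n)ᶜ) '' Om n) :=
    lt_of_lt_of_le hpos0 (le_csSup hbdd ⟨x0, hx0, rfl⟩)
  have hρ1 : sSup ((fun x => infDist x (Om n)ᶜ) '' Om n) ≤ 1 :=
    csSup_le ⟨_, x0, hx0, rfl⟩ hle1
  unfold FC
  have hc0 := c0_pos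
  have hDD := DD_pos
  rw [le_div_iff₀ hρpos]
  have h5 : c0 * (n / (n + 2)) ^ 2 ≤ (volume.real (Om n))⁻¹ * ∫ x in Om n, infDist x (Om n)ᶜ := by
    rw [le_inv_mul_iff₀ hVpos]
    have h6 : volume.real (Om n) * (c0 * (n / (n + 2)) ^ 2) ≤
        DD * (n + 2) ^ 2 * (c0 * (n / (n + 2)) ^ 2) :=
      mul_le_mul_of_nonneg_right hV (by positivity)
    have h7 : DD * (n + 2) ^ 2 * (c0 * (n / (n + 2)) ^ 2) = DD * (n ^ 2 * c0) := by
      field_simp
    linarith
  have h8 : c0 * (n / (n + 2)) ^ 2 * sSup ((fun x => infDist x (Om n)ᶜ) '' Om n) ≤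
      c0 * (n / (n + 2)) ^ 2 * 1 := mul_le_mul_of_nonneg_left hρ1 (by positivity)
  linarith

theorem final : IsLUB {t : ℝ | ∃ Ω : Set E2, IsOpen Ω ∧ Bornology.IsBounded Ω ∧ Ω.Nonempty ∧
    t = FE Ω} c0 := by
  constructor
  · rintro _ ⟨Ω, h1, h2, h3, rfl⟩
    exact FE_le h1 h2 h3
  · intro b hb
    have h1 : ∀ n : ℕ, c0 * ((n : ℝ) / (n + 2)) ^ 2 ≤ b := by
      intro n
      refine (FC_Om n).trans ?_
      rw [← FE_eq (Om_open n) (Om_bdd n)]
      refine hb ⟨eI '' Om n, eI.toHomeomorph.isOpenMap _ (Om_open n),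
        eI.lipschitz.isBounded_image (Om_bdd n), (Om_ne n).image _, rfl⟩
    have h2 : Tendsto (fun n : ℕ => ((n : ℝ) / (n + 2))) atTop (𝓝 1) := by
      have h3 : Tendsto (fun n : ℕ => (2 : ℝ) / ((n : ℝ) + 2)) atTop (𝓝 0) := by
        refine Tendsto.div_atTop tendsto_const_nhds ?_
        exact tendsto_atTop_add_const_right _ _ tendsto_natCast_atTop_atTop
      have h4 : (fun n : ℕ => ((n : ℝ) / (n + 2))) = fun n : ℕ => 1 - (2 : ℝ) / ((n : ℝ) + 2) := by
        funext n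
        have : ((n : ℝ) + 2) ≠ 0 := by positivity
        field_simp
        ring
      rw [h4]
      simpa using (tendsto_const_nhds (x := (1 : ℝ))).sub h3
    have h3 : Tendsto (fun n : ℕ => c0 * ((n : ℝ) / (n + 2)) ^ 2) atTop (𝓝 (c0 * 1 ^ 2)) :=
      (h2.pow 2).const_mul c0
    rw [one_pow, mul_one] at h3
    exact le_of_tendsto' h3 h1

end Pool.Agent.R224.MD
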