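import Mathlib

/-!
# Mean distance and inradius: the one variable function

`Sf x = -k sin x cos x + cos^3 x arsinh (tan x) / 3`, `k = log 3 / 4`; the inequality
`Sf a + Sf b + Sf c ≤ 0` for `a + b + c = π / 2`.
-/

set_option autoImplicit false

open Set Real

noncomputable section

namespace Pool.Agent.R224.MD

/-! ## Taylor bounds -/

lemma mono_of {f f' : ℝ → ℝ} (h : ∀ x, HasDerivAt f (f' x) x) (h0 : f 0 = 0)
    (hp : ∀ x, 0 ≤ x → 0 ≤ f' x) {x : ℝ} (hx : 0 ≤ x) : 0 ≤ f x := by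
  have h1 : MonotoneOn f (Ici 0) := by
    refine monotoneOn_of_deriv_nonneg (convex_Ici 0)
      (fun x _ => (h x).continuousAt.continuousWithinAt)
      (fun x _ => (h x).differentiableAt.differentiableWithinAt) fun x hx => ?_
    rw [(h x).deriv]
    rw [interior_Ici] at hx
    exact hp x (le_of_lt hx)
  have := h1 (mem_Ici.2 le_rfl) (mem_Ici.2 hx) hx
  rwa [h0] at this

lemma cos_l2 {x : ℝ} (hx : 0 ≤ x) : 0 ≤ cos x - (1 - x ^ 2 / 2) := by
  refine mono_of (f := fun x => cos x - (1 - x ^ 2 / 2)) (f' := fun x => x - sin x) (fun x => ?_)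
    (by simp) (fun x hx => sub_nonneg.2 (sin_le hx)) hx
  have := (hasDerivAt_cos x).sub (((hasDerivAt_id x).pow 2).div_const 2 |>.const_sub 1)
  exact this.congr_deriv (by simp; ring)

lemma sin_l3 {x : ℝ} (hx : 0 ≤ x) : 0 ≤ sin x - (x - x ^ 3 / 6) := by
  refine mono_of (f := fun x => sin x - (x - x ^ 3 / 6)) (f' := fun x => cos x - (1 - x ^ 2 / 2))
    (fun x => ?_) (by simp) (fun x hx => cos_l2 hx) hx
  have := (hasDerivAt_sin x).sub ((hasDerivAt_id x).sub (((hasDerivAt_id x).pow 3).div_const 6))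
  exact this.congr_deriv (by simp; ring)

lemma cos_u4 {x : ℝ} (hx : 0 ≤ x) : 0 ≤ (1 - x ^ 2 / 2 + x ^ 4 / 24) - cos x := by
  refine mono_of (f := fun x => (1 - x ^ 2 / 2 + x ^ 4 / 24) - cos x)
    (f' := fun x => sin x - (x - x ^ 3 / 6))
    (fun x => ?_) (by simp) (fun x hx => sin_l3 hx) hx
  have := (((((hasDerivAt_id x).pow 2).div_const 2).const_sub 1).add
    (((hasDerivAt_id x).pow 4).div_const 24)).sub (hasDerivAt_cos x)
  exact this.congr_deriv (by simp; ring)

lemma sin_u5 {x : ℝ} (hx : 0 ≤ x) : 0 ≤ (x - x ^ 3 / 6 + x ^ 5 / 120) - sin x := by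
  refine mono_of (f := fun x => (x - x ^ 3 / 6 + x ^ 5 / 120) - sin x)
    (f' := fun x => (1 - x ^ 2 / 2 + x ^ 4 / 24) - cos x)
    (fun x => ?_) (by simp) (fun x hx => cos_u4 hx) hx
  have := (((hasDerivAt_id x).sub (((hasDerivAt_id x).pow 3).div_const 6)).add
    (((hasDerivAt_id x).pow 5).div_const 120)).sub (hasDerivAt_sin x)
  exact this.congr_deriv (by simp; ring)

lemma cos_l6 {x : ℝ} (hx : 0 ≤ x) : 0 ≤ cos x - (1 - x ^ 2 / 2 + x ^ 4 / 24 - x ^ 6 / 720) := by
  refine mono_of (f := fun x => cos x - (1 - x ^ 2 / 2 + x ^ 4 / 24 - x ^ 6 / 720))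
    (f' := fun x => (x - x ^ 3 / 6 + x ^ 5 / 120) - sin x)
    (fun x => ?_) (by simp) (fun x hx => sin_u5 hx) hx
  have := (hasDerivAt_cos x).sub ((((((hasDerivAt_id x).pow 2).div_const 2).const_sub 1).add
    (((hasDerivAt_id x).pow 4).div_const 24)).sub (((hasDerivAt_id x).pow 6).div_const 720))
  exact this.congr_deriv (by simp; ring)

lemma sin_l7 {x : ℝ} (hx : 0 ≤ x) : 0 ≤ sin x - (x - x ^ 3 / 6 + x ^ 5 / 120 - x ^ 7 / 5040) := by
  refine mono_of (f := fun x => sin x - (x - x ^ 3 / 6 + x ^ 5 / 120 - x ^ 7 / 5040))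
    (f' := fun x => cos x - (1 - x ^ 2 / 2 + x ^ 4 / 24 - x ^ 6 / 720))
    (fun x => ?_) (by simp) (fun x hx => cos_l6 hx) hx
  have := (hasDerivAt_sin x).sub (((((hasDerivAt_id x).sub
    (((hasDerivAt_id x).pow 3).div_const 6)).add (((hasDerivAt_id x).pow 5).div_const 120))).sub
    (((hasDerivAt_id x).pow 7).div_const 5040))
  exact this.congr_deriv (by simp; ring)

lemma cos_u8 {x : ℝ} (hx : 0 ≤ x) :
    0 ≤ (1 - x ^ 2 / 2 + x ^ 4 / 24 - x ^ 6 / 720 + x ^ 8 / 40320) - cos x := by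
  refine mono_of (f := fun x => (1 - x ^ 2 / 2 + x ^ 4 / 24 - x ^ 6 / 720 + x ^ 8 / 40320) - cos x)
    (f' := fun x => sin x - (x - x ^ 3 / 6 + x ^ 5 / 120 - x ^ 7 / 5040))
    (fun x => ?_) (by simp) (fun x hx => sin_l7 hx) hx
  have := (((((((hasDerivAt_id x).pow 2).div_const 2).const_sub 1).add
    (((hasDerivAt_id x).pow 4).div_const 24)).sub (((hasDerivAt_id x).pow 6).div_const 720)).add
    (((hasDerivAt_id x).pow 8).div_const 40320)).sub (hasDerivAt_cos x)
  exact this.congr_deriv (by simp; ring)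

lemma log3_lo : (1.09857 : ℝ) < log 3 := by
  have h1 : (84 : ℝ) * log 2 < 53 * log 3 := by
    rw [← log_rpow two_pos, ← log_rpow three_pos]
    apply log_lt_log (by positivity)
    norm_num
  have := log_two_gt_d9
  linarith

lemma log3_hi : log 3 < (1.0989 : ℝ) := by
  have h1 : (41 : ℝ) * log 3 < 65 * log 2 := by
    rw [← log_rpow two_pos, ← log_rpow three_pos]
    apply log_lt_log (by positivity)
    norm_num
  have := log_two_lt_d9
  linarith

/-! ## The function -/

/-- `log 3 / 4` -/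
def kk : ℝ := log 3 / 4

lemma kk_lo : 0.27464 < kk := by unfold kk; have := log3_lo; linarith
lemma kk_hi : kk < 0.274725 := by unfold kk; have := log3_hi; linarith

/-- the Gudermannian inverse -/
def Lf (x : ℝ) : ℝ := arsinh (tan x)

/-- the function -/
def Sf (x : ℝ) : ℝ := -kk * (sin x * cos x) + cos x ^ 3 * Lf x / 3

/-- its derivative -/
def S1 (x : ℝ) : ℝ := -kk * (cos x ^ 2 - sin x ^ 2) + cos x ^ 2 / 3 - cos x ^ 2 * sin x * Lf x

/-- its second derivative -/
def S2 (x : ℝ) : ℝ := (2 * kk - 5 / 6) * (2 * sin x * cos x) - cos x * (1 - 3 * sin x ^ 2) * Lf x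

lemma Lf_deriv {x : ℝ} (hx : 0 < cos x) : HasDerivAt Lf (1 / cos x) x := by
  have h1 := (hasDerivAt_arsinh (tan x)).comp x (hasDerivAt_tan hx.ne')
  have h2 : √(1 + tan x ^ 2) = 1 / cos x := by
    rw [tan_eq_sin_div_cos]
    have : 1 + (sin x / cos x) ^ 2 = (1 / cos x) ^ 2 := by
      field_simp
      exact cos_sq_add_sin_sq x
    rw [this, sqrt_sq (by positivity)]
  refine h1.congr_deriv ?_
  rw [h2]
  field_simp

lemma Sf_deriv {x : ℝ} (hx : 0 < cos x) : HasDerivAt Sf (S1 x) x := by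
  have h1 := (((hasDerivAt_sin x).mul (hasDerivAt_cos x)).const_mul (-kk)).add
    ((((hasDerivAt_cos x).pow 3).mul (Lf_deriv hx)).div_const 3)
  refine h1.congr_deriv ?_
  unfold S1
  simp only [Pi.pow_apply]
  field_simp
  ring

lemma S1_deriv {x : ℝ} (hx : 0 < cos x) : HasDerivAt S1 (S2 x) x := by
  have h1 := (((((hasDerivAt_cos x).pow 2).sub ((hasDerivAt_sin x).pow 2)).const_mul (-kk)).add
    (((hasDerivAt_cos x).pow 2).div_const 3)).sub
    (((((hasDerivAt_cos x).pow 2)).mul (hasDerivAt_sin x)).mul (Lf_deriv hx))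
  refine h1.congr_deriv ?_
  unfold S2
  simp only [Pi.pow_apply, Pi.mul_apply]
  field_simp
  have : cos x ^ 2 = 1 - sin x ^ 2 := by rw [← cos_sq_add_sin_sq x]; ring
  have e : cos x ^ 3 = cos x * (1 - sin x ^ 2) := by rw [← this]; ring
  simp only [pow_one, Nat.cast_ofNat, Nat.add_one_sub_one]
  ring_nf
  rw [e]
  ring

/-! ## Bounds -/

lemma Lf_eq {x : ℝ} (hx : 0 < cos x) : Lf x = log ((1 + sin x) / cos x) := by
  unfold Lf arsinh
  have h2 : √(1 + tan x ^ 2) = 1 / cos x := by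
    rw [tan_eq_sin_div_cos]
    have : 1 + (sin x / cos x) ^ 2 = (1 / cos x) ^ 2 := by
      field_simp
      exact cos_sq_add_sin_sq x
    rw [this, sqrt_sq (by positivity)]
  rw [h2, tan_eq_sin_div_cos]
  congr 1
  field_simp
  ring

lemma exp_lo {l : ℝ} (hl : 0 ≤ l) :
    1 + l + l ^ 2 / 2 + l ^ 3 / 6 + l ^ 4 / 24 + l ^ 5 / 120 + l ^ 6 / 720 ≤ exp l := by
  have := sum_le_exp_of_nonneg hl 7
  simp only [Finset.sum_range_succ, Finset.sum_range_zero, Nat.factorial] at this
  norm_num at this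
  linarith

lemma log_hi {y l : ℝ} (hy : 0 < y) (hl : 0 ≤ l)
    (h : y ≤ 1 + l + l ^ 2 / 2 + l ^ 3 / 6 + l ^ 4 / 24 + l ^ 5 / 120 + l ^ 6 / 720) :
    log y ≤ l := by
  rw [log_le_iff_le_exp hy]
  exact h.trans (exp_lo hl)

lemma Lf_hi {x s c l : ℝ} (hx0 : 0 ≤ sin x) (hc : 0 < c) (hcx : c ≤ cos x) (hs : sin x ≤ s)
    (hl : 0 ≤ l)
    (h : (1 + s) / c ≤ 1 + l + l ^ 2 / 2 + l ^ 3 / 6 + l ^ 4 / 24 + l ^ 5 / 120 + l ^ 6 / 720) :
    Lf x ≤ l := by
  have hc' : 0 < cos x := hc.trans_le hcx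
  rw [Lf_eq hc']
  refine log_hi (by positivity) hl (le_trans ?_ h)
  have h1 : 1 + sin x ≤ 1 + s := by linarith
  exact div_le_div₀ (by linarith) h1 hc hcx

lemma cpos {x : ℝ} (h0 : 0 ≤ x) (h1 : x < π / 2) : 0 < cos x :=
  cos_pos_of_mem_Ioo ⟨by linarith [pi_pos], h1⟩

lemma pi_lo : (3.14159 : ℝ) < π := by have := pi_gt_d6; linarith
lemma pi_hi : π < (3.1416 : ℝ) := by have := pi_lt_d6; linarith

lemma Lf_mono {x y : ℝ} (h0 : 0 ≤ x) (hxy : x ≤ y) (h1 : y < π / 2) : Lf x ≤ Lf y := by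
  unfold Lf
  apply arsinh_le_arsinh.2
  rcases eq_or_lt_of_le hxy with h | h
  · rw [h]
  · exact (tan_lt_tan_of_nonneg_of_lt_pi_div_two h0 h1 h).le

lemma Lf_zero : Lf 0 = 0 := by unfold Lf; simp

lemma Lf_nonneg {x : ℝ} (h0 : 0 ≤ x) (h1 : x < π / 2) : 0 ≤ Lf x := by
  rw [← Lf_zero]; exact Lf_mono le_rfl h0 h1

lemma s75 : sin (3 / 4) ≤ 0.68167 := by
  have := sin_u5 (x := 3 / 4) (by norm_num)
  norm_num at this ⊢
  linarith

lemma L75 : Lf (3 / 4) ≤ 0.8325 := by
  have h1 := cos_l6 (x := 3 / 4) (by norm_num)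
  have h2 := s75
  refine Lf_hi (s := 0.68167) (c := 0.7316) ?_ (by norm_num) ?_ h2 (by norm_num) (by norm_num)
  · exact sin_nonneg_of_nonneg_of_le_pi (by norm_num) (by linarith [pi_lo])
  · norm_num at h1 ⊢
    linarith

lemma S2_nonpos {x : ℝ} (h0 : 0 ≤ x) (h1 : x ≤ 3 / 4) : S2 x ≤ 0 := by
  have hp := pi_lo
  have hc := cpos h0 (by linarith)
  have hL0 := Lf_nonneg h0 (by linarith)
  have hL : Lf x ≤ 0.8325 := (Lf_mono h0 h1 (by linarith)).trans L75
  have hs0 : 0 ≤ sin x := sin_nonneg_of_nonneg_of_le_pi h0 (by linarith)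
  have hs : sin x ≤ 0.68167 := (sin_le_sin_of_le_of_le_pi_div_two (by linarith) (by linarith)
    h1).trans s75
  unfold S2
  have hk := kk_hi
  have h2 : (3 * sin x ^ 2 - 1) * Lf x ≤ (5 / 3 - 4 * kk) * sin x := by
    have h3 : 0.5677 * sin x ≤ (5 / 3 - 4 * kk) * sin x := by
      apply mul_le_mul_of_nonneg_right _ hs0; linarith
    refine le_trans ?_ h3
    rcases le_total (3 * sin x ^ 2) 1 with h | h
    · have : (3 * sin x ^ 2 - 1) * Lf x ≤ 0 := mul_nonpos_of_nonpos_of_nonneg (by linarith) hL0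
      nlinarith
    · have : (3 * sin x ^ 2 - 1) * Lf x ≤ (3 * sin x ^ 2 - 1) * 0.8325 :=
        mul_le_mul_of_nonneg_left hL (by linarith)
      nlinarith
  nlinarith

lemma S1_anti {x y : ℝ} (h0 : 0 ≤ x) (hxy : x ≤ y) (h1 : y ≤ 3 / 4) : S1 y ≤ S1 x := by
  have hp := pi_lo
  have : AntitoneOn S1 (Icc 0 (3 / 4)) := by
    refine antitoneOn_of_deriv_nonpos (convex_Icc _ _) ?_ ?_ ?_
    · intro z hz
      exact (S1_deriv (cpos hz.1 (by linarith [hz.2]))).continuousAt.continuousWithinAt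
    · intro z hz
      rw [interior_Icc] at hz
      exact (S1_deriv (cpos hz.1.le (by linarith [hz.2]))).differentiableAt.differentiableWithinAt
    · intro z hz
      rw [interior_Icc] at hz
      rw [(S1_deriv (cpos hz.1.le (by linarith [hz.2]))).deriv]
      exact S2_nonpos hz.1.le hz.2.le
  exact this ⟨h0, hxy.trans h1⟩ ⟨h0.trans hxy, h1⟩ hxy

lemma S1_zero : S1 0 = 1 / 3 - kk := by
  unfold S1; simp; ring

lemma Sf_zero : Sf 0 = 0 := by unfold Sf; simp [Lf_zero]

lemma Lf_six : Lf (π / 6) = log 3 / 2 := by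
  have h3 : (0 : ℝ) < √3 := by positivity
  have h33 : √3 ^ 2 = 3 := sq_sqrt (by norm_num)
  rw [Lf_eq (by rw [cos_pi_div_six]; positivity), sin_pi_div_six, cos_pi_div_six]
  have : (1 + 1 / 2) / (√3 / 2) = √3 := by
    field_simp
    nlinarith
  rw [this, log_sqrt (by norm_num)]

lemma Sf_six : Sf (π / 6) = 0 := by
  unfold Sf
  rw [Lf_six, sin_pi_div_six, cos_pi_div_six]
  have h33 : √3 ^ 2 = 3 := sq_sqrt (by norm_num)
  have h333 : √3 ^ 3 = 3 * √3 := by rw [pow_succ, h33]
  unfold kk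
  have : (√3 / 2) ^ 3 = 3 * √3 / 8 := by rw [div_pow, h333]; norm_num
  rw [this]
  ring

/-- the slope at `π / 6` -/
def lam : ℝ := 5 / 16 * log 3 - 1 / 4

lemma lam_pos : 0 < lam := by unfold lam; have := log3_lo; linarith
lemma lam_hi : lam < 0.093407 := by unfold lam; have := log3_hi; linarith

lemma S1_six : S1 (π / 6) = -lam := by
  unfold S1
  rw [Lf_six, sin_pi_div_six, cos_pi_div_six]
  have h33 : √3 ^ 2 = 3 := sq_sqrt (by norm_num)
  unfold kk lam
  have : (√3 / 2) ^ 2 = 3 / 4 := by rw [div_pow, h33]; norm_num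
  rw [this]
  ring

lemma Sf_tan {x : ℝ} (h0 : 0 ≤ x) (h1 : x ≤ 3 / 4) : Sf x ≤ lam * (π / 6 - x) := by
  have hp := pi_lo
  have hp2 := pi_hi
  have hD : ∀ z ∈ Icc (0 : ℝ) (3 / 4), HasDerivAt (fun x => Sf x - lam * (π / 6 - x))
      (S1 z + lam) z := by
    intro z hz
    have := (Sf_deriv (cpos hz.1 (by linarith [hz.2]))).sub
      (((hasDerivAt_id z).const_sub (π / 6)).const_mul lam)
    exact this.congr_deriv (by ring)
  have hD0 : (fun x => Sf x - lam * (π / 6 - x)) (π / 6) = 0 := by simp [Sf_six]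
  rcases le_total x (π / 6) with h | h
  · have : MonotoneOn (fun x => Sf x - lam * (π / 6 - x)) (Icc 0 (π / 6)) := by
      refine monotoneOn_of_deriv_nonneg (convex_Icc _ _) ?_ ?_ ?_
      · intro z hz
        exact (hD z ⟨hz.1, by linarith [hz.2]⟩).continuousAt.continuousWithinAt
      · intro z hz
        rw [interior_Icc] at hz
        exact (hD z ⟨hz.1.le, by linarith [hz.2]⟩).differentiableAt.differentiableWithinAt
      · intro z hz
        rw [interior_Icc] at hz
        rw [(hD z ⟨hz.1.le, by linarith [hz.2]⟩).deriv]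
        have := S1_anti hz.1.le hz.2.le (by linarith)
        rw [S1_six] at this
        linarith
    have h2 := this ⟨h0, h⟩ ⟨by linarith, le_rfl⟩ h
    rw [hD0] at h2
    simp only at h2
    linarith
  · have : AntitoneOn (fun x => Sf x - lam * (π / 6 - x)) (Icc (π / 6) (3 / 4)) := by
      refine antitoneOn_of_deriv_nonpos (convex_Icc _ _) ?_ ?_ ?_
      · intro z hz
        exact (hD z ⟨by linarith [hz.1], hz.2⟩).continuousAt.continuousWithinAt
      · intro z hz
        rw [interior_Icc] at hz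
        exact (hD z ⟨by linarith [hz.1], hz.2.le⟩).differentiableAt.differentiableWithinAt
      · intro z hz
        rw [interior_Icc] at hz
        rw [(hD z ⟨by linarith [hz.1], hz.2.le⟩).deriv]
        have := S1_anti (by linarith) hz.1.le hz.2.le
        rw [S1_six] at this
        linarith
    have h2 := this ⟨le_rfl, by linarith⟩ ⟨h, h1⟩ h
    rw [hD0] at h2
    simp only at h2
    linarith

lemma Sf_lin {x : ℝ} (h0 : 0 ≤ x) (h1 : x ≤ 3 / 4) : Sf x ≤ (1 / 3 - kk) * x := by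
  have hp := pi_lo
  have hD : ∀ z ∈ Icc (0 : ℝ) (3 / 4), HasDerivAt (fun x => Sf x - (1 / 3 - kk) * x)
      (S1 z - (1 / 3 - kk)) z := by
    intro z hz
    have := (Sf_deriv (cpos hz.1 (by linarith [hz.2]))).sub
      ((hasDerivAt_id z).const_mul (1 / 3 - kk))
    exact this.congr_deriv (by ring)
  have : AntitoneOn (fun x => Sf x - (1 / 3 - kk) * x) (Icc 0 (3 / 4)) := by
    refine antitoneOn_of_deriv_nonpos (convex_Icc _ _) ?_ ?_ ?_
    · intro z hz
      exact (hD z hz).continuousAt.continuousWithinAt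
    · intro z hz
      rw [interior_Icc] at hz
      exact (hD z ⟨hz.1.le, hz.2.le⟩).differentiableAt.differentiableWithinAt
    · intro z hz
      rw [interior_Icc] at hz
      rw [(hD z ⟨hz.1.le, hz.2.le⟩).deriv]
      have := S1_anti le_rfl hz.1.le hz.2.le
      rw [S1_zero] at this
      linarith
  have h2 := this ⟨le_rfl, by norm_num⟩ ⟨h0, h1⟩ h0
  simp only [Sf_zero] at h2
  linarith

/-- the bracket -/
def bf (x : ℝ) : ℝ := -kk * sin x + cos x ^ 2 * Lf x / 3

lemma Sf_bf (x : ℝ) : Sf x = cos x * bf x := by unfold Sf bf; ring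

lemma bf_deriv {x : ℝ} (hx : 0 < cos x) :
    HasDerivAt bf (cos x * (1 / 3 - kk - 2 / 3 * (sin x * Lf x))) x := by
  have h1 := ((hasDerivAt_sin x).const_mul (-kk)).add
    ((((hasDerivAt_cos x).pow 2).mul (Lf_deriv hx)).div_const 3)
  refine h1.congr_deriv ?_
  simp only [Pi.pow_apply]
  field_simp
  ring

lemma L_ge {x : ℝ} (h0 : 0 ≤ x) (h1 : x < π / 2) : x ≤ Lf x := by
  have : MonotoneOn (fun x => Lf x - x) (Ico 0 (π / 2)) := by
    refine monotoneOn_of_deriv_nonneg (convex_Ico _ _) ?_ ?_ ?_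
    · intro z hz
      exact ((Lf_deriv (cpos hz.1 hz.2)).continuousAt.sub continuousAt_id).continuousWithinAt
    · intro z hz
      rw [interior_Ico] at hz
      exact ((Lf_deriv (cpos hz.1.le hz.2)).differentiableAt.sub
        differentiableAt_id).differentiableWithinAt
    · intro z hz
      rw [interior_Ico] at hz
      have hc := cpos hz.1.le hz.2
      have hd : HasDerivAt (fun x => Lf x - x) (1 / cos z - 1) z :=
        (Lf_deriv hc).sub (hasDerivAt_id z)
      rw [hd.deriv]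
      have : 1 ≤ 1 / cos z := by
        rw [le_div_iff₀ hc]; linarith [cos_le_one z]
      linarith
  have h2 := this ⟨le_rfl, by linarith [pi_pos]⟩ ⟨h0, h1⟩ h0
  simp only [Lf_zero] at h2
  linarith

lemma bf_anti {x y : ℝ} (h0 : 3 / 4 ≤ x) (hxy : x ≤ y) (h1 : y ≤ 0.96) : bf y ≤ bf x := by
  have hp := pi_lo
  have : AntitoneOn bf (Icc (3 / 4) 0.96) := by
    refine antitoneOn_of_deriv_nonpos (convex_Icc _ _) ?_ ?_ ?_
    · intro z hz
      exact (bf_deriv (cpos (by linarith [hz.1]) (by linarith [hz.2]))).continuousAt.continuousWithinAt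
    · intro z hz
      rw [interior_Icc] at hz
      exact (bf_deriv (cpos (by linarith [hz.1])
        (by linarith [hz.2]))).differentiableAt.differentiableWithinAt
    · intro z hz
      rw [interior_Icc] at hz
      have hc := cpos (by linarith [hz.1] : 0 ≤ z) (by linarith [hz.2])
      rw [(bf_deriv hc).deriv]
      have h2 := L_ge (by linarith [hz.1] : 0 ≤ z) (by linarith [hz.2])
      have h3 := sin_l3 (by linarith [hz.1] : 0 ≤ z)
      have h4 : 0.6 ≤ sin z := by nlinarith [hz.1, hz.2, mul_pos (sub_pos.2 hz.1) (sub_pos.2 hz.2)]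
      have h5 : 0.6 * (3 / 4) ≤ sin z * Lf z :=
        mul_le_mul h4 (by linarith [hz.1]) (by norm_num) (by linarith)
      have h6 := kk_lo
      exact mul_nonpos_of_nonneg_of_nonpos hc.le (by linarith)
  exact this ⟨h0, hxy.trans h1⟩ ⟨h0.trans hxy, h1⟩ hxy

/-- one interval -/
lemma piece {u v su cu lu cv : ℝ} (h0 : 3 / 4 ≤ u) (huv : u ≤ v) (h1 : v ≤ 0.96)
    (hsu : su ≤ sin u) (hcu : cos u ≤ cu) (hlu : Lf u ≤ lu) (hcv : cv ≤ cos v) (hcv0 : 0 ≤ cv)
    (hneg : -0.27464 * su + cu ^ 2 * lu / 3 ≤ 0)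
    (hfin : cv * (-0.27464 * su + cu ^ 2 * lu / 3) + 0.093407 * (v - 0.52359) ≤ 0)
    (hsu0 : 0 ≤ su) {x : ℝ} (hx : x ∈ Icc u v) : Sf x ≤ lam * (π / 6 - x) := by
  have hp := pi_lo
  have hk := kk_lo
  have hcu0 : 0 < cos u := cpos (by linarith) (by linarith [hx.1, hx.2])
  have hL0 : 0 ≤ Lf u := Lf_nonneg (by linarith) (by linarith)
  have hb : bf u ≤ -0.27464 * su + cu ^ 2 * lu / 3 := by
    unfold bf
    have a1 : 0.27464 * su ≤ kk * sin u := mul_le_mul hk.le hsu hsu0 (by linarith)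
    have a2 : cos u ^ 2 * Lf u ≤ cu ^ 2 * lu :=
      mul_le_mul (pow_le_pow_left₀ hcu0.le hcu 2) hlu hL0 (by positivity)
    linarith
  have hbx : bf x ≤ -0.27464 * su + cu ^ 2 * lu / 3 := (bf_anti h0 hx.1 (hx.2.trans h1)).trans hb
  have hcx : cv ≤ cos x := hcv.trans (cos_le_cos_of_nonneg_of_le_pi (by linarith [hx.1])
    (by linarith) hx.2)
  have h3 : Sf x ≤ cv * (-0.27464 * su + cu ^ 2 * lu / 3) := by
    rw [Sf_bf]
    calc cos x * bf x ≤ cos x * (-0.27464 * su + cu ^ 2 * lu / 3) :=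
          mul_le_mul_of_nonneg_left hbx (hcv0.trans hcx)
      _ ≤ _ := mul_le_mul_of_nonpos_right hcx hneg
  have h4 : lam * (x - π / 6) ≤ 0.093407 * (v - 0.52359) := by
    have e1 : 0 ≤ x - π / 6 := by linarith [hx.1, pi_hi]
    have e2 : x - π / 6 ≤ v - 0.52359 := by linarith [hx.2]
    exact mul_le_mul lam_hi.le e2 e1 (by norm_num)
  linarith

lemma Sf_tan2 {x : ℝ} (h0 : 0 ≤ x) (h1 : x ≤ 0.96) : Sf x ≤ lam * (π / 6 - x) := by
  have hp := pi_lo
  rcases le_total x (3 / 4) with h | h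
  · exact Sf_tan h0 h
  have hs : ∀ u : ℝ, 0 ≤ u → u ≤ 0.96 → 0 ≤ sin u := fun u h0 h1 =>
    sin_nonneg_of_nonneg_of_le_pi h0 (by linarith)
  rcases le_total x 0.79 with h2 | h2
  · refine piece (u := 3 / 4) (v := 0.79) (su := 0.68163) (cu := 0.7317) (lu := 0.8325)
      (cv := 0.7038) (by norm_num) (by norm_num) (by norm_num) ?_ ?_ L75 ?_ (by norm_num)
      (by norm_num) (by norm_num) (by norm_num) ⟨h, h2⟩
    · have := sin_l7 (x := 3 / 4) (by norm_num); norm_num at this ⊢; linarith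
    · have := cos_u8 (x := 3 / 4) (by norm_num); norm_num at this ⊢; linarith
    · have := cos_l6 (x := 0.79) (by norm_num); norm_num at this ⊢; linarith
  rcases le_total x 0.84 with h3 | h3
  · refine piece (u := 0.79) (v := 0.84) (su := 0.7103) (cu := 0.7039) (lu := 0.8884)
      (cv := 0.6673) (by norm_num) (by norm_num) (by norm_num) ?_ ?_ ?_ ?_ (by norm_num)
      (by norm_num) (by norm_num) (by norm_num) ⟨h2, h3⟩
    · have := sin_l7 (x := 0.79) (by norm_num); norm_num at this ⊢; linarith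
    · have := cos_u8 (x := 0.79) (by norm_num); norm_num at this ⊢; linarith
    · refine Lf_hi (s := 0.7104) (c := 0.7038) (hs _ (by norm_num) (by norm_num)) (by norm_num)
        ?_ ?_ (by norm_num) (by norm_num)
      · have := cos_l6 (x := 0.79) (by norm_num); norm_num at this ⊢; linarith
      · have := sin_u5 (x := 0.79) (by norm_num); norm_num at this ⊢; linarith
    · have := cos_l6 (x := 0.84) (by norm_num); norm_num at this ⊢; linarith
  rcases le_total x 0.9 with h4 | h4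
  · refine piece (u := 0.84) (v := 0.9) (su := 0.7446) (cu := 0.6675) (lu := 0.9615)
      (cv := 0.6215) (by norm_num) (by norm_num) (by norm_num) ?_ ?_ ?_ ?_ (by norm_num)
      (by norm_num) (by norm_num) (by norm_num) ⟨h3, h4⟩
    · have := sin_l7 (x := 0.84) (by norm_num); norm_num at this ⊢; linarith
    · have := cos_u8 (x := 0.84) (by norm_num); norm_num at this ⊢; linarith
    · refine Lf_hi (s := 0.7448) (c := 0.6673) (hs _ (by norm_num) (by norm_num)) (by norm_num)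
        ?_ ?_ (by norm_num) (by norm_num)
      · have := cos_l6 (x := 0.84) (by norm_num); norm_num at this ⊢; linarith
      · have := sin_u5 (x := 0.84) (by norm_num); norm_num at this ⊢; linarith
    · have := cos_l6 (x := 0.9) (by norm_num); norm_num at this ⊢; linarith
  · refine piece (u := 0.9) (v := 0.96) (su := 0.7833) (cu := 0.6217) (lu := 1.055)
      (cv := 0.5734) (by norm_num) (by norm_num) (by norm_num) ?_ ?_ ?_ ?_ (by norm_num)
      (by norm_num) (by norm_num) (by norm_num) ⟨h4, h1⟩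
    · have := sin_l7 (x := 0.9) (by norm_num); norm_num at this ⊢; linarith
    · have := cos_u8 (x := 0.9) (by norm_num); norm_num at this ⊢; linarith
    · refine Lf_hi (s := 0.7835) (c := 0.6215) (hs _ (by norm_num) (by norm_num)) (by norm_num)
        ?_ ?_ (by norm_num) (by norm_num)
      · have := cos_l6 (x := 0.9) (by norm_num); norm_num at this ⊢; linarith
      · have := sin_u5 (x := 0.9) (by norm_num); norm_num at this ⊢; linarith
    · have := cos_l6 (x := 0.96) (by norm_num); norm_num at this ⊢; linarith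

/-- near `π / 2` -/
lemma Sf_far {x : ℝ} (h0 : 0.95 ≤ x) (h1 : x ≤ π / 2) :
    Sf x ≤ -((1 / 3 - kk) * (π / 2 - x)) := by
  rcases eq_or_lt_of_le h1 with h | h
  · rw [h]; unfold Sf; simp
  have hp := pi_hi
  have hp' := pi_lo
  obtain ⟨b, hb⟩ : ∃ b, b = π / 2 - x := ⟨_, rfl⟩
  have hb0 : 0 < b := by linarith
  have hb1 : b ≤ 0.621 := by linarith
  have hc : cos x = sin b := by rw [hb, sin_pi_div_two_sub]
  have hs : sin x = cos b := by rw [hb, cos_pi_div_two_sub]
  have hsb : 0 < sin b := sin_pos_of_pos_of_lt_pi hb0 (by linarith)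
  have hsb' : sin b ≤ b := sin_le hb0.le
  have hcb : 1 - b ^ 2 / 2 ≤ cos b := by have := cos_l2 hb0.le; linarith
  have hsl : b - b ^ 3 / 6 ≤ sin b := by have := sin_l3 hb0.le; linarith
  have hL : Lf x ≤ log (2 / sin b) := by
    rw [Lf_eq (by rw [hc]; exact hsb), hc, hs]
    apply log_le_log
    · have : 0 < cos b := lt_of_lt_of_le (by nlinarith) hcb
      positivity
    · gcongr
      linarith [cos_le_one b]
  -- `s^2 log (2 / s) ≤ 0.4516`
  have key : sin b ^ 2 * log (2 / sin b) ≤ 0.4516 := by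
    obtain ⟨y, hy⟩ : ∃ y, y = 2 / sin b := ⟨_, rfl⟩
    have hyl : 3.22 ≤ y := by
      rw [hy, le_div_iff₀ hsb]; nlinarith
    have hy0 : 0 < y := by linarith
    have hsy : sin b = 2 / y := by rw [hy]; field_simp
    have hlog0 : log 3.22 ≤ 1.17 := log_hi (by norm_num) (by norm_num) (by norm_num)
    have hlog : log y ≤ 1.17 + (y / 3.22 - 1) := by
      have h1 : log y = log 3.22 + log (y / 3.22) := by
        rw [← log_mul (by norm_num) (by positivity)]
        congr 1
        field_simp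
      have h2 := log_le_sub_one_of_pos (show 0 < y / 3.22 by positivity)
      linarith
    rw [← hy, hsy, div_pow]
    have h3 : 2 ^ 2 / y ^ 2 * log y ≤ 2 ^ 2 / y ^ 2 * (1.17 + (y / 3.22 - 1)) :=
      mul_le_mul_of_nonneg_left hlog (by positivity)
    refine h3.trans ?_
    rw [div_mul_eq_mul_div, div_le_iff₀ (by positivity)]
    have h4 : 0 ≤ (y - 3.22) * y := mul_nonneg (by linarith) hy0.le
    have h5 : y / 3.22 = y * (1 / 3.22) := by ring
    rw [h5]
    norm_num at h4 ⊢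
    nlinarith
  have hk := kk_lo
  have hk' := kk_hi
  have e1 : Sf x = sin b * (-kk * cos b + sin b ^ 2 * Lf x / 3) := by
    rw [Sf_bf, bf, hc, hs]
  have e2 : sin b ^ 2 * Lf x ≤ 0.4516 :=
    (mul_le_mul_of_nonneg_left hL (by positivity)).trans key
  have e3 : -kk * cos b + sin b ^ 2 * Lf x / 3 ≤ -0.0628 := by
    have : 0.27464 * (1 - 0.621 ^ 2 / 2) ≤ kk * cos b := by
      apply mul_le_mul hk.le _ (by norm_num) (by linarith)
      refine le_trans ?_ hcb
      nlinarith
    norm_num at this ⊢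
    linarith
  have e4 : (1 / 3 - kk) * b ≤ 0.0628 * sin b := by
    have h5 : (1 / 3 - kk) ≤ 0.0587 := by linarith
    have h6 : 0.0587 * b ≤ 0.0628 * sin b := by nlinarith [mul_pos hb0 hb0]
    have h7 : (1 / 3 - kk) * b ≤ 0.0587 * b := mul_le_mul_of_nonneg_right h5 hb0.le
    linarith
  rw [← hb, e1]
  have := mul_le_mul_of_nonneg_left e3 hsb.le
  linarith

/-- **The three variable inequality.** -/
theorem Sf_three {a b c : ℝ} (ha : 0 ≤ a) (hb : 0 ≤ b) (hc : 0 ≤ c) (h : a + b + c = π / 2) :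
    Sf a + Sf b + Sf c ≤ 0 := by
  have key : ∀ a b c : ℝ, 0 ≤ a → 0 ≤ b → 0 ≤ c → a + b + c = π / 2 → 0.95 ≤ c →
      Sf a + Sf b + Sf c ≤ 0 := by
    intro a b c ha hb hc h h1
    have hp := pi_hi
    have h2 := Sf_far h1 (by linarith)
    have h3 := Sf_lin ha (by linarith)
    have h4 := Sf_lin hb (by linarith)
    have : a + b = π / 2 - c := by linarith
    rw [← this] at h2
    linarith
  rcases le_total 0.95 c with h1 | h1
  · exact key a b c ha hb hc h h1
  rcases le_total 0.95 b with h2 | h2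
  · have := key a c b ha hc hb (by linarith) h2; linarith
  rcases le_total 0.95 a with h3 | h3
  · have := key b c a hb hc ha (by linarith) h3; linarith
  have k1 := Sf_tan2 ha (by linarith)
  have k2 := Sf_tan2 hb (by linarith)
  have k3 := Sf_tan2 hc (by linarith)
  have : lam * (π / 6 - a) + lam * (π / 6 - b) + lam * (π / 6 - c) = 0 := by
    rw [← mul_add, ← mul_add]
    have : π / 6 - a + (π / 6 - b) + (π / 6 - c) = 0 := by linarith
    rw [this, mul_zero]
  linarith

end Pool.Agent.R224.MD
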