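import Pool.Agent.R224.MD.Sf

/-!
# Mean distance and inradius: integrals over triangles
-/

set_option autoImplicit false

open Set MeasureTheory Filter Topology

noncomputable section

namespace Pool.Agent.R224.MD

/-! ## Affine maps of the plane -/

/-- affine map with columns `u`, `w` -/
def Aff (V u w z : ℂ) : ℂ := V + ((z.re : ℂ) * u + (z.im : ℂ) * w)

/-- its linear part -/
def Lin (u w : ℂ) : ℂ →L[ℝ] ℂ := Complex.reCLM.smulRight u + Complex.imCLM.smulRight w

lemma Lin_apply (u w z : ℂ) : Lin u w z = (z.re : ℂ) * u + (z.im : ℂ) * w := by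
  simp [Lin]

/-- determinant -/
def dd (u w : ℂ) : ℝ := u.re * w.im - u.im * w.re

lemma Lin_det (u w : ℂ) : (Lin u w).det = dd u w := by
  change LinearMap.det (Lin u w : ℂ →ₗ[ℝ] ℂ) = _
  rw [← LinearMap.det_toMatrix Complex.basisOneI, Matrix.det_fin_two]
  simp [LinearMap.toMatrix_apply, Lin_apply, dd]
  ring

lemma Aff_deriv (V u w z : ℂ) : HasFDerivAt (Aff V u w) (Lin u w) z := by
  have h : Aff V u w = fun z => V + Lin u w z := by
    funext z; rw [Lin_apply]; rfl
  rw [h]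
  exact (Lin u w).hasFDerivAt.const_add V

lemma Aff_cont (V u w : ℂ) : Continuous (Aff V u w) := by
  unfold Aff
  fun_prop

lemma Aff_inj {V u w : ℂ} (h : dd u w ≠ 0) : Function.Injective (Aff V u w) := by
  intro z z' hz
  unfold Aff at hz
  have h1 : (z.re - z'.re : ℝ) * u + (z.im - z'.im : ℝ) * w = 0 := by
    push_cast
    linear_combination hz
  have hre := congrArg Complex.re h1
  have him := congrArg Complex.im h1
  simp only [Complex.add_re, Complex.re_ofReal_mul, Complex.zero_re, Complex.add_im,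
    Complex.im_ofReal_mul, Complex.zero_im] at hre him
  have e1 : (z.re - z'.re) * dd u w = 0 := by unfold dd; linear_combination w.im * hre - w.re * him
  have e2 : (z.im - z'.im) * dd u w = 0 := by unfold dd; linear_combination u.re * him - u.im * hre
  have e3 := (mul_eq_zero.1 e1).resolve_right h
  have e4 := (mul_eq_zero.1 e2).resolve_right h
  exact Complex.ext (by linarith) (by linarith)

lemma cov {V u w : ℂ} (h : dd u w ≠ 0) {S : Set ℂ} (hS : MeasurableSet S) (g : ℂ → ℝ) :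
    ∫ x in Aff V u w '' S, g x = |dd u w| * ∫ z in S, g (Aff V u w z) := by
  rw [integral_image_eq_integral_abs_det_fderiv_smul volume hS
    (fun x _ => (Aff_deriv V u w x).hasFDerivWithinAt) (Aff_inj h).injOn]
  simp_rw [Lin_det, smul_eq_mul]
  rw [integral_const_mul]

lemma vol_img {V u w : ℂ} (h : dd u w ≠ 0) {S : Set ℂ} (hS : MeasurableSet S) :
    volume.real (Aff V u w '' S) = |dd u w| * volume.real S := by
  have h1 := cov (V := V) h hS (fun _ => 1)
  simpa using h1

/-! ## The simplices -/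

/-- standard simplex -/
def Si : Set ℂ := {z | 0 ≤ z.re ∧ 0 ≤ z.im ∧ z.re + z.im ≤ 1}

/-- another one -/
def Sd : Set ℂ := {z | 0 ≤ z.im ∧ z.im ≤ z.re ∧ z.re ≤ 1}

lemma Si_closed : IsClosed Si := by
  have h : Si = {z : ℂ | 0 ≤ z.re} ∩ ({z : ℂ | 0 ≤ z.im} ∩ {z : ℂ | z.re + z.im ≤ 1}) := rfl
  rw [h]
  exact (isClosed_le continuous_const Complex.continuous_re).inter
    ((isClosed_le continuous_const Complex.continuous_im).inter
      (isClosed_le (Complex.continuous_re.add Complex.continuous_im) continuous_const))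

lemma Sd_closed : IsClosed Sd := by
  refine (isClosed_le continuous_const Complex.continuous_im).inter
    ((isClosed_le Complex.continuous_im Complex.continuous_re).inter
      (isClosed_le Complex.continuous_re continuous_const))

lemma Si_cpt : IsCompact Si := by
  refine (isCompact_closedBall (0 : ℂ) 2).of_isClosed_subset Si_closed fun z hz => ?_
  obtain ⟨h1, h2, h3⟩ := hz
  rw [mem_closedBall_zero_iff]
  have := Complex.norm_le_abs_re_add_abs_im z
  rw [abs_of_nonneg h1, abs_of_nonneg h2] at this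
  linarith

lemma Sd_cpt : IsCompact Sd := by
  refine (isCompact_closedBall (0 : ℂ) 2).of_isClosed_subset Sd_closed fun z hz => ?_
  obtain ⟨h1, h2, h3⟩ := hz
  rw [mem_closedBall_zero_iff]
  have := Complex.norm_le_abs_re_add_abs_im z
  rw [abs_of_nonneg h1, abs_of_nonneg (h1.trans h2)] at this
  linarith

/-- Fubini -/
lemma int_C {F : ℂ → ℝ} (hF : Integrable F) : ∫ z, F z = ∫ x : ℝ, ∫ t : ℝ, F ⟨x, t⟩ := by
  have h1 : ∫ z, F z = ∫ p : ℝ × ℝ, F (Complex.measurableEquivRealProd.symm p) :=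
    (Complex.volume_preserving_equiv_real_prod.symm.integral_comp
      Complex.measurableEquivRealProd.symm.measurableEmbedding F).symm
  rw [h1, Measure.volume_eq_prod, integral_prod]
  · rfl
  · rw [← Measure.volume_eq_prod]
    exact (Complex.volume_preserving_equiv_real_prod.symm.integrable_comp_emb
      Complex.measurableEquivRealProd.symm.measurableEmbedding).2 hF

/-- Fubini on the simplex `Sd` -/
lemma int_Sd {g : ℂ → ℝ} (hg : Continuous g) :
    ∫ z in Sd, g z = ∫ s in (0 : ℝ)..1, ∫ t in (0 : ℝ)..s, g ⟨s, t⟩ := by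
  have hi : IntegrableOn g Sd := hg.continuousOn.integrableOn_compact Sd_cpt
  rw [← integral_indicator Sd_closed.measurableSet,
    int_C ((integrable_indicator_iff Sd_closed.measurableSet).2 hi),
    intervalIntegral.integral_of_le zero_le_one, ← integral_indicator measurableSet_Ioc]
  refine integral_congr_ae ?_
  have h0 : ∀ᵐ s : ℝ, s ≠ 0 := by
    rw [ae_iff]; simp
  filter_upwards [h0] with s hs
  by_cases h : s ∈ Ioc (0 : ℝ) 1
  · rw [indicator_of_mem h, intervalIntegral.integral_of_le h.1.le, ← integral_Icc_eq_integral_Ioc,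
      ← integral_indicator measurableSet_Icc]
    refine integral_congr_ae (Eventually.of_forall fun t => ?_)
    by_cases ht : t ∈ Icc 0 s
    · simp only [indicator_of_mem ht]
      rw [indicator_of_mem (show (⟨s, t⟩ : ℂ) ∈ Sd from ⟨ht.1, ht.2, h.2⟩)]
    · simp only [indicator_of_notMem ht]
      rw [indicator_of_notMem (show (⟨s, t⟩ : ℂ) ∉ Sd from fun h' => ht ⟨h'.1, h'.2.1⟩)]
  · rw [indicator_of_notMem h]
    have : ∀ t : ℝ, Sd.indicator g ⟨s, t⟩ = 0 := by
      intro t
      apply indicator_of_notMem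
      rintro ⟨h1, h2, h3⟩
      have h2' : t ≤ s := h2
      have h1' : 0 ≤ t := h1
      exact h ⟨lt_of_le_of_ne (h1'.trans h2') hs.symm, h3⟩
    simp_rw [this]
    simp

/-- `q ∫_0^1 √(p² + q² t²) dt` -/
lemma int_sqrt {p q : ℝ} (hp : 0 < p) :
    q * ∫ t in (0 : ℝ)..1, √(p ^ 2 + q ^ 2 * t ^ 2) =
      (q * √(p ^ 2 + q ^ 2) + p ^ 2 * Real.arsinh (q / p)) / 2 := by
  have hd : ∀ t : ℝ, HasDerivAt (fun t : ℝ => ((q * t) * √(p ^ 2 + q ^ 2 * t ^ 2) +
      p ^ 2 * Real.arsinh (q * t / p)) / 2) (q * √(p ^ 2 + q ^ 2 * t ^ 2)) t := by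
    intro t
    have hpos : 0 < p ^ 2 + q ^ 2 * t ^ 2 := by positivity
    have h1 : HasDerivAt (fun t : ℝ => p ^ 2 + q ^ 2 * t ^ 2) (q ^ 2 * (2 * t)) t := by
      have := (((hasDerivAt_id t).pow 2).const_mul (q ^ 2)).const_add (p ^ 2)
      exact this.congr_deriv (by simp)
    have h2 := h1.sqrt hpos.ne'
    have h3 : HasDerivAt (fun t : ℝ => q * t) q t := by
      have := (hasDerivAt_id t).const_mul q
      exact this.congr_deriv (by simp)
    have h4 := (Real.hasDerivAt_arsinh (q * t / p)).comp t (h3.div_const p)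
    have h5 := ((h3.mul h2).add (h4.const_mul (p ^ 2))).div_const 2
    refine h5.congr_deriv ?_
    have e : √(1 + (q * t / p) ^ 2) = √(p ^ 2 + q ^ 2 * t ^ 2) / p := by
      rw [← Real.sqrt_sq hp.le, ← Real.sqrt_div (by positivity)]
      congr 1
      rw [Real.sqrt_sq hp.le]
      field_simp
    rw [e]
    have h6 : √(p ^ 2 + q ^ 2 * t ^ 2) ^ 2 = p ^ 2 + q ^ 2 * t ^ 2 := Real.sq_sqrt hpos.le
    have h7 : 0 < √(p ^ 2 + q ^ 2 * t ^ 2) := Real.sqrt_pos.2 hpos
    field_simp
    rw [h6]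
    ring
  have h := intervalIntegral.integral_eq_sub_of_hasDerivAt (a := 0) (b := 1)
    (fun t _ => hd t) (Continuous.intervalIntegrable (by fun_prop) _ _)
  rw [intervalIntegral.integral_const_mul] at h
  rw [h]
  simp

/-- the perpendicular case: `|s u + t w|` -/
lemma int_perp {u w : ℂ} (h : u.re * w.re + u.im * w.im = 0) (hu : 0 < ‖u‖) :
    ‖u‖ * ‖w‖ * ∫ z in Sd, ‖(z.re : ℂ) * u + (z.im : ℂ) * w‖ =
      (‖u‖ * ‖w‖ * √(‖u‖ ^ 2 + ‖w‖ ^ 2) + ‖u‖ ^ 3 * Real.arsinh (‖w‖ / ‖u‖)) / 6 := by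
  set p := ‖u‖ with hp
  set q := ‖w‖ with hq
  have hn : ∀ s t : ℝ, 0 ≤ s → ‖(s : ℂ) * u + (t : ℂ) * w‖ = √(s ^ 2 * p ^ 2 + t ^ 2 * q ^ 2) := by
    intro s t _
    rw [Complex.norm_def, hp, hq, Complex.sq_norm, Complex.sq_norm]
    congr 1
    simp only [Complex.normSq_apply, Complex.add_re, Complex.add_im, Complex.re_ofReal_mul,
      Complex.im_ofReal_mul]
    linear_combination 2 * s * t * h
  rw [int_Sd (by fun_prop)]
  have h1 : ∀ s ∈ uIcc (0 : ℝ) 1, ∫ t in (0 : ℝ)..s, ‖((⟨s, t⟩ : ℂ).re : ℂ) * u +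
      ((⟨s, t⟩ : ℂ).im : ℂ) * w‖ = s ^ 2 * ∫ t in (0 : ℝ)..1, √(p ^ 2 + q ^ 2 * t ^ 2) := by
    intro s hs
    rw [uIcc_of_le zero_le_one] at hs
    rcases eq_or_lt_of_le hs.1 with h0 | h0
    · rw [← h0]; simp
    · have h2 := intervalIntegral.integral_comp_mul_left
        (fun t : ℝ => √(s ^ 2 * p ^ 2 + t ^ 2 * q ^ 2)) h0.ne' (a := 0) (b := 1)
      rw [mul_zero, mul_one, smul_eq_mul] at h2
      have h3 : ∫ t in (0 : ℝ)..s, ‖((⟨s, t⟩ : ℂ).re : ℂ) * u + ((⟨s, t⟩ : ℂ).im : ℂ) * w‖ =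
          ∫ t in (0 : ℝ)..s, √(s ^ 2 * p ^ 2 + t ^ 2 * q ^ 2) := by
        refine intervalIntegral.integral_congr fun t _ => ?_
        exact hn s t h0.le
      have h4 : ∀ x : ℝ, √(s ^ 2 * p ^ 2 + (s * x) ^ 2 * q ^ 2) =
          s * √(p ^ 2 + q ^ 2 * x ^ 2) := by
        intro x
        rw [show s ^ 2 * p ^ 2 + (s * x) ^ 2 * q ^ 2 = s ^ 2 * (p ^ 2 + q ^ 2 * x ^ 2) by ring,
          Real.sqrt_mul (by positivity), Real.sqrt_sq h0.le]
      simp_rw [h4] at h2
      rw [intervalIntegral.integral_const_mul] at h2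
      rw [h3]
      have h5 : s * (s * ∫ t in (0 : ℝ)..1, √(p ^ 2 + q ^ 2 * t ^ 2)) =
          ∫ t in (0 : ℝ)..s, √(s ^ 2 * p ^ 2 + t ^ 2 * q ^ 2) := by
        rw [h2, ← mul_assoc, mul_inv_cancel₀ h0.ne', one_mul]
      rw [← h5]
      ring
  rw [intervalIntegral.integral_congr h1, intervalIntegral.integral_mul_const, integral_pow]
  have h5 := int_sqrt (p := p) (q := q) hu
  have : p * q * ((1 ^ (2 + 1) - 0 ^ (2 + 1)) / ((2 : ℕ) + 1 : ℝ) *
      ∫ t in (0 : ℝ)..1, √(p ^ 2 + q ^ 2 * t ^ 2)) =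
      p / 3 * (q * ∫ t in (0 : ℝ)..1, √(p ^ 2 + q ^ 2 * t ^ 2)) := by
    norm_num
    ring
  rw [this, h5]
  ring

/-! ## Hulls -/

lemma Si_convex : Convex ℝ Si := by
  intro x hx y hy a b ha hb hab
  obtain ⟨x1, x2, x3⟩ := hx
  obtain ⟨y1, y2, y3⟩ := hy
  refine ⟨?_, ?_, ?_⟩ <;>
    simp only [Complex.add_re, Complex.add_im, Complex.real_smul, Complex.re_ofReal_mul,
      Complex.im_ofReal_mul] <;> nlinarith

lemma Sd_convex : Convex ℝ Sd := by
  intro x hx y hy a b ha hb hab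
  obtain ⟨x1, x2, x3⟩ := hx
  obtain ⟨y1, y2, y3⟩ := hy
  refine ⟨?_, ?_, ?_⟩ <;>
    simp only [Complex.add_re, Complex.add_im, Complex.real_smul, Complex.re_ofReal_mul,
      Complex.im_ofReal_mul] <;> nlinarith

/-- barycentric description of a triangle -/
lemma mem_tri {a b c x : ℂ} : x ∈ convexHull ℝ ({a, b, c} : Set ℂ) ↔
    ∃ u v w : ℝ, 0 ≤ u ∧ 0 ≤ v ∧ 0 ≤ w ∧ u + v + w = 1 ∧ x = u * a + v * b + w * c := by
  rw [convexHull_insert (by simp), convexHull_pair]
  simp only [convexJoin_singleton_left, mem_iUnion, segment_eq_image, mem_image, mem_Icc]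
  constructor
  · rintro ⟨y, ⟨t, ⟨ht0, ht1⟩, rfl⟩, s, ⟨hs0, hs1⟩, rfl⟩
    refine ⟨1 - s, s * (1 - t), s * t, by linarith, mul_nonneg hs0 (by linarith),
      mul_nonneg hs0 ht0, by ring, ?_⟩
    simp only [Complex.real_smul]
    push_cast
    ring
  · rintro ⟨u, v, w, hu, hv, hw, h, rfl⟩
    rcases eq_or_lt_of_le (add_nonneg hv hw) with h0 | h0
    · have hv0 : v = 0 := by linarith
      have hw0 : w = 0 := by linarith
      have hu1 : u = 1 := by linarith
      refine ⟨b, ⟨0, ⟨le_rfl, zero_le_one⟩, by simp⟩, 0, ⟨le_rfl, zero_le_one⟩, ?_⟩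
      rw [hv0, hw0, hu1]; simp
    · refine ⟨_, ⟨w / (v + w), ⟨by positivity, ?_⟩, rfl⟩, v + w, ⟨h0.le, by linarith⟩, ?_⟩
      · rw [div_le_one h0]; linarith
      · simp only [Complex.real_smul]
        have h1 : ((v : ℂ) + w) ≠ 0 := by exact_mod_cast h0.ne'
        push_cast
        field_simp
        have : (u : ℂ) = 1 - v - w := by
          have : u = 1 - v - w := by linarith
          rw [this]; push_cast; ring
        rw [this]
        ring

lemma tri_eq (a b c : ℂ) : convexHull ℝ ({a, b, c} : Set ℂ) = Aff a (b - a) (c - a) '' Si := by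
  ext x
  rw [mem_tri]
  constructor
  · rintro ⟨u, v, w, hu, hv, hw, h, rfl⟩
    refine ⟨⟨v, w⟩, ⟨hv, hw, by change v + w ≤ 1; linarith⟩, ?_⟩
    unfold Aff
    have : (u : ℂ) = 1 - v - w := by
      have : u = 1 - v - w := by linarith
      rw [this]; push_cast; ring
    rw [this]
    ring
  · rintro ⟨z, ⟨h1, h2, h3⟩, rfl⟩
    refine ⟨1 - z.re - z.im, z.re, z.im, by linarith, h1, h2, by ring, ?_⟩
    unfold Aff
    push_cast
    ring

lemma tri_eq' (V M O : ℂ) : convexHull ℝ ({V, M, O} : Set ℂ) = Aff V (M - V) (O - M) '' Sd := by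
  ext x
  rw [mem_tri]
  constructor
  · rintro ⟨u, v, w, hu, hv, hw, h, rfl⟩
    refine ⟨⟨v + w, w⟩, ⟨hw, by change w ≤ v + w; linarith, by change v + w ≤ 1; linarith⟩, ?_⟩
    unfold Aff
    have : (u : ℂ) = 1 - v - w := by
      have : u = 1 - v - w := by linarith
      rw [this]; push_cast; ring
    rw [this]
    push_cast
    ring
  · rintro ⟨z, ⟨h1, h2, h3⟩, rfl⟩
    refine ⟨1 - z.re, z.re - z.im, z.im, by linarith, by linarith, h1, by ring, ?_⟩
    unfold Aff
    push_cast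
    ring

lemma tri_cpt (a b c : ℂ) : IsCompact (convexHull ℝ ({a, b, c} : Set ℂ)) :=
  Set.Finite.isCompact_convexHull (𝕜 := ℝ) (((Set.finite_singleton c).insert b).insert a)

lemma vol_Si : volume.real Si = 1 / 2 := by
  -- `Si` is the image of `Sd`
  have h1 : Si = Aff 0 1 (Complex.I - 1) '' Sd := by
    have h2 := tri_eq 0 1 Complex.I
    have h3 := tri_eq' 0 1 Complex.I
    rw [h2] at h3
    simp only [sub_zero] at h3
    rw [← h3]
    ext z
    constructor
    · intro hz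
      exact ⟨z, hz, by unfold Aff; simp⟩
    · rintro ⟨w, hw, rfl⟩
      have : Aff 0 1 Complex.I w = w := by unfold Aff; simp
      change Aff 0 1 Complex.I w ∈ Si
      rwa [this]
  have hd : dd 1 (Complex.I - 1) = 1 := by unfold dd; simp
  rw [h1, vol_img (by rw [hd]; norm_num) Sd_closed.measurableSet, hd]
  have h4 := int_Sd (g := fun _ => 1) continuous_const
  simp only [intervalIntegral.integral_const, sub_zero, smul_eq_mul, mul_one, integral_id,
    setIntegral_const] at h4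
  rw [h4]
  norm_num

lemma vol_tri {a b c : ℂ} (h : dd (b - a) (c - a) ≠ 0) :
    volume.real (convexHull ℝ ({a, b, c} : Set ℂ)) = |dd (b - a) (c - a)| / 2 := by
  rw [tri_eq, vol_img h Si_closed.measurableSet, vol_Si]
  ring

/-- area zero for degenerate triangles -/
lemma vol_deg {V u w : ℂ} (h : dd u w = 0) (S : Set ℂ) : volume (Aff V u w '' S) = 0 := by
  have h1 : Aff V u w '' S = (fun x => V + x) '' (Lin u w '' S) := by
    rw [image_image]
    refine image_congr fun x _ => ?_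
    rw [Lin_apply]; rfl
  have h2 : LinearMap.det (Lin u w : ℂ →ₗ[ℝ] ℂ) = 0 := (Lin_det u w).trans h
  rw [h1, image_add_left, measure_preimage_add, Measure.addHaar_image_continuousLinearMap]
  rw [h2]
  simp

end Pool.Agent.R224.MD
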