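import Pool.Agent.R224.MD.Tri

/-!
# Mean distance and inradius: the mean distance to the vertices of a triangle
-/

set_option autoImplicit false

open Set MeasureTheory Filter Topology
open scoped Real

noncomputable section

namespace Pool.Agent.R224.MD

/-- the constant `1/3 + (log 3)/4` -/
def c0 : ℝ := 1 / 3 + kk

/-- inner product -/
def ip (x y : ℂ) : ℝ := x.re * y.re + x.im * y.im

lemma ip_self (x : ℂ) : ip x x = ‖x‖ ^ 2 := by
  rw [Complex.sq_norm, Complex.normSq_apply]; rfl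

lemma inner_ip (x y : ℂ) : inner ℝ x y = ip x y := by
  rw [Complex.inner]
  simp [ip]
  ring

lemma lag (x y : ℂ) : ip x x * ip y y - ip x y * ip x y = dd x y ^ 2 := by
  unfold ip dd; ring

lemma circ1 {a b c : ℂ} {R : ℝ} (ha : ip a a = R) (hb : ip b b = R) (hc : ip c c = R) :
    2 * dd b c * dd (b - a) (c - a) = ip (b - c) (b - c) * ip (b - a) (c - a) := by
  have e1 : 2 * dd b c * dd (b - a) (c - a) =
      2 * (ip b b * ip c c - ip b c ^ 2 + ip b c * ip c a - ip a b * ip c c + ip a b * ip b c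
        - ip b b * ip c a) := by
    unfold ip dd; simp only [Complex.sub_re, Complex.sub_im]; ring
  have e2 : ip (b - c) (b - c) * ip (b - a) (c - a) =
      (ip b b + ip c c - 2 * ip b c) * (ip b c - ip a b - ip c a + ip a a) := by
    unfold ip; simp only [Complex.sub_re, Complex.sub_im]; ring
  rw [e1, e2, ha, hb, hc]
  ring

lemma circ2 {a b c : ℂ} {R : ℝ} (ha : ip a a = R) (hb : ip b b = R) (hc : ip c c = R) :
    4 * R * dd (b - a) (c - a) ^ 2 =
      ip (a - b) (a - b) * ip (b - c) (b - c) * ip (c - a) (c - a) := by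
  have e0 : ip a a * ip b b * ip c c + 2 * ip b c * ip c a * ip a b - ip a a * ip b c ^ 2
      - ip b b * ip c a ^ 2 - ip c c * ip a b ^ 2 = 0 := by
    unfold ip; ring
  have e1 : dd (b - a) (c - a) ^ 2 = (ip a a + ip b b - 2 * ip a b) *
      (ip a a + ip c c - 2 * ip c a) - (ip b c - ip a b - ip c a + ip a a) ^ 2 := by
    unfold ip dd; simp only [Complex.sub_re, Complex.sub_im]; ring
  have e2 : ip (a - b) (a - b) * ip (b - c) (b - c) * ip (c - a) (c - a) =
      (ip a a + ip b b - 2 * ip a b) * (ip b b + ip c c - 2 * ip b c) *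
      (ip a a + ip c c - 2 * ip c a) := by
    unfold ip; simp only [Complex.sub_re, Complex.sub_im]; ring
  rw [e1, e2]
  rw [ha, hb, hc] at *
  linear_combination 4 * e0

/-! ## A covering lemma -/

lemma int_cover {ι : Type*} (S : Finset ι) (t : ι → Set ℂ) (g : ι → ℂ → ℝ) {A : Set ℂ}
    {f : ℂ → ℝ} (hA : MeasurableSet A) (hf0 : ∀ x, 0 ≤ f x) (ht : ∀ i ∈ S, IsCompact (t i))
    (hg : ∀ i ∈ S, Continuous (g i)) (hg0 : ∀ i ∈ S, ∀ x, 0 ≤ g i x)
    (hc : ∀ᵐ x : ℂ, x ∈ A → ∃ i ∈ S, x ∈ t i ∧ f x ≤ g i x) :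
    ∫ x in A, f x ≤ ∑ i ∈ S, ∫ x in t i, g i x := by
  have h1 : ∀ i ∈ S, ∫ x in t i, g i x = ∫ x, (t i).indicator (g i) x :=
    fun i hi => (integral_indicator (ht i hi).isClosed.measurableSet).symm
  have h2 : ∀ i ∈ S, Integrable ((t i).indicator (g i)) := fun i hi =>
    (integrable_indicator_iff (ht i hi).isClosed.measurableSet).2
      ((hg i hi).continuousOn.integrableOn_compact (ht i hi))
  rw [Finset.sum_congr rfl h1, ← integral_finsetSum _ h2, ← integral_indicator hA]
  refine integral_mono_of_nonneg (Eventually.of_forall fun x => indicator_nonneg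
    (fun x _ => hf0 x) x) (integrable_finsetSum _ h2) ?_
  filter_upwards [hc] with x hx
  have h0 : ∀ i ∈ S, 0 ≤ (t i).indicator (g i) x := fun i hi =>
    indicator_nonneg (fun x _ => hg0 i hi x) x
  by_cases hxA : x ∈ A
  · obtain ⟨i, hi, hxi, hle⟩ := hx hxA
    rw [indicator_of_mem hxA]
    refine hle.trans ?_
    have h3 : g i x = (t i).indicator (g i) x := (indicator_of_mem hxi _).symm
    rw [h3]
    exact Finset.single_le_sum (f := fun j => (t j).indicator (g j) x) h0 hi
  · rw [indicator_of_notMem hxA]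
    exact Finset.sum_nonneg h0

/-! ## Right triangles -/

/-- the integral for a right triangle -/
lemma tri_right {V M O : ℂ} (h : ip (M - V) (O - M) = 0) (hp : 0 < ‖M - V‖) :
    ∫ x in convexHull ℝ ({V, M, O} : Set ℂ), ‖x - V‖ ≤
      (‖M - V‖ * ‖O - M‖ * √(‖M - V‖ ^ 2 + ‖O - M‖ ^ 2) +
        ‖M - V‖ ^ 3 * Real.arsinh (‖O - M‖ / ‖M - V‖)) / 6 := by
  have hd : dd (M - V) (O - M) ^ 2 = (‖M - V‖ * ‖O - M‖) ^ 2 := by
    rw [← lag, h, ip_self, ip_self]; ring
  have hd' : |dd (M - V) (O - M)| = ‖M - V‖ * ‖O - M‖ := by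
    have := abs_eq_abs.2 (sq_eq_sq_iff_eq_or_eq_neg.1 hd)
    rwa [abs_of_nonneg (by positivity : (0 : ℝ) ≤ ‖M - V‖ * ‖O - M‖)] at this
  rw [tri_eq']
  by_cases h0 : dd (M - V) (O - M) = 0
  · rw [setIntegral_measure_zero _ (vol_deg h0 _)]
    have : 0 ≤ Real.arsinh (‖O - M‖ / ‖M - V‖) := Real.arsinh_nonneg_iff.2 (by positivity)
    positivity
  · rw [cov h0 Sd_closed.measurableSet, hd', ← int_perp h hp]
    apply le_of_eq
    congr 1
    refine setIntegral_congr_fun Sd_closed.measurableSet fun z _ => ?_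
    simp only [Aff, add_sub_cancel_left]

/-- the two right triangles at an edge -/
lemma tri_edge {a b : ℂ} {r : ℝ} (hr : 0 ≤ r) (ha : ip a a = r ^ 2) (hb : ip b b = r ^ 2)
    (hab : a ≠ b) :
    ∫ x in convexHull ℝ ({a, b, 0} : Set ℂ), min ‖x - a‖ ‖x - b‖ ≤
      ((‖a - b‖ / 2) * (‖a + b‖ / 2) * r +
        (‖a - b‖ / 2) ^ 3 * Real.arsinh ((‖a + b‖ / 2) / (‖a - b‖ / 2))) / 3 := by
  set M : ℂ := (a + b) / 2 with hM
  have e1 : M - a = -((a - b) / 2) := by rw [hM]; ring
  have e2 : M - b = (a - b) / 2 := by rw [hM]; ring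
  have n1 : ‖M - a‖ = ‖a - b‖ / 2 := by rw [e1, norm_neg, norm_div]; simp
  have n2 : ‖M - b‖ = ‖a - b‖ / 2 := by rw [e2, norm_div]; simp
  have n3 : ‖(0 : ℂ) - M‖ = ‖a + b‖ / 2 := by rw [zero_sub, norm_neg, hM, norm_div]; simp
  have hpos : 0 < ‖a - b‖ := norm_pos_iff.2 (sub_ne_zero.2 hab)
  have hpar : (‖a - b‖ / 2) ^ 2 + (‖a + b‖ / 2) ^ 2 = r ^ 2 := by
    have h1 : ‖a - b‖ ^ 2 = ip (a - b) (a - b) := (ip_self _).symm
    have h2 : ‖a + b‖ ^ 2 = ip (a + b) (a + b) := (ip_self _).symm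
    rw [div_pow, div_pow, h1, h2]
    unfold ip at *
    simp only [Complex.sub_re, Complex.sub_im, Complex.add_re, Complex.add_im]
    linear_combination ha / 2 + hb / 2
  have hs : √((‖a - b‖ / 2) ^ 2 + (‖a + b‖ / 2) ^ 2) = r := by
    rw [hpar, Real.sqrt_sq hr]
  have p1 : ip (M - a) (0 - M) = 0 := by
    rw [e1, hM]
    unfold ip at *
    simp only [Complex.sub_re, Complex.sub_im, Complex.neg_re, Complex.neg_im, Complex.zero_re,
      Complex.zero_im, Complex.div_ofNat_re, Complex.div_ofNat_im, Complex.add_re, Complex.add_im]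
    linear_combination (ha - hb) / 4
  have p2 : ip (M - b) (0 - M) = 0 := by
    rw [e2, hM]
    unfold ip at *
    simp only [Complex.sub_re, Complex.sub_im, Complex.neg_re, Complex.neg_im, Complex.zero_re,
      Complex.zero_im, Complex.div_ofNat_re, Complex.div_ofNat_im, Complex.add_re, Complex.add_im]
    linear_combination (hb - ha) / 4
  have t1 := tri_right p1 (by rw [n1]; positivity)
  have t2 := tri_right p2 (by rw [n2]; positivity)
  rw [n1, n3, hs] at t1
  rw [n2, n3, hs] at t2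
  have hcov := int_cover (Finset.univ : Finset (Fin 2))
    ![convexHull ℝ ({a, M, 0} : Set ℂ), convexHull ℝ ({b, M, 0} : Set ℂ)]
    ![fun x => ‖x - a‖, fun x => ‖x - b‖] (A := convexHull ℝ ({a, b, 0} : Set ℂ))
    (f := fun x => min ‖x - a‖ ‖x - b‖) (tri_cpt _ _ _).isClosed.measurableSet
    (fun x => by positivity)
    (by intro i _; fin_cases i
        · exact tri_cpt _ _ _
        · exact tri_cpt _ _ _)
    (by intro i _; fin_cases i
        · change Continuous fun x => ‖x - a‖; fun_prop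
        · change Continuous fun x => ‖x - b‖; fun_prop)
    (by intro i _ x; fin_cases i
        · exact norm_nonneg _
        · exact norm_nonneg _)
    (by
      refine Eventually.of_forall fun x hx => ?_
      obtain ⟨u, v, w, hu, hv, hw, h, rfl⟩ := mem_tri.1 hx
      rcases le_total v u with huv | huv
      · refine ⟨0, Finset.mem_univ _, mem_tri.2 ⟨u - v, 2 * v, w, by linarith, by linarith, hw,
          by linarith, ?_⟩, min_le_left _ _⟩
        rw [hM]; push_cast; ring
      · refine ⟨1, Finset.mem_univ _, mem_tri.2 ⟨v - u, 2 * u, w, by linarith, by linarith, hw,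
          by linarith, ?_⟩, min_le_right _ _⟩
        rw [hM]; push_cast; ring)
  rw [Fin.sum_univ_two] at hcov
  simp only [Matrix.cons_val_zero, Matrix.cons_val_one] at hcov
  linarith

end Pool.Agent.R224.MD
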