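import Pool.Agent.R224.MD.Tri2

/-!
# Mean distance and inradius: nonobtuse and obtuse triangles
-/

set_option autoImplicit false

open Set MeasureTheory Filter Topology
open scoped Real

noncomputable section

namespace Pool.Agent.R224.MD

/-- minimal distance to the three vertices -/
def mm (a b c x : ℂ) : ℝ := min ‖x - a‖ (min ‖x - b‖ ‖x - c‖)

lemma mm_nonneg (a b c x : ℂ) : 0 ≤ mm a b c x := by unfold mm; positivity

lemma mm_cont (a b c : ℂ) : Continuous (mm a b c) := by unfold mm; fun_prop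

lemma mm_rot (a b c x : ℂ) : mm b c a x = mm a b c x := by
  unfold mm
  rw [min_comm ‖x - a‖, ← min_assoc]

lemma tri_rot (a b c : ℂ) : ({b, c, a} : Set ℂ) = {a, b, c} := by
  ext x; simp only [mem_insert_iff, mem_singleton_iff]; tauto

/-- three triangles with apex `o` -/
lemma cover3 {a b c o x : ℂ} (ho : o ∈ convexHull ℝ ({a, b, c} : Set ℂ))
    (hx : x ∈ convexHull ℝ ({a, b, c} : Set ℂ)) :
    x ∈ convexHull ℝ ({b, c, o} : Set ℂ) ∨ x ∈ convexHull ℝ ({c, a, o} : Set ℂ) ∨
      x ∈ convexHull ℝ ({a, b, o} : Set ℂ) := by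
  obtain ⟨o1, o2, o3, h1, h2, h3, hs, hoe⟩ := mem_tri.1 ho
  obtain ⟨x1, x2, x3, y1, y2, y3, hy, hxe⟩ := mem_tri.1 hx
  have key : ∀ {a b c : ℂ} {o1 o2 o3 x1 x2 x3 : ℝ}, o = o1 * a + o2 * b + o3 * c →
      x = x1 * a + x2 * b + x3 * c → o1 + o2 + o3 = 1 → x1 + x2 + x3 = 1 → 0 ≤ x1 →
      0 < o1 → x1 * o2 ≤ x2 * o1 → x1 * o3 ≤ x3 * o1 → x ∈ convexHull ℝ ({b, c, o} : Set ℂ) := by
    intro a b c o1 o2 o3 x1 x2 x3 e1 e2 s1 s2 hx1 ho1 c1 c2
    refine mem_tri.2 ⟨x2 - x1 * o2 / o1, x3 - x1 * o3 / o1, x1 / o1, ?_, ?_, ?_, ?_, ?_⟩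
    · rw [sub_nonneg, div_le_iff₀ ho1]; exact c1
    · rw [sub_nonneg, div_le_iff₀ ho1]; exact c2
    · positivity
    · field_simp
      linear_combination (-x1) * s1 + o1 * s2
    · rw [e2, e1]
      have : (o1 : ℂ) ≠ 0 := by exact_mod_cast ho1.ne'
      push_cast
      field_simp
      ring
  set ov : Fin 3 → ℝ := ![o1, o2, o3] with hov
  set xv : Fin 3 → ℝ := ![x1, x2, x3] with hxv
  have hne : (Finset.univ.filter fun i : Fin 3 => 0 < ov i).Nonempty := by
    by_contra hcon
    rw [Finset.not_nonempty_iff_eq_empty, Finset.filter_eq_empty_iff] at hcon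
    have q1 : ¬ 0 < o1 := hcon (Finset.mem_univ 0)
    have q2 : ¬ 0 < o2 := hcon (Finset.mem_univ 1)
    have q3 : ¬ 0 < o3 := hcon (Finset.mem_univ 2)
    linarith
  obtain ⟨i, hi, hmin⟩ := Finset.exists_min_image _ (fun i => xv i / ov i) hne
  rw [Finset.mem_filter] at hi
  have hnn : ∀ j, 0 ≤ ov j := by intro j; fin_cases j <;> assumption
  have hc : ∀ j, xv i * ov j ≤ xv j * ov i := by
    intro j
    rcases eq_or_lt_of_le (hnn j) with h0 | h0
    · rw [← h0, mul_zero]
      have : 0 ≤ xv j := by fin_cases j <;> assumption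
      exact mul_nonneg this hi.2.le
    · have := hmin j (Finset.mem_filter.2 ⟨Finset.mem_univ _, h0⟩)
      rwa [div_le_div_iff₀ hi.2 h0] at this
  have hpos := hi.2
  have c0 := hc 0
  have c1 := hc 1
  have c2 := hc 2
  fin_cases i
  · left
    exact key hoe hxe hs hy y1 hpos c1 c2
  · right; left
    exact key (a := b) (b := c) (c := a) (o1 := o2) (o2 := o3) (o3 := o1) (x1 := x2) (x2 := x3)
      (x3 := x1) (by rw [hoe]; ring) (by rw [hxe]; ring) (by linarith)
      (by linarith) y2 hpos c2 c0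
  · right; right
    exact key (a := c) (b := a) (c := b) (o1 := o3) (o2 := o1) (o3 := o2) (x1 := x3) (x2 := x1)
      (x3 := x2) (by rw [hoe]; ring) (by rw [hxe]; ring) (by linarith)
      (by linarith) y3 hpos c0 c1

/-- inscribed angles -/
lemma ang {a b c : ℂ} {r : ℝ} (hr : 0 < r) (ha : ip a a = r ^ 2) (hb : ip b b = r ^ 2)
    (hc : ip c c = r ^ 2) (hbc : b ≠ c) (hca : c ≠ a)
    (h : 0 ≤ ip (a - c) (b - c)) :
    ‖a - b‖ / 2 = r * Real.sin (EuclideanGeometry.angle a c b) ∧
      ‖a + b‖ / 2 = r * Real.cos (EuclideanGeometry.angle a c b) := by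
  set γ := EuclideanGeometry.angle a c b with hγ
  have hγ' : γ = InnerProductGeometry.angle (a - c) (b - c) := rfl
  have n1 : 0 < ‖b - c‖ := norm_pos_iff.2 (sub_ne_zero.2 hbc)
  have n2 : 0 < ‖c - a‖ := norm_pos_iff.2 (sub_ne_zero.2 hca)
  have hD := circ2 ha hb hc
  have hdd : dd (a - c) (b - c) = dd (b - a) (c - a) := by
    unfold dd; simp only [Complex.sub_re, Complex.sub_im]; ring
  have hs := InnerProductGeometry.sin_angle_mul_norm_mul_norm (a - c) (b - c)
  rw [← hγ', inner_ip, inner_ip, inner_ip, lag, Real.sqrt_sq_eq_abs, hdd] at hs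
  have hD' : (2 * r * |dd (b - a) (c - a)|) ^ 2 = (‖a - b‖ * ‖b - c‖ * ‖c - a‖) ^ 2 := by
    have e : (2 * r * |dd (b - a) (c - a)|) ^ 2 = 4 * r ^ 2 * dd (b - a) (c - a) ^ 2 := by
      rw [mul_pow, sq_abs]; ring
    rw [e, hD, ip_self, ip_self, ip_self]
    ring
  have hD2 : 2 * r * |dd (b - a) (c - a)| = ‖a - b‖ * ‖b - c‖ * ‖c - a‖ :=
    (sq_eq_sq₀ (by positivity) (by positivity)).1 hD'
  have hsin : ‖a - b‖ / 2 = r * Real.sin γ := by
    have e1 : (‖b - c‖ * ‖c - a‖) * (2 * r * Real.sin γ - ‖a - b‖) = 0 := by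
      have : ‖c - a‖ = ‖a - c‖ := norm_sub_rev _ _
      rw [mul_sub]
      rw [← hs] at hD2
      rw [this] at hD2 ⊢
      linear_combination hD2
    have e2 := (mul_eq_zero.1 e1).resolve_left (by positivity)
    linarith
  refine ⟨hsin, ?_⟩
  have hcos : 0 ≤ Real.cos γ := by
    have h1 := InnerProductGeometry.cos_angle_mul_norm_mul_norm (a - c) (b - c)
    rw [← hγ', inner_ip] at h1
    have n2' : 0 < ‖a - c‖ := by rwa [norm_sub_rev]
    have h2 : 0 ≤ Real.cos γ * (‖a - c‖ * ‖b - c‖) := by rw [h1]; exact h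
    exact nonneg_of_mul_nonneg_left h2 (by positivity)
  have hpar : (‖a - b‖ / 2) ^ 2 + (‖a + b‖ / 2) ^ 2 = r ^ 2 := by
    have h1 : ‖a - b‖ ^ 2 = ip (a - b) (a - b) := (ip_self _).symm
    have h2 : ‖a + b‖ ^ 2 = ip (a + b) (a + b) := (ip_self _).symm
    rw [div_pow, div_pow, h1, h2]
    unfold ip at *
    simp only [Complex.sub_re, Complex.sub_im, Complex.add_re, Complex.add_im]
    linear_combination ha / 2 + hb / 2
  rw [hsin] at hpar
  refine (sq_eq_sq₀ (by positivity) (by positivity)).1 ?_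
  have := Real.sin_sq_add_cos_sq γ
  linear_combination hpar - r ^ 2 * this

/-- integral of the distance over a nonobtuse triangle centred at `0` -/
lemma acute {a b c : ℂ} {r : ℝ} (hr : 0 < r) (ha : ip a a = r ^ 2) (hb : ip b b = r ^ 2)
    (hc : ip c c = r ^ 2) (hD : dd (b - a) (c - a) ≠ 0) (h1 : 0 ≤ ip (b - a) (c - a))
    (h2 : 0 ≤ ip (c - b) (a - b)) (h3 : 0 ≤ ip (a - c) (b - c)) :
    ∫ x in convexHull ℝ ({a, b, c} : Set ℂ), mm a b c x ≤ c0 * r * (|dd (b - a) (c - a)| / 2) := by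
  set D := dd (b - a) (c - a) with hDd
  have hD1 : dd (c - b) (a - b) = D := by
    rw [hDd]; unfold dd; simp only [Complex.sub_re, Complex.sub_im]; ring
  have hD2 : dd (a - c) (b - c) = D := by
    rw [hDd]; unfold dd; simp only [Complex.sub_re, Complex.sub_im]; ring
  have hab : a ≠ b := by
    rintro rfl; apply hD; rw [hDd]; unfold dd; simp
  have hbc : b ≠ c := by
    rintro rfl; apply hD; rw [hDd]; unfold dd; ring
  have hca : c ≠ a := by
    rintro rfl; apply hD; rw [hDd]; unfold dd; simp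
  -- the centre belongs to the triangle
  have g1 : 0 ≤ dd b c / D := by
    have := circ1 ha hb hc
    have h4 : 0 ≤ ip (b - c) (b - c) := by rw [ip_self]; positivity
    have h5 : 0 ≤ 2 * dd b c * D := by rw [this]; positivity
    have h6 : dd b c / D = (2 * dd b c * D) / (2 * D ^ 2) := by field_simp
    rw [h6]; positivity
  have g2 : 0 ≤ dd c a / D := by
    have := circ1 hb hc ha
    rw [hD1] at this
    have h4 : 0 ≤ ip (c - a) (c - a) := by rw [ip_self]; positivity
    have h5 : 0 ≤ 2 * dd c a * D := by rw [this]; positivity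
    have h6 : dd c a / D = (2 * dd c a * D) / (2 * D ^ 2) := by field_simp
    rw [h6]; positivity
  have g3 : 0 ≤ dd a b / D := by
    have := circ1 hc ha hb
    rw [hD2] at this
    have h4 : 0 ≤ ip (a - b) (a - b) := by rw [ip_self]; positivity
    have h5 : 0 ≤ 2 * dd a b * D := by rw [this]; positivity
    have h6 : dd a b / D = (2 * dd a b * D) / (2 * D ^ 2) := by field_simp
    rw [h6]; positivity
  have hDs : D = dd b c + dd c a + dd a b := by
    rw [hDd]; unfold dd; simp only [Complex.sub_re, Complex.sub_im]; ring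
  have ho : (0 : ℂ) ∈ convexHull ℝ ({a, b, c} : Set ℂ) := by
    refine mem_tri.2 ⟨_, _, _, g1, g2, g3, ?_, ?_⟩
    · rw [← add_div, ← add_div, ← hDs, div_self hD]
    · have e : (dd b c : ℂ) * a + (dd c a : ℂ) * b + (dd a b : ℂ) * c = 0 := by
        unfold dd
        apply Complex.ext <;> simp <;> ring
      have : (D : ℂ) ≠ 0 := by exact_mod_cast hD
      push_cast
      field_simp
      rw [zero_mul]
      exact e.symm
  -- covering
  have hcov := int_cover (Finset.univ : Finset (Fin 3))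
    ![convexHull ℝ ({a, b, 0} : Set ℂ), convexHull ℝ ({b, c, 0} : Set ℂ),
      convexHull ℝ ({c, a, 0} : Set ℂ)]
    ![fun x => min ‖x - a‖ ‖x - b‖, fun x => min ‖x - b‖ ‖x - c‖, fun x => min ‖x - c‖ ‖x - a‖]
    (A := convexHull ℝ ({a, b, c} : Set ℂ))
    (f := mm a b c) (tri_cpt _ _ _).isClosed.measurableSet
    (mm_nonneg a b c)
    (by intro i _; fin_cases i
        · exact tri_cpt _ _ _
        · exact tri_cpt _ _ _
        · exact tri_cpt _ _ _)
    (by intro i _; fin_cases i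
        · change Continuous fun x => min ‖x - a‖ ‖x - b‖; fun_prop
        · change Continuous fun x => min ‖x - b‖ ‖x - c‖; fun_prop
        · change Continuous fun x => min ‖x - c‖ ‖x - a‖; fun_prop)
    (by intro i _ x; fin_cases i
        · exact le_min (norm_nonneg _) (norm_nonneg _)
        · exact le_min (norm_nonneg _) (norm_nonneg _)
        · exact le_min (norm_nonneg _) (norm_nonneg _))
    (by
      refine Eventually.of_forall fun x hx => ?_
      rcases cover3 ho hx with h | h | h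
      · exact ⟨1, Finset.mem_univ _, h, min_le_right _ _⟩
      · refine ⟨2, Finset.mem_univ _, h, le_min ?_ (min_le_left _ _)⟩
        exact (min_le_right _ _).trans (min_le_right _ _)
      · refine ⟨0, Finset.mem_univ _, h, le_min (min_le_left _ _) ?_⟩
        exact (min_le_right _ _).trans (min_le_left _ _))
  rw [Fin.sum_univ_three] at hcov
  change ∫ x in convexHull ℝ ({a, b, c} : Set ℂ), mm a b c x ≤
    (∫ x in convexHull ℝ ({a, b, 0} : Set ℂ), min ‖x - a‖ ‖x - b‖) +
    (∫ x in convexHull ℝ ({b, c, 0} : Set ℂ), min ‖x - b‖ ‖x - c‖) +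
    (∫ x in convexHull ℝ ({c, a, 0} : Set ℂ), min ‖x - c‖ ‖x - a‖) at hcov
  have t1 := tri_edge hr.le ha hb hab
  have t2 := tri_edge hr.le hb hc hbc
  have t3 := tri_edge hr.le hc ha hca
  -- angles
  set γ := EuclideanGeometry.angle a c b with hγ
  set α := EuclideanGeometry.angle b a c with hα
  set β := EuclideanGeometry.angle c b a with hβ
  obtain ⟨s1, k1⟩ := ang hr ha hb hc hbc hca h3
  obtain ⟨s2, k2⟩ := ang hr hb hc ha hca hab h1
  obtain ⟨s3, k3⟩ := ang hr hc ha hb hab hbc h2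
  have hsum : α + β + γ = π := by
    have := EuclideanGeometry.angle_add_angle_add_angle_eq_pi (p₁ := a) (p₂ := b) c hab.symm
    rw [hα, hβ, hγ, EuclideanGeometry.angle_comm b a c, EuclideanGeometry.angle_comm c b a,
      EuclideanGeometry.angle_comm a c b]
    linarith
  rw [← hγ] at s1 k1
  rw [← hα] at s2 k2
  rw [← hβ] at s3 k3
  have hle : ∀ {x : ℝ} {z : ℂ}, 0 ≤ x → x ≤ π → ‖z‖ / 2 = r * Real.cos x → x ≤ π / 2 := by
    intro x z hx0 hx1 h
    by_contra hcon
    push Not at hcon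
    have h4 : Real.cos x < 0 := Real.cos_neg_of_pi_div_two_lt_of_lt hcon (by linarith [Real.pi_pos])
    have h5 : 0 ≤ ‖z‖ / 2 := by positivity
    rw [h] at h5
    nlinarith
  have aγ := hle (EuclideanGeometry.angle_nonneg _ _ _) (EuclideanGeometry.angle_le_pi _ _ _) k1
  have aα := hle (EuclideanGeometry.angle_nonneg _ _ _) (EuclideanGeometry.angle_le_pi _ _ _) k2
  have aβ := hle (EuclideanGeometry.angle_nonneg _ _ _) (EuclideanGeometry.angle_le_pi _ _ _) k3
  rw [s1, k1] at t1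
  rw [s2, k2] at t2
  rw [s3, k3] at t3
  have hS := Sf_three (a := π / 2 - α) (b := π / 2 - β) (c := π / 2 - γ) (by linarith)
    (by linarith) (by linarith) (by linarith)
  have hterm : ∀ x : ℝ, (r * Real.sin x * (r * Real.cos x) * r + (r * Real.sin x) ^ 3 *
      Real.arsinh (r * Real.cos x / (r * Real.sin x))) / 3 =
      r ^ 3 * (Sf (π / 2 - x) + c0 * (Real.sin x * Real.cos x)) := by
    intro x
    unfold Sf Lf c0
    rw [Real.sin_pi_div_two_sub, Real.cos_pi_div_two_sub, Real.tan_eq_sin_div_cos,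
      Real.sin_pi_div_two_sub, Real.cos_pi_div_two_sub, mul_div_mul_left _ _ hr.ne']
    ring
  rw [hterm] at t1 t2 t3
  -- area
  have hA := circ2 ha hb hc
  rw [ip_self, ip_self, ip_self] at hA
  have e1 : ‖a - b‖ = 2 * (r * Real.sin γ) := by linarith
  have e2 : ‖b - c‖ = 2 * (r * Real.sin α) := by linarith
  have e3 : ‖c - a‖ = 2 * (r * Real.sin β) := by linarith
  have p1 : 0 ≤ Real.sin γ := Real.sin_nonneg_of_nonneg_of_le_pi
    (EuclideanGeometry.angle_nonneg _ _ _) (EuclideanGeometry.angle_le_pi _ _ _)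
  have p2 : 0 ≤ Real.sin α := Real.sin_nonneg_of_nonneg_of_le_pi
    (EuclideanGeometry.angle_nonneg _ _ _) (EuclideanGeometry.angle_le_pi _ _ _)
  have p3 : 0 ≤ Real.sin β := Real.sin_nonneg_of_nonneg_of_le_pi
    (EuclideanGeometry.angle_nonneg _ _ _) (EuclideanGeometry.angle_le_pi _ _ _)
  have hDabs : |D| = 4 * r ^ 2 * (Real.sin α * Real.sin β * Real.sin γ) := by
    refine (sq_eq_sq₀ (abs_nonneg _) (by positivity)).1 ?_
    rw [sq_abs]
    rw [e1, e2, e3, ← hDd] at hA
    have hr2 : (4 * r ^ 2) ≠ 0 := by positivity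
    apply mul_left_cancel₀ hr2
    linear_combination hA
  have htrig : Real.sin α * Real.cos α + Real.sin β * Real.cos β + Real.sin γ * Real.cos γ =
      2 * (Real.sin α * Real.sin β * Real.sin γ) := by
    have hg : γ = π - (α + β) := by linarith
    rw [hg, Real.sin_pi_sub, Real.cos_pi_sub, Real.sin_add, Real.cos_add]
    have q1 := Real.sin_sq_add_cos_sq α
    have q2 := Real.sin_sq_add_cos_sq β
    linear_combination (-(Real.sin β * Real.cos β)) * q1 + (-(Real.sin α * Real.cos α)) * q2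
  rw [hDabs]
  have hr3 : 0 < r ^ 3 := by positivity
  have hS' : r ^ 3 * (Sf (π / 2 - α) + Sf (π / 2 - β) + Sf (π / 2 - γ)) ≤ 0 :=
    mul_nonpos_of_nonneg_of_nonpos hr3.le hS
  have hfin : r ^ 3 * c0 * (Real.sin α * Real.cos α + Real.sin β * Real.cos β +
      Real.sin γ * Real.cos γ) = c0 * r * (4 * r ^ 2 *
      (Real.sin α * Real.sin β * Real.sin γ) / 2) := by
    rw [htrig]; ring
  linarith

end Pool.Agent.R224.MD
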