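import Pool.Agent.R224.MD.Tri3

/-!
# Mean distance and inradius: the bound for all triangles
-/

set_option autoImplicit false

open Set MeasureTheory Filter Topology
open scoped Real

noncomputable section

namespace Pool.Agent.R224.MD

/-- average (half of it) of the distance to the vertices, on the standard simplex -/
def Mn (a b c : ℂ) : ℝ := ∫ z in Si, mm a b c (Aff a (b - a) (c - a) z)

lemma tri_int {a b c : ℂ} (hD : dd (b - a) (c - a) ≠ 0) :
    ∫ x in convexHull ℝ ({a, b, c} : Set ℂ), mm a b c x = |dd (b - a) (c - a)| * Mn a b c := by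
  rw [tri_eq, cov hD Si_closed.measurableSet]; rfl

lemma Mn_trans (a b c o : ℂ) : Mn (a - o) (b - o) (c - o) = Mn a b c := by
  unfold Mn
  congr 1
  funext z
  unfold mm Aff
  congr 1
  · congr 1; ring
  · congr 1
    · congr 1; ring
    · congr 1; ring

lemma c0_pos : 0 < c0 := by unfold c0; have := kk_lo; linarith

lemma acute' {a b c o : ℂ} {r : ℝ} (ha : ‖a - o‖ = r) (hb : ‖b - o‖ = r)
    (hc : ‖c - o‖ = r) (hD : dd (b - a) (c - a) ≠ 0) (h1 : 0 ≤ ip (b - a) (c - a))
    (h2 : 0 ≤ ip (c - b) (a - b)) (h3 : 0 ≤ ip (a - c) (b - c)) :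
    Mn a b c ≤ c0 * r / 2 := by
  have hr : 0 < r := by
    rcases eq_or_lt_of_le (norm_nonneg (a - o)) with h | h
    · exfalso
      rw [ha] at h
      rw [← h] at ha hb hc
      rw [norm_eq_zero, sub_eq_zero] at ha hb hc
      apply hD
      rw [ha, hb, hc]; unfold dd; simp
    · rwa [ha] at h
  have e1 : b - o - (a - o) = b - a := by ring
  have e2 : c - o - (a - o) = c - a := by ring
  have e3 : c - o - (b - o) = c - b := by ring
  have e4 : a - o - (b - o) = a - b := by ring
  have e5 : a - o - (c - o) = a - c := by ring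
  have e6 : b - o - (c - o) = b - c := by ring
  have h := acute (a := a - o) (b := b - o) (c := c - o) hr (by rw [ip_self, ha])
    (by rw [ip_self, hb]) (by rw [ip_self, hc]) (by rwa [e1, e2]) (by rwa [e1, e2])
    (by rwa [e3, e4]) (by rwa [e5, e6])
  rw [tri_int (by rwa [e1, e2]), e1, e2, Mn_trans] at h
  have hpos : 0 < |dd (b - a) (c - a)| := abs_pos.2 hD
  have h4 : |dd (b - a) (c - a)| * Mn a b c ≤ |dd (b - a) (c - a)| * (c0 * r / 2) := by
    linarith
  exact le_of_mul_le_mul_left h4 hpos

lemma nle {x y : ℂ} (h : ip x x ≤ ip y y) : ‖x‖ ≤ ‖y‖ := by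
  rw [ip_self, ip_self] at h
  exact (sq_le_sq₀ (norm_nonneg _) (norm_nonneg _)).1 h

/-- coordinates along `e` and `I e` -/
def Wv (e : ℂ) (x y : ℝ) : ℂ := (x : ℂ) * e + (y : ℂ) * (Complex.I * e)

lemma Wv_ip (e : ℂ) (x y x' y' : ℝ) : ip (Wv e x y) (Wv e x' y') = (x * x' + y * y') * ip e e := by
  unfold Wv ip; simp; ring

lemma Wv_dd (e : ℂ) (x y x' y' : ℝ) : dd (Wv e x y) (Wv e x' y') = (x * y' - y * x') * ip e e := by
  unfold Wv ip dd; simp; ring

lemma obt {a b c : ℂ} {r : ℝ} (hD : dd (b - a) (c - a) ≠ 0) (h : ip (b - a) (c - a) < 0)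
    (hr : ‖c - b‖ ≤ 2 * r) : Mn a b c ≤ c0 * r / 2 := by
  set e := c - b with he
  have hL : 0 < ip e e := by
    have h0 : 0 ≤ ip e e := by rw [ip_self]; positivity
    refine lt_of_le_of_ne h0 fun h1 => ?_
    rw [ip_self] at h1
    have h2 : e = 0 := by
      have := pow_eq_zero_iff (two_ne_zero) |>.1 h1.symm
      exact norm_eq_zero.1 this
    have : c = b := by rw [he] at h2; exact sub_eq_zero.1 h2
    apply hD
    rw [this]; unfold dd; ring
  set τ := ip (a - b) e / ip e e with hτ
  set k := dd e (a - b) / ip e e with hk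
  have hab : a - b = Wv e τ k := by
    have hL' : (ip e e : ℂ) ≠ 0 := by exact_mod_cast hL.ne'
    have : (ip e e : ℂ) * (a - b) = (ip (a - b) e : ℂ) * e + (dd e (a - b) : ℂ) * (Complex.I * e) := by
      unfold ip dd
      apply Complex.ext <;> simp <;> ring
    unfold Wv
    rw [hτ, hk]
    push_cast
    field_simp
    linear_combination this
  have ha : a = b + Wv e τ k := by rw [← hab]; ring
  have e1 : b - a = Wv e (-τ) (-k) := by
    have : b - a = -(a - b) := by ring
    rw [this, hab]; unfold Wv; push_cast; ring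
  have e2 : c - a = Wv e (1 - τ) (-k) := by
    have : c - a = e - (a - b) := by rw [he]; ring
    rw [this, hab]; unfold Wv; push_cast; ring
  rw [e1, e2, Wv_dd] at hD
  rw [e1, e2, Wv_ip] at h
  have hk0 : k ≠ 0 := by
    rintro h0; apply hD; rw [h0]; ring
  have hkt : k ^ 2 < τ * (1 - τ) := by
    have : (-τ * (1 - τ) + -k * -k) < 0 := by
      by_contra hcon
      push Not at hcon
      exact absurd h (not_lt.2 (mul_nonneg hcon hL.le))
    nlinarith
  have hkp : 0 < |k| := abs_pos.2 hk0
  have hτp : 0 < τ * (1 - τ) := lt_of_le_of_lt (sq_nonneg k) hkt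
  have hτ0 : 0 < τ := by
    by_contra hcon
    push Not at hcon
    nlinarith
  have hτ1 : 0 < 1 - τ := by
    by_contra hcon
    push Not at hcon
    nlinarith
  set θ := √(τ * (1 - τ)) / |k| with hθ
  have hθ1 : 1 ≤ θ := by
    rw [hθ, le_div_iff₀ hkp, one_mul]
    apply Real.le_sqrt_of_sq_le
    rw [sq_abs]; exact hkt.le
  have hθk : (θ * k) * (θ * k) = τ * (1 - τ) := by
    have h1 : θ ^ 2 * |k| ^ 2 = τ * (1 - τ) := by
      rw [hθ, div_pow, Real.sq_sqrt hτp.le]
      field_simp
    rw [sq_abs] at h1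
    linarith
  set a' := b + Wv e τ (θ * k) with ha'
  have f1 : b - a' = Wv e (-τ) (-(θ * k)) := by
    rw [ha']; unfold Wv; push_cast; ring
  have f2 : c - a' = Wv e (1 - τ) (-(θ * k)) := by
    have : c - a' = e - (a' - b) := by rw [he]; ring
    rw [this, ha']; unfold Wv; push_cast; ring
  have f3 : c - b = Wv e 1 0 := by rw [← he]; unfold Wv; push_cast; ring
  have f4 : a' - b = Wv e τ (θ * k) := by rw [ha']; ring
  have f5 : a' - c = Wv e (τ - 1) (θ * k) := by
    have : a' - c = -(c - a') := by ring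
    rw [this, f2]; unfold Wv; push_cast; ring
  have f6 : b - c = Wv e (-1) 0 := by
    have : b - c = - e := by rw [he]; ring
    rw [this]; unfold Wv; push_cast; ring
  have hM : Mn a' b c ≤ c0 * (‖e‖ / 2) / 2 := by
    refine acute' (o := (b + c) / 2) ?_ ?_ ?_ ?_ ?_ ?_ ?_
    · have g1 : a' - (b + c) / 2 = Wv e (τ - 1 / 2) (θ * k) := by
        have : a' - (b + c) / 2 = (a' - b) - e / 2 := by rw [he]; ring
        rw [this, f4]; unfold Wv; push_cast; ring
      have g2 : ‖a' - (b + c) / 2‖ ^ 2 = (‖e‖ / 2) ^ 2 := by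
        rw [g1, ← ip_self, Wv_ip, hθk, ip_self]; ring
      exact (sq_eq_sq₀ (norm_nonneg _) (by positivity)).1 g2
    · have : b - (b + c) / 2 = -(e / 2) := by rw [he]; ring
      rw [this, norm_neg, norm_div]; simp
    · have : c - (b + c) / 2 = e / 2 := by rw [he]; ring
      rw [this, norm_div]; simp
    · rw [f1, f2, Wv_dd]
      have : -τ * -(θ * k) - -(θ * k) * (1 - τ) = θ * k := by ring
      rw [this]
      have : θ ≠ 0 := by linarith
      positivity
    · rw [f1, f2, Wv_ip]
      have : -τ * (1 - τ) + -(θ * k) * -(θ * k) = 0 := by linarith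
      rw [this, zero_mul]
    · rw [f3, f4, Wv_ip]
      have : 1 * τ + 0 * (θ * k) = τ := by ring
      rw [this]; positivity
    · rw [f5, f6, Wv_ip]
      have : (τ - 1) * -1 + (θ * k) * 0 = 1 - τ := by ring
      rw [this]; positivity
  have hmono : Mn a b c ≤ Mn a' b c := by
    unfold Mn
    refine setIntegral_mono_on ?_ ?_ Si_closed.measurableSet fun z hz => ?_
    · exact ((mm_cont _ _ _).comp (Aff_cont _ _ _)).continuousOn.integrableOn_compact Si_cpt
    · exact ((mm_cont _ _ _).comp (Aff_cont _ _ _)).continuousOn.integrableOn_compact Si_cpt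
    · obtain ⟨z1, z2, z3⟩ := hz
      set s := z.re
      set t := z.im
      set ξ := (1 - s - t) * τ + t with hξ
      set η := (1 - s - t) * k with hη
      have x1 : Aff a (b - a) (c - a) z - b = Wv e ξ η := by
        unfold Aff; rw [e1, e2, ha, hξ, hη]; unfold Wv; push_cast; ring
      have x2 : Aff a (b - a) (c - a) z - c = Wv e (ξ - 1) η := by
        have : Aff a (b - a) (c - a) z - c = (Aff a (b - a) (c - a) z - b) - e := by
          rw [he]; ring
        rw [this, x1]; unfold Wv; push_cast; ring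
      have x3 : Aff a (b - a) (c - a) z - a = Wv e (ξ - τ) (η - k) := by
        have : Aff a (b - a) (c - a) z - a = (Aff a (b - a) (c - a) z - b) - (a - b) := by ring
        rw [this, x1, hab]; unfold Wv; push_cast; ring
      have y1 : Aff a' (b - a') (c - a') z - b = Wv e ξ (θ * η) := by
        unfold Aff; rw [f1, f2, ha', hξ, hη]; unfold Wv; push_cast; ring
      have y2 : Aff a' (b - a') (c - a') z - c = Wv e (ξ - 1) (θ * η) := by
        have : Aff a' (b - a') (c - a') z - c = (Aff a' (b - a') (c - a') z - b) - e := by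
          rw [he]; ring
        rw [this, y1]; unfold Wv; push_cast; ring
      have y3 : Aff a' (b - a') (c - a') z - a' = Wv e (ξ - τ) (θ * (η - k)) := by
        have : Aff a' (b - a') (c - a') z - a' = (Aff a' (b - a') (c - a') z - b) - (a' - b) := by
          ring
        rw [this, y1, f4]; unfold Wv; push_cast; ring
      have hst : ∀ x : ℝ, x * x ≤ (θ * x) * (θ * x) := by
        intro x
        have : 1 ≤ θ * θ := by nlinarith
        nlinarith [mul_self_nonneg x]
      unfold mm
      refine min_le_min ?_ (min_le_min ?_ ?_)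
      · rw [x3, y3]
        apply nle
        rw [Wv_ip, Wv_ip]
        exact mul_le_mul_of_nonneg_right (by linarith [hst (η - k)]) hL.le
      · rw [x1, y1]
        apply nle
        rw [Wv_ip, Wv_ip]
        exact mul_le_mul_of_nonneg_right (by linarith [hst η]) hL.le
      · rw [x2, y2]
        apply nle
        rw [Wv_ip, Wv_ip]
        exact mul_le_mul_of_nonneg_right (by linarith [hst η]) hL.le
  have := c0_pos
  have h5 : c0 * (‖e‖ / 2) ≤ c0 * r := mul_le_mul_of_nonneg_left (by linarith) this.le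
  linarith

/-- the bound for triangles -/
theorem tri_bound {a b c o : ℂ} {r : ℝ} (ha : ‖a - o‖ = r) (hb : ‖b - o‖ = r)
    (hc : ‖c - o‖ = r) (hD : dd (b - a) (c - a) ≠ 0) :
    ∫ x in convexHull ℝ ({a, b, c} : Set ℂ), mm a b c x ≤
      c0 * r * volume.real (convexHull ℝ ({a, b, c} : Set ℂ)) := by
  have key : ∀ {a b c : ℂ}, ‖a - o‖ = r → ‖b - o‖ = r → ‖c - o‖ = r →
      dd (b - a) (c - a) ≠ 0 → ip (b - a) (c - a) < 0 →
      ∫ x in convexHull ℝ ({a, b, c} : Set ℂ), mm a b c x ≤
      c0 * r * volume.real (convexHull ℝ ({a, b, c} : Set ℂ)) := by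
    intro a b c ha hb hc hD h
    have h1 : ‖c - b‖ ≤ 2 * r := by
      have : c - b = (c - o) - (b - o) := by ring
      rw [this]
      refine (norm_sub_le _ _).trans ?_
      rw [hb, hc]; linarith
    have h2 := obt hD h h1
    rw [tri_int hD, vol_tri hD]
    have := mul_le_mul_of_nonneg_left h2 (abs_nonneg (dd (b - a) (c - a)))
    linarith
  have r1 : ({b, c, a} : Set ℂ) = {a, b, c} := tri_rot a b c
  have r2 : ({c, a, b} : Set ℂ) = {a, b, c} := (tri_rot c a b).symm
  have hD1 : dd (c - b) (a - b) = dd (b - a) (c - a) := by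
    unfold dd; simp only [Complex.sub_re, Complex.sub_im]; ring
  have hD2 : dd (a - c) (b - c) = dd (b - a) (c - a) := by
    unfold dd; simp only [Complex.sub_re, Complex.sub_im]; ring
  by_cases h1 : ip (b - a) (c - a) < 0
  · exact key ha hb hc hD h1
  by_cases h2 : ip (c - b) (a - b) < 0
  · have := key hb hc ha (by rwa [hD1]) h2
    rw [r1] at this
    simp_rw [mm_rot] at this
    exact this
  by_cases h3 : ip (a - c) (b - c) < 0
  · have := key hc ha hb (by rwa [hD2]) h3
    rw [r2] at this
    have e : ∀ x, mm c a b x = mm a b c x := fun x => by rw [← mm_rot c a b x]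
    simp_rw [e] at this
    exact this
  push Not at h1 h2 h3
  have h := acute' ha hb hc hD h1 h2 h3
  rw [tri_int hD, vol_tri hD]
  have := mul_le_mul_of_nonneg_left h (abs_nonneg (dd (b - a) (c - a)))
  linarith

end Pool.Agent.R224.MD
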