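import Pool.Agent.R224.MD.Del2

/-!
# Mean distance and inradius: the upper bound
-/

set_option autoImplicit false

open Set MeasureTheory Filter Topology Metric

noncomputable section

namespace Pool.Agent.R224.MD

lemma functional_ip (f : ℂ →L[ℝ] ℝ) (z : ℂ) : f z = ip z ⟨f 1, f Complex.I⟩ := by
  have h1 : z = z.re • (1 : ℂ) + z.im • Complex.I := by
    apply Complex.ext <;> simp
  conv_lhs => rw [h1]
  rw [map_add, map_smul, map_smul]
  unfold ip
  simp

lemma ip_le (x y : ℂ) : ip x y ≤ ‖x‖ * ‖y‖ := by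
  rw [← inner_ip]; exact real_inner_le_norm x y

/-- points are surrounded by a dense net -/
lemma surround {F : Finset ℂ} {L0 L δ : ℝ} (h0 : 0 ≤ L0) (hδ : 0 < δ) (hL : L0 + δ < L)
    (hF : ∀ z : ℂ, ‖z‖ = L → ∃ f ∈ F, ‖f - z‖ < δ) {x : ℂ} (hx : ‖x‖ ≤ L0) :
    x ∈ convexHull ℝ (F : Set ℂ) := by
  by_contra hcon
  have hcl : IsClosed (convexHull ℝ (F : Set ℂ)) :=
    (Set.Finite.isCompact_convexHull (𝕜 := ℝ) F.finite_toSet).isClosed
  obtain ⟨f, u, h1, h2⟩ := geometric_hahn_banach_closed_point (convex_convexHull ℝ _) hcl hcon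
  set v : ℂ := ⟨f 1, f Complex.I⟩ with hv
  have hfv : ∀ z, f z = ip z v := functional_ip f
  have hLp : 0 < L := by linarith
  by_cases hv0 : v = 0
  · obtain ⟨p, hp, _⟩ := hF (L : ℂ) (by
      rw [Complex.norm_real, Real.norm_eq_abs, abs_of_pos hLp])
    have h3 := h1 p (subset_convexHull ℝ _ hp)
    rw [hfv, hv0] at h3
    rw [hfv, hv0] at h2
    unfold ip at h2 h3
    simp at h2 h3
    linarith
  · have hvp : 0 < ‖v‖ := norm_pos_iff.2 hv0
    set z : ℂ := ((L / ‖v‖ : ℝ) : ℂ) * v with hz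
    have hzn : ‖z‖ = L := by
      rw [hz, norm_mul, Complex.norm_real, Real.norm_eq_abs, abs_of_pos (by positivity)]
      field_simp
    obtain ⟨p, hp, hpz⟩ := hF z hzn
    have h3 := h1 p (subset_convexHull ℝ _ hp)
    rw [hfv] at h2 h3
    have h4 : ip z v = L * ‖v‖ := by
      have : ip z v = L / ‖v‖ * ip v v := by
        rw [hz]; unfold ip; simp; ring
      rw [this, ip_self]
      field_simp
    have h5 : ip z v = ip p v + ip (z - p) v := by
      unfold ip; simp only [Complex.sub_re, Complex.sub_im]; ring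
    have h6 := ip_le (z - p) v
    have h7 := ip_le x v
    have h8 : ‖z - p‖ < δ := by rwa [norm_sub_rev]
    have h9 : ‖z - p‖ * ‖v‖ ≤ δ * ‖v‖ := mul_le_mul_of_nonneg_right h8.le hvp.le
    have h10 : ‖x‖ * ‖v‖ ≤ L0 * ‖v‖ := mul_le_mul_of_nonneg_right hx hvp.le
    have h11 : (L0 + δ) * ‖v‖ < L * ‖v‖ := mul_lt_mul_of_pos_right hL hvp
    rw [add_mul] at h11
    linarith

/-- the estimate with parameter `δ` -/
lemma up_delta {U : Set ℂ} (hU : IsOpen U) {L0 ρ δ : ℝ} (hρ0 : 0 ≤ ρ) (hL0 : 0 ≤ L0)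
    (hb : ∀ x ∈ U, ‖x‖ ≤ L0) (hρ : ∀ x, infDist x Uᶜ ≤ ρ) (hδ : 0 < δ) :
    ∫ x in U, infDist x Uᶜ ≤ (c0 * (ρ + δ) + δ) * volume.real (cthickening (2 * δ) U) := by
  classical
  set C := Uᶜ with hC
  have hCc : IsClosed C := hU.isClosed_compl
  set L := L0 + 2 * ρ + 2 * δ with hL
  set K := C ∩ closedBall 0 L with hK
  have hKc : IsCompact K := (isCompact_closedBall 0 L).inter_left hCc
  have hCne : C.Nonempty := by
    refine ⟨((L0 + 1 : ℝ) : ℂ), fun h => ?_⟩
    have h1 := hb _ h
    rw [Complex.norm_real, Real.norm_eq_abs, abs_of_nonneg (by linarith)] at h1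
    linarith
  obtain ⟨t, htK, htf, hcov⟩ := finite_cover_balls_of_compact hKc (half_pos hδ)
  obtain ⟨F, hGP, hF1, hF2⟩ := exists_GP htf.toFinset (half_pos hδ)
  have hFK : ∀ k ∈ K, ∃ f ∈ F, ‖f - k‖ < δ := by
    intro k hk
    have := hcov hk
    simp only [mem_iUnion] at this
    obtain ⟨p, hp, hkp⟩ := this
    obtain ⟨f, hf, hfp⟩ := hF1 p (htf.mem_toFinset.2 hp)
    refine ⟨f, hf, ?_⟩
    rw [mem_ball_iff_norm] at hkp
    have e : f - k = (f - p) - (k - p) := by ring
    rw [e]
    refine (norm_sub_le _ _).trans_lt (by linarith)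
  have hFC : ∀ f ∈ F, ∃ k ∈ C, ‖f - k‖ < δ := by
    intro f hf
    obtain ⟨p, hp, hfp⟩ := hF2 f hf
    exact ⟨p, (htK (htf.mem_toFinset.1 hp)).1, by linarith⟩
  have hnear : ∀ z : ℂ, ‖z‖ ≤ L - ρ → ∃ f ∈ F, ‖f - z‖ < infDist z C + δ := by
    intro z hz
    obtain ⟨c, hc, hzc⟩ := hCc.exists_infDist_eq_dist hCne z
    have h1 : ‖c - z‖ ≤ ρ := by
      rw [← dist_eq_norm, dist_comm, ← hzc]; exact hρ z
    have hcK : c ∈ K := by
      refine ⟨hc, ?_⟩
      rw [mem_closedBall_zero_iff]
      have e : c = (c - z) + z := by ring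
      rw [e]
      exact (norm_add_le _ _).trans (by linarith)
    obtain ⟨f, hf, hfc⟩ := hFK c hcK
    refine ⟨f, hf, ?_⟩
    rw [hzc, dist_comm, dist_eq_norm]
    have e : f - z = (c - z) + (f - c) := by ring
    rw [e]
    exact (norm_add_le _ _).trans_lt (by linarith)
  obtain ⟨T, hT1, hT2, hT3⟩ := delaunay hGP
  -- properties of a Delaunay triangle meeting `U`
  have hprop : ∀ s ∈ T, ∀ y ∈ convexHull ℝ (s : Set ℂ), y ∈ U →
      ∃ (a b c o : ℂ) (r : ℝ), (s : Set ℂ) = {a, b, c} ∧ ‖a - o‖ = r ∧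
      ‖b - o‖ = r ∧ ‖c - o‖ = r ∧ dd (b - a) (c - a) ≠ 0 ∧ r ≤ ρ + δ ∧
      convexHull ℝ (s : Set ℂ) ⊆ cthickening (2 * δ) U := by
    intro s hs y hy hyU
    obtain ⟨hsF, a, b, c, o, r, hse, ha, hb', hc, hD, hout⟩ := hT1 s hs
    have hball : convexHull ℝ (s : Set ℂ) ⊆ closedBall o r := by
      refine convexHull_min ?_ (convex_closedBall o r)
      rw [hse]
      rintro z (rfl | rfl | rfl)
      · rw [mem_closedBall_iff_norm]; exact ha.le
      · rw [mem_closedBall_iff_norm]; exact hb'.le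
      · rw [mem_closedBall_iff_norm]; exact hc.le
    have hyr : ‖y - o‖ ≤ r := by
      have := hball hy
      rwa [mem_closedBall_iff_norm] at this
    set τ := ρ + δ with hτ
    have hτ0 : 0 < τ := by linarith
    have hyo : ‖y - o‖ < τ := by
      by_contra hcon
      push Not at hcon
      have hpos : 0 < ‖y - o‖ := lt_of_lt_of_le hτ0 hcon
      set z : ℂ := y + ((τ / ‖y - o‖ : ℝ) : ℂ) * (o - y) with hz
      have hzy : ‖z - y‖ = τ := by
        have e : z - y = ((τ / ‖y - o‖ : ℝ) : ℂ) * (o - y) := by rw [hz]; ring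
        rw [e, norm_mul, Complex.norm_real, Real.norm_eq_abs, abs_of_pos (by positivity),
          norm_sub_rev o y]
        field_simp
      have hzo : ‖z - o‖ = ‖y - o‖ - τ := by
        have e : z - o = ((1 - τ / ‖y - o‖ : ℝ) : ℂ) * (y - o) := by rw [hz]; push_cast; ring
        have h1 : 0 ≤ 1 - τ / ‖y - o‖ := by
          rw [sub_nonneg, div_le_one hpos]; exact hcon
        rw [e, norm_mul, Complex.norm_real, Real.norm_eq_abs, abs_of_nonneg h1]
        field_simp
      have hzn : ‖z‖ ≤ L - ρ := by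
        have e : z = y + (z - y) := by ring
        rw [e]
        refine (norm_add_le _ _).trans ?_
        rw [hzy]
        have := hb y hyU
        linarith
      obtain ⟨f, hf, hfz⟩ := hnear z hzn
      have h1 := hout f hf
      have h2 : ‖f - o‖ ≤ ‖f - z‖ + ‖z - o‖ := by
        have e : f - o = (f - z) + (z - o) := by ring
        rw [e]; exact norm_add_le _ _
      have h3 := hρ z
      linarith
    have hon : ‖o‖ ≤ L - ρ := by
      have e : o = y - (y - o) := by ring
      rw [e]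
      refine (norm_sub_le _ _).trans ?_
      have := hb y hyU
      linarith
    obtain ⟨f, hf, hfo⟩ := hnear o hon
    have hr1 : r < infDist o C + δ := lt_of_le_of_lt (hout f hf) hfo
    have hr2 := hρ o
    refine ⟨a, b, c, o, r, hse, ha, hb', hc, hD, by linarith, ?_⟩
    intro z hz
    have hzr : ‖z - o‖ ≤ r := by
      have := hball hz
      rwa [mem_closedBall_iff_norm] at this
    rcases eq_or_lt_of_le (infDist_nonneg (x := o) (s := C)) with h0 | h0
    · refine mem_cthickening_of_dist_le z y _ _ hyU ?_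
      rw [dist_eq_norm]
      have e : z - y = (z - o) - (y - o) := by ring
      rw [e]
      refine (norm_sub_le _ _).trans ?_
      linarith
    · set d := infDist o C with hd
      set z' : ℂ := o + ((d / (d + δ) : ℝ) : ℂ) * (z - o) with hz'
      have hz'o : ‖z' - o‖ < d := by
        have e : z' - o = ((d / (d + δ) : ℝ) : ℂ) * (z - o) := by rw [hz']; ring
        rw [e, norm_mul, Complex.norm_real, Real.norm_eq_abs, abs_of_pos (by positivity)]
        have h1 : d / (d + δ) * ‖z - o‖ < d / (d + δ) * (d + δ) :=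
          mul_lt_mul_of_pos_left (by linarith) (by positivity)
        have h2 : d / (d + δ) * (d + δ) = d := by field_simp
        linarith
      have hz'U : z' ∈ U := by
        have h1 : z' ∈ ball o (infDist o C) := by
          rw [mem_ball_iff_norm]; exact hz'o
        have h2 : ball o (infDist o Uᶜ) ⊆ U := ball_infDist_compl_subset
        exact h2 h1
      refine mem_cthickening_of_dist_le z z' _ _ hz'U ?_
      rw [dist_eq_norm]
      have e : z - z' = ((δ / (d + δ) : ℝ) : ℂ) * (z - o) := by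
        have : (δ / (d + δ) : ℝ) = 1 - d / (d + δ) := by field_simp; ring
        rw [hz', this]; push_cast; ring
      rw [e, norm_mul, Complex.norm_real, Real.norm_eq_abs, abs_of_pos (by positivity)]
      have h1 : δ / (d + δ) * ‖z - o‖ ≤ δ / (d + δ) * (d + δ) :=
        mul_le_mul_of_nonneg_left (by linarith) (by positivity)
      have h2 : δ / (d + δ) * (d + δ) = δ := by field_simp
      linarith
  -- the triangles which meet `U`
  set T' : Finset (Finset ℂ) := T.filter fun s : Finset ℂ =>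
    (convexHull ℝ (s : Set ℂ) ∩ U).Nonempty with hT'
  have hcpt : ∀ s : Finset ℂ, IsCompact (convexHull ℝ (s : Set ℂ)) := fun s =>
    Set.Finite.isCompact_convexHull (𝕜 := ℝ) s.finite_toSet
  have hI : ∫ x in U, infDist x C ≤
      ∑ s ∈ T', ∫ x in convexHull ℝ (s : Set ℂ), (infDist x (s : Set ℂ) + δ) := by
    refine int_cover T' (fun s : Finset ℂ => convexHull ℝ (s : Set ℂ))
      (fun (s : Finset ℂ) x => infDist x (s : Set ℂ) + δ) hU.measurableSet (fun x => infDist_nonneg)
      (fun s _ => hcpt s) (fun s _ => (continuous_infDist_pt _).add continuous_const)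
      (fun s _ x => add_nonneg infDist_nonneg hδ.le) ?_
    filter_upwards [hT3] with x hx hxU
    have hxF : x ∈ convexHull ℝ (F : Set ℂ) := by
      refine surround (L0 := L0) (L := L0 + 2 * δ) hL0 hδ (by linarith) ?_ (hb x hxU)
      intro z hz
      refine hFK z ⟨fun hzU => ?_, ?_⟩
      · have := hb z hzU
        linarith
      · rw [mem_closedBall_zero_iff, hz]; linarith
    obtain ⟨s, hs, hxs⟩ := hx hxF
    refine ⟨s, Finset.mem_filter.2 ⟨hs, x, hxs, hxU⟩, hxs, ?_⟩
    obtain ⟨hsF, a, b, c, o, r, hse, -⟩ := hT1 s hs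
    have hsne : (s : Set ℂ).Nonempty := by rw [hse]; exact ⟨a, by simp⟩
    obtain ⟨p, hp, hxp⟩ := s.finite_toSet.isCompact.exists_infDist_eq_dist hsne x
    obtain ⟨k, hk, hpk⟩ := hFC p (hsF hp)
    rw [hxp]
    refine (infDist_le_dist_of_mem hk).trans ((dist_triangle x p k).trans ?_)
    rw [dist_eq_norm p k]
    linarith
  -- each term
  have hterm : ∀ s ∈ T', ∫ x in convexHull ℝ (s : Set ℂ), (infDist x (s : Set ℂ) + δ) ≤
      (c0 * (ρ + δ) + δ) * volume.real (convexHull ℝ (s : Set ℂ)) := by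
    intro s hs
    rw [hT', Finset.mem_filter] at hs
    obtain ⟨hsT, y, hy, hyU⟩ := hs
    obtain ⟨a, b, c, o, r, hse, ha, hb', hc, hD, hr, -⟩ := hprop s hsT y hy hyU
    have hfin : volume (convexHull ℝ (s : Set ℂ)) ≠ ⊤ := (hcpt s).measure_lt_top.ne
    rw [integral_add ((continuous_infDist_pt _).continuousOn.integrableOn_compact (hcpt s))
      (continuous_const.continuousOn.integrableOn_compact (hcpt s)), setIntegral_const,
      smul_eq_mul]
    have h1 : ∫ x in convexHull ℝ (s : Set ℂ), infDist x (s : Set ℂ) ≤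
        ∫ x in convexHull ℝ (s : Set ℂ), mm a b c x := by
      refine setIntegral_mono_on ((continuous_infDist_pt _).continuousOn.integrableOn_compact
        (hcpt s)) ((mm_cont a b c).continuousOn.integrableOn_compact (hcpt s))
        (hcpt s).isClosed.measurableSet fun x _ => ?_
      unfold mm
      simp only [← dist_eq_norm]
      refine le_min ?_ (le_min ?_ ?_)
      · exact infDist_le_dist_of_mem (by rw [hse]; simp)
      · exact infDist_le_dist_of_mem (by rw [hse]; simp)
      · exact infDist_le_dist_of_mem (by rw [hse]; simp)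
    have h2 := tri_bound ha hb' hc hD
    rw [← hse] at h2
    have h3 : c0 * r * volume.real (convexHull ℝ (s : Set ℂ)) ≤
        c0 * (ρ + δ) * volume.real (convexHull ℝ (s : Set ℂ)) :=
      mul_le_mul_of_nonneg_right (mul_le_mul_of_nonneg_left hr c0_pos.le) measureReal_nonneg
    rw [add_mul, mul_comm δ]
    linarith
  have hVfin : volume (cthickening (2 * δ) U) ≠ ⊤ := by
    have hbd : Bornology.IsBounded U :=
      (isBounded_iff_forall_norm_le).2 ⟨L0, hb⟩
    exact (hbd.cthickening).measure_lt_top.ne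
  have hsum : ∑ s ∈ T', volume.real (convexHull ℝ (s : Set ℂ)) ≤
      volume.real (cthickening (2 * δ) U) := by
    rw [← measureReal_biUnion_finset₀ (μ := volume) (s := T')
      (f := fun s : Finset ℂ => convexHull ℝ (s : Set ℂ)) ?_ ?_ ?_]
    · refine measureReal_mono ?_ hVfin
      refine iUnion₂_subset fun s hs => ?_
      rw [hT', Finset.mem_filter] at hs
      obtain ⟨hsT, y, hy, hyU⟩ := hs
      obtain ⟨a, b, c, o, r, -, -, -, -, -, -, h⟩ := hprop s hsT y hy hyU
      exact h
    · intro s hs s' hs' hne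
      rw [hT', Finset.mem_coe, Finset.mem_filter] at hs hs'
      exact hT2 s hs.1 s' hs'.1 hne
    · intro s _
      exact (hcpt s).isClosed.measurableSet.nullMeasurableSet
    · intro s _
      exact (hcpt s).measure_lt_top.ne
  calc ∫ x in U, infDist x C ≤ _ := hI
    _ ≤ ∑ s ∈ T', (c0 * (ρ + δ) + δ) * volume.real (convexHull ℝ (s : Set ℂ)) :=
        Finset.sum_le_sum hterm
    _ = (c0 * (ρ + δ) + δ) * ∑ s ∈ T', volume.real (convexHull ℝ (s : Set ℂ)) :=
        (Finset.mul_sum _ _ _).symm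
    _ ≤ _ := by
        refine mul_le_mul_of_nonneg_left hsum ?_
        have := c0_pos
        positivity

/-- the upper bound for bounded open sets with `|closure U| = |U|` -/
lemma up_nice {U : Set ℂ} (hU : IsOpen U) {L0 ρ : ℝ} (hρ0 : 0 ≤ ρ) (hL0 : 0 ≤ L0)
    (hb : ∀ x ∈ U, ‖x‖ ≤ L0) (hρ : ∀ x, infDist x Uᶜ ≤ ρ)
    (hcl : volume (closure U) = volume U) :
    ∫ x in U, infDist x Uᶜ ≤ c0 * ρ * volume.real U := by
  have hbd : Bornology.IsBounded U := (isBounded_iff_forall_norm_le).2 ⟨L0, hb⟩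
  have h1 : Tendsto (fun r => volume (cthickening r U)) (𝓝 0) (𝓝 (volume (closure U))) :=
    tendsto_measure_cthickening ⟨1, one_pos, (hbd.cthickening).measure_lt_top.ne⟩
  rw [hcl] at h1
  have hUfin : volume U ≠ ⊤ := hbd.measure_lt_top.ne
  have h2 : Tendsto (fun r => volume.real (cthickening r U)) (𝓝 0) (𝓝 (volume.real U)) :=
    (ENNReal.tendsto_toReal hUfin).comp h1
  have h3 : Tendsto (fun δ : ℝ => 2 * δ) (𝓝[>] 0) (𝓝 0) := by
    have : Tendsto (fun δ : ℝ => 2 * δ) (𝓝 0) (𝓝 (2 * 0)) := Continuous.tendsto (by fun_prop) 0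
    rw [mul_zero] at this
    exact this.mono_left nhdsWithin_le_nhds
  have h4 := h2.comp h3
  have h5 : Tendsto (fun δ : ℝ => c0 * (ρ + δ) + δ) (𝓝[>] 0) (𝓝 (c0 * ρ)) := by
    have : Tendsto (fun δ : ℝ => c0 * (ρ + δ) + δ) (𝓝 0) (𝓝 (c0 * (ρ + 0) + 0)) :=
      Continuous.tendsto (by fun_prop) 0
    rw [add_zero, add_zero] at this
    exact this.mono_left nhdsWithin_le_nhds
  refine ge_of_tendsto (h5.mul h4) ?_
  filter_upwards [self_mem_nhdsWithin] with δ hδ
  exact up_delta hU hρ0 hL0 hb hρ hδ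

end Pool.Agent.R224.MD
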