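import Pool.Agent.R224.MD.Up

/-!
# Mean distance and inradius: the upper bound for all bounded open sets
-/

set_option autoImplicit false

open Set MeasureTheory Filter Topology Metric

noncomputable section

namespace Pool.Agent.R224.MD

lemma up_eta {Ω : Set ℂ} (hΩ : IsOpen Ω) (hbd : Bornology.IsBounded Ω) {ρ η : ℝ} (hρ0 : 0 ≤ ρ)
    (hρ : ∀ x, infDist x Ωᶜ ≤ ρ) (hη : 0 < η) :
    ∫ x in Ω, infDist x Ωᶜ ≤ c0 * ρ * volume.real Ω + η * volume.real Ω := by
  classical
  obtain ⟨L0, hL0⟩ := isBounded_iff_forall_norm_le.1 hbd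
  have hCne : (Ωᶜ).Nonempty := by
    rw [nonempty_compl]
    rintro rfl
    have h1 := hL0 ((|L0| + 1 : ℝ) : ℂ) (mem_univ _)
    rw [Complex.norm_real, Real.norm_eq_abs, abs_of_nonneg (by positivity)] at h1
    linarith [le_abs_self L0]
  set K : Set ℂ := {x | η ≤ infDist x Ωᶜ} with hK
  have hKΩ : K ⊆ Ω := by
    intro x hx
    by_contra hcon
    have hx' : η ≤ infDist x Ωᶜ := hx
    rw [infDist_zero_of_mem (show x ∈ Ωᶜ from hcon)] at hx'
    linarith
  have hKcl : IsClosed K := isClosed_le continuous_const (continuous_infDist_pt _)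
  have hKc : IsCompact K := isCompact_of_isClosed_isBounded hKcl (hbd.subset hKΩ)
  obtain ⟨t, htK, htf, hcov⟩ := finite_cover_balls_of_compact hKc (half_pos hη)
  set U : Set ℂ := ⋃ x ∈ t, ball x (η / 2) with hU
  have hUo : IsOpen U := isOpen_biUnion fun _ _ => isOpen_ball
  have hUΩ : U ⊆ Ω := by
    refine iUnion₂_subset fun p hp => ?_
    have h1 : η ≤ infDist p Ωᶜ := htK hp
    exact (ball_subset_ball (by linarith)).trans ball_infDist_compl_subset
  have hfin : volume U ≠ ⊤ := (hbd.subset hUΩ).measure_lt_top.ne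
  have hcl : volume (closure U) = volume U := by
    refine le_antisymm ?_ (measure_mono subset_closure)
    have h1 : closure U ⊆ U ∪ ⋃ x ∈ t, sphere x (η / 2) := by
      rw [hU, htf.closure_biUnion]
      refine iUnion₂_subset fun p hp z hz => ?_
      have h2 : z ∈ closedBall p (η / 2) := closure_ball_subset_closedBall hz
      rw [← ball_union_sphere] at h2
      rcases h2 with h | h
      · exact Or.inl (mem_iUnion₂.2 ⟨p, hp, h⟩)
      · exact Or.inr (mem_iUnion₂.2 ⟨p, hp, h⟩)
    have h2 : volume (⋃ x ∈ t, sphere x (η / 2)) = 0 :=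
      (measure_biUnion_null_iff htf.countable).2 fun p _ => Measure.addHaar_sphere _ _ _
    calc volume (closure U) ≤ volume (U ∪ ⋃ x ∈ t, sphere x (η / 2)) := measure_mono h1
      _ ≤ volume U + volume (⋃ x ∈ t, sphere x (η / 2)) := measure_union_le _ _
      _ = volume U := by rw [h2, add_zero]
  have hρU : ∀ x, infDist x Uᶜ ≤ ρ := fun x =>
    (infDist_le_infDist_of_subset (compl_subset_compl.2 hUΩ) hCne).trans (hρ x)
  have h1 := up_nice hUo (L0 := |L0|) hρ0 (abs_nonneg _)
    (fun x hx => (hL0 x (hUΩ hx)).trans (le_abs_self _)) hρU hcl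
  have hΩfin : volume Ω ≠ ⊤ := hbd.measure_lt_top.ne
  -- pointwise comparison
  have hpt : ∀ x ∈ Ω, infDist x Ωᶜ ≤ U.indicator (fun x => infDist x Uᶜ) x + η := by
    intro x hx
    by_cases hxK : x ∈ K
    · have hxU : x ∈ U := hcov hxK
      rw [indicator_of_mem hxU]
      have hUne : (Uᶜ).Nonempty := hCne.mono (compl_subset_compl.2 hUΩ)
      have h2 : infDist x Ωᶜ - η ≤ infDist x Uᶜ := by
        rw [le_infDist hUne]
        intro y hy
        by_contra hcon
        push Not at hcon
        apply hy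
        apply hcov
        change η ≤ infDist y Ωᶜ
        have := infDist_le_infDist_add_dist (s := Ωᶜ) (x := x) (y := y)
        linarith
      linarith
    · have : infDist x Ωᶜ < η := not_le.1 hxK
      have h2 : 0 ≤ U.indicator (fun x => infDist x Uᶜ) x :=
        indicator_nonneg (fun x _ => infDist_nonneg) x
      linarith
  have hcb : ∀ S : Set ℂ, IntegrableOn (fun x => infDist x S) Ω := by
    intro S
    have h2 : IntegrableOn (fun x => infDist x S) (closure Ω) :=
      (continuous_infDist_pt _).continuousOn.integrableOn_compact hbd.isCompact_closure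
    exact h2.mono_set subset_closure
  have hi : IntegrableOn (U.indicator (fun x => infDist x Uᶜ)) Ω :=
    (hcb Uᶜ).indicator hUo.measurableSet
  calc ∫ x in Ω, infDist x Ωᶜ ≤ ∫ x in Ω, (U.indicator (fun x => infDist x Uᶜ) x + η) :=
        setIntegral_mono_on (hcb Ωᶜ) (hi.add (integrableOn_const hΩfin)) hΩ.measurableSet hpt
    _ = (∫ x in U, infDist x Uᶜ) + η * volume.real Ω := by
        rw [integral_add hi (integrableOn_const hΩfin), setIntegral_indicator hUo.measurableSet,
          inter_eq_self_of_subset_right hUΩ, setIntegral_const, smul_eq_mul, mul_comm η]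
    _ ≤ _ := by
        have h2 : volume.real U ≤ volume.real Ω := measureReal_mono hUΩ hΩfin
        have h3 : c0 * ρ * volume.real U ≤ c0 * ρ * volume.real Ω :=
          mul_le_mul_of_nonneg_left h2 (mul_nonneg c0_pos.le hρ0)
        linarith

theorem up_gen {Ω : Set ℂ} (hΩ : IsOpen Ω) (hbd : Bornology.IsBounded Ω) {ρ : ℝ} (hρ0 : 0 ≤ ρ)
    (hρ : ∀ x, infDist x Ωᶜ ≤ ρ) :
    ∫ x in Ω, infDist x Ωᶜ ≤ c0 * ρ * volume.real Ω := by
  refine le_of_forall_pos_le_add fun ε hε => ?_
  have hV : 0 ≤ volume.real Ω := measureReal_nonneg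
  have h := up_eta hΩ hbd hρ0 hρ (η := ε / (volume.real Ω + 1)) (by positivity)
  refine h.trans ?_
  have : ε / (volume.real Ω + 1) * volume.real Ω ≤ ε := by
    rw [div_mul_eq_mul_div, div_le_iff₀ (by positivity)]
    nlinarith
  linarith

end Pool.Agent.R224.MD
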